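import Pool.Agent.H66.GEO.Defs

/-!
# GEO, module Bas: elementary facts about the strips and the strip maps

To be imported by every module of the chapter; do not restate these facts.
-/

set_option autoImplicit false

open Filter Topology Metric Set

namespace Pool.Agent.H66.GEO

theorem st_open (a b : ℝ) : IsOpen (St a b) :=
  (isOpen_lt continuous_const Complex.continuous_re).inter (isOpen_lt Complex.continuous_re continuous_const)

theorem st_conv (a b : ℝ) : Convex ℝ (St a b) :=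
  (convex_halfSpace_re_gt a).inter (convex_halfSpace_re_lt b)

/-- strips are invariant under imaginary translations -/
theorem st_tr {a b : ℝ} {t c : ℂ} (hc : c.re = 0) : t + c ∈ St a b ↔ t ∈ St a b := by
  simp [St, hc]

theorem st_pi {a b : ℝ} {t : ℂ} : t + Real.pi * Complex.I ∈ St a b ↔ t ∈ St a b :=
  st_tr (by simp)

theorem st_per {a b : ℝ} {t : ℂ} (k : ℤ) : t + 2 * Real.pi * Complex.I * k ∈ St a b ↔ t ∈ St a b :=
  st_tr (by simp)

theorem ss_mem {th : ℝ} {s : ℕ} {t : ℂ} : t ∈ Ss th s ↔ Real.log th / 2 ^ s < t.re ∧ t.re < 0 := Iff.rfl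

theorem ss_pow {th : ℝ} {s : ℕ} {t : ℂ} : t ∈ Ss th s ↔ 2 ^ s * t ∈ Ss th 0 := by
  have h1 : ((2 : ℂ) ^ s * t).re = 2 ^ s * t.re := by
    have : ((2 : ℂ) ^ s) = ((2 ^ s : ℝ) : ℂ) := by push_cast; rfl
    rw [this, Complex.re_ofReal_mul]
  have h2 : (0 : ℝ) < 2 ^ s := by positivity
  rw [ss_mem, ss_mem, h1, pow_zero, div_one, div_lt_iff₀ h2, mul_comm t.re]
  constructor
  · rintro ⟨h3, h4⟩
    exact ⟨h3, mul_neg_of_pos_of_neg h2 h4⟩
  · rintro ⟨h3, h4⟩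
    exact ⟨h3, (pos_iff_neg_of_mul_neg h4).1 h2⟩

theorem ss_half {th : ℝ} {s : ℕ} {t : ℂ} : t ∈ Ss th (s + 1) ↔ 2 * t ∈ Ss th s := by
  rw [ss_pow, ss_pow (s := s) (t := 2 * t), pow_succ, mul_assoc]

theorem ss_norm {th : ℝ} (h0 : 0 < th) {s : ℕ} {t : ℂ} : t ∈ Ss th s ↔
    th < ‖Complex.exp (2 ^ s * t)‖ ∧ ‖Complex.exp (2 ^ s * t)‖ < 1 := by
  rw [ss_pow, ss_mem, pow_zero, div_one, Complex.norm_exp, ← Real.log_lt_iff_lt_exp h0, Real.exp_lt_one_iff]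

theorem ps_off {Q : Set ℂ} {Lf : Set ℂ → (ℂ → ℂ) → (ℂ → ℂ) → Prop} {th r : ℝ} {φ F : ℕ → ℂ → ℂ} {ω α : ℕ → ℂ}
    (hX : XS Q Lf th r φ F ω α) {ψ : ℕ → ℂ → ℂ} (hP : PS th φ F ω α ψ) (s : ℕ) : ∀ t ∈ Ss th s, ψ s t ∉ Q := by
  intro t ht
  obtain ⟨x, hx, h1, h2⟩ := hP.lev s t ht
  rw [h2]
  refine hX.off s x hx ?_
  rw [h1]
  exact ((ss_norm hX.th0).1 ht).1

theorem ps_pi2 {th : ℝ} {φ F : ℕ → ℂ → ℂ} {ω α : ℕ → ℂ} {ψ : ℕ → ℂ → ℂ} (hP : PS th φ F ω α ψ) (s : ℕ) :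
    ∀ t ∈ Ss th s, ψ s (t + 2 * Real.pi * Complex.I) = ψ s t := by
  intro t ht
  have h1 : t + 2 * Real.pi * Complex.I = (t + Real.pi * Complex.I) + Real.pi * Complex.I := by ring
  rw [h1, hP.per s _ (st_pi.2 ht), hP.per s _ ht, neg_neg]

theorem ps_per {th : ℝ} {φ F : ℕ → ℂ → ℂ} {ω α : ℕ → ℂ} {ψ : ℕ → ℂ → ℂ} (hP : PS th φ F ω α ψ) (s : ℕ) (k : ℤ) :
    ∀ t ∈ Ss th s, ψ s (t + 2 * Real.pi * Complex.I * k) = ψ s t := by
  have key : ∀ (n : ℕ), ∀ t ∈ Ss th s, ψ s (t + 2 * Real.pi * Complex.I * (n : ℂ)) = ψ s t := by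
    intro n
    induction n with
    | zero => intro t _; simp
    | succ n ih =>
      intro t ht
      have h1 : t + 2 * Real.pi * Complex.I * ((n + 1 : ℕ) : ℂ) =
          (t + 2 * Real.pi * Complex.I * (n : ℂ)) + 2 * Real.pi * Complex.I := by
        push_cast
        ring
      have h2 : t + 2 * Real.pi * Complex.I * (n : ℂ) ∈ Ss th s :=
        (st_tr (c := 2 * Real.pi * Complex.I * (n : ℂ)) (by simp)).2 ht
      rw [h1, ps_pi2 hP s _ h2, ih t ht]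
  intro t ht
  rcases Int.eq_nat_or_neg k with ⟨n, rfl | rfl⟩
  · exact_mod_cast key n t ht
  · have h1 := key n (t + 2 * Real.pi * Complex.I * ((-(n : ℤ) : ℤ) : ℂ)) ((st_per _).2 ht)
    rw [← h1]
    congr 1
    push_cast
    ring

end Pool.Agent.H66.GEO
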