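import Mathlib

/-!
# THEOREM GEO (ROB => DIM, part 4, think 1848; MP_8f2e1c_an): definitions

`St a b`: vertical strips. `LS`: lift systems off the closed set `Q` (axioms (A1)-(A6)): `Lf S H G` means that `G` lifts `H` on the
convex open set `S`. `XS`: the domains `X_s = φ s '' ball 0 1` with the degree two maps `F s : X_(s+1) → X_s`. `PS`: the strip
maps `ψ s` onto the collars. `GG`: their lifts. `wn`: winding numbers of closed curves (period 1). Affine maps `z ↦ a z + b`, `a`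
real: pairs `(a, b)`, `ac`, `mu`, `iv`; `GM`: the affine maps which make lifts of a lift; `LO`: loops (right multiplication).
-/

set_option autoImplicit false

open Filter Topology Metric Set

namespace Pool.Agent.H66.GEO

/-- vertical strips -/
def St (a b : ℝ) : Set ℂ := {t | a < t.re ∧ t.re < b}

/-- lift systems off `Q` -/
structure LS (Q : Set ℂ) (Lf : Set ℂ → (ℂ → ℂ) → (ℂ → ℂ) → Prop) : Prop where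
  Qc : IsClosed Q
  Q0 : (0 : ℂ) ∈ Q
  op : ∀ {S : Set ℂ} {H G : ℂ → ℂ}, Lf S H G → IsOpen S ∧ Convex ℝ S
  dH : ∀ {S : Set ℂ} {H G : ℂ → ℂ}, Lf S H G → DifferentiableOn ℂ H S ∧ ∀ u ∈ S, H u ∉ Q ∧ deriv H u ≠ 0
  dG : ∀ {S : Set ℂ} {H G : ℂ → ℂ}, Lf S H G → DifferentiableOn ℂ G S ∧ ∀ u ∈ S, deriv G u ≠ 0
  sub : ∀ {S : Set ℂ} {H G : ℂ → ℂ}, Lf S H G → ∀ (S' : Set ℂ) (k H' G' : ℂ → ℂ), IsOpen S' → Convex ℝ S' →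
    DifferentiableOn ℂ k S' → (∀ u ∈ S', k u ∈ S ∧ deriv k u ≠ 0 ∧ H' u = H (k u) ∧ G' u = G (k u)) → Lf S' H' G'
  ext : ∀ {S : Set ℂ} {H G : ℂ → ℂ}, Lf S H G → ∀ (S' : Set ℂ) (H' : ℂ → ℂ) (u u' : ℂ), IsOpen S' → Convex ℝ S' →
    DifferentiableOn ℂ H' S' → (∀ v ∈ S', H' v ∉ Q ∧ deriv H' v ≠ 0) → u ∈ S → u' ∈ S' → H' u' = H u →
    ∃ G' : ℂ → ℂ, Lf S' H' G' ∧ G' u' = G u
  gal : ∀ {S : Set ℂ} {H G G' : ℂ → ℂ}, Lf S H G → Lf S H G' →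
    ∃ (a : ℝ) (b : ℂ), a ≠ 0 ∧ ∀ u ∈ S, G' u = a * G u + b
  dis : ∀ {S S' : Set ℂ} {H G H' G' : ℂ → ℂ}, Lf S H G → Lf S' H' G' → ∀ u ∈ S, ∀ u' ∈ S', G u = G' u' →
    H u = H' u' ∧ ∃ ε : ℝ, 0 < ε ∧ ∀ v ∈ S, ∀ v' ∈ S', ‖v - u‖ < ε → ‖v' - u'‖ < ε → H v = H' v' → G v = G' v'
  typ : ∀ (φ G : ℂ → ℂ) (d : ℝ), 0 < d → d < 1 → DifferentiableOn ℂ φ (ball 0 1) → InjOn φ (ball 0 1) →
    Bornology.IsBounded (φ '' ball 0 1) → (0 : ℂ) ∈ φ '' ball 0 1 →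
    Lf (St (Real.log (1 - d)) 0) (fun t => φ (Complex.exp t)) G →
    ¬ ∀ t ∈ St (Real.log (1 - d)) 0, G (t + 4 * Real.pi * Complex.I) = G t
  sym : ∀ {S : Set ℂ} {H G G' : ℂ → ℂ}, Lf S H G → Lf S (fun u => - H u) G' →
    ∃ (a : ℝ) (b : ℂ), a ≠ 0 ∧ ∀ u ∈ S, G' u = a * G u + b

/-- the degree two maps of the disc -/
noncomputable def Bl (ω α x : ℂ) : ℂ := ω * (x ^ 2 + α) / (1 + (starRingEnd ℂ) α * x ^ 2)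

/-- `BB s = B 0 ∘ .. ∘ B (s-1)` -/
noncomputable def BB (ω α : ℕ → ℂ) : ℕ → ℂ → ℂ
  | 0, x => x
  | s + 1, x => BB ω α s (Bl (ω s) (α s) x)

/-- the domains `X_s` -/
structure XS (Q : Set ℂ) (Lf : Set ℂ → (ℂ → ℂ) → (ℂ → ℂ) → Prop) (th r : ℝ) (φ F : ℕ → ℂ → ℂ) (ω α : ℕ → ℂ) : Prop where
  th0 : 0 < th
  thr : th < r
  r1 : r < 1
  dφ : ∀ s, DifferentiableOn ℂ (φ s) (ball 0 1)
  iφ : ∀ s, InjOn (φ s) (ball 0 1)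
  oφ : ∀ s, ∀ x ∈ ball (0 : ℂ) 1, φ s (-x) = - φ s x
  bφ : Bornology.IsBounded (φ 0 '' ball 0 1)
  hω : ∀ s, ‖ω s‖ = 1
  hα : ∀ s, ‖α s‖ < 1
  cv : ∀ s, ‖BB ω α s (ω s * α s)‖ ≤ th
  dF : ∀ s, DifferentiableOn ℂ (F s) (φ (s + 1) '' ball 0 1)
  rel : ∀ s, ∀ x ∈ ball (0 : ℂ) 1, F s (φ (s + 1) x) = φ s (Bl (ω s) (α s) x)
  off : ∀ s, ∀ x ∈ ball (0 : ℂ) 1, th < ‖BB ω α s x‖ → φ s x ∉ Q
  pb : ∀ (s : ℕ) {S : Set ℂ} {H G' G : ℂ → ℂ}, Lf S H G' → (∀ u ∈ S, H u ∈ φ (s + 1) '' ball 0 1) →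
    Lf S (fun u => F s (H u)) G → ∃ (a : ℝ) (b : ℂ), a ≠ 0 ∧ ∀ u ∈ S, G u = a * G' u + b
  cr : ∀ s : ℕ, ∃ x y : ℂ, ‖x‖ = r ∧ ‖y‖ < 1 ∧ ‖BB ω α (s + 1) y‖ = r ∧ φ (s + 1) y = φ 0 x
  ex : ∃ (S : Set ℂ) (H G : ℂ → ℂ) (u x : ℂ), Lf S H G ∧ u ∈ S ∧ ‖x‖ < 1 ∧ th < ‖x‖ ∧ H u = φ 0 x
  F0 : F 0 0 ≠ 0

/-- the strip of `X_s` -/
def Ss (th : ℝ) (s : ℕ) : Set ℂ := St (Real.log th / 2 ^ s) 0

/-- strip maps onto the collars -/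
structure PS (th : ℝ) (φ F : ℕ → ℂ → ℂ) (ω α : ℕ → ℂ) (ψ : ℕ → ℂ → ℂ) : Prop where
  dif : ∀ s, DifferentiableOn ℂ (ψ s) (Ss th s)
  der : ∀ s, ∀ t ∈ Ss th s, deriv (ψ s) t ≠ 0
  zer : ∀ t : ℂ, ψ 0 t = φ 0 (Complex.exp t)
  lev : ∀ s, ∀ t ∈ Ss th s, ∃ x ∈ ball (0 : ℂ) 1, BB ω α s x = Complex.exp (2 ^ s * t) ∧ ψ s t = φ s x
  sur : ∀ s, ∀ x ∈ ball (0 : ℂ) 1, th < ‖BB ω α s x‖ → ∃ t ∈ Ss th s, ψ s t = φ s x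
  stp : ∀ s, ∀ t ∈ Ss th (s + 1), F s (ψ (s + 1) t) = ψ s (2 * t)
  inj : ∀ s, ∀ t ∈ Ss th s, ∀ t' ∈ Ss th s, ψ s t = ψ s t' → ∃ k : ℤ, t' = t + 2 * Real.pi * Complex.I * k
  per : ∀ s, ∀ t ∈ Ss th s, ψ s (t + Real.pi * Complex.I) = - ψ s t

/-- lifts of the strip maps -/
structure GG (Lf : Set ℂ → (ℂ → ℂ) → (ℂ → ℂ) → Prop) (th r : ℝ) (ψ G : ℕ → ℂ → ℂ) : Prop where
  lf : ∀ s, Lf (Ss th s) (ψ s) (G s)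
  lk : ∀ s : ℕ, ∃ t ∈ Ss th 0, ∃ t' ∈ Ss th (s + 1), t.re = Real.log r ∧ t'.re = Real.log r / 2 ^ (s + 1) ∧
    ψ 0 t = ψ (s + 1) t' ∧ G 0 t = G (s + 1) t'
  ab : ∀ s, ∃ (a : ℝ) (b : ℂ), a ≠ 0 ∧ ∀ t ∈ Ss th s, G 0 (2 ^ s * t) = a * G s t + b

/-- winding number of the closed curve `γ` (period 1) about `p` -/
noncomputable def wn (γ : ℝ → ℂ) (p : ℂ) : ℂ :=
  (2 * Real.pi * Complex.I)⁻¹ * ∫ t in (0 : ℝ)..1, deriv γ t / (γ t - p)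

/-- smooth closed curves -/
structure CC (γ : ℝ → ℂ) : Prop where
  c1 : ContDiff ℝ 1 γ
  per : ∀ t, γ (t + 1) = γ t

/-- the action of affine maps -/
noncomputable def ac (g : ℝ × ℂ) (z : ℂ) : ℂ := g.1 * z + g.2

/-- composition `g ∘ h` -/
noncomputable def mu (g h : ℝ × ℂ) : ℝ × ℂ := (g.1 * h.1, g.1 * h.2 + g.2)

/-- inverse -/
noncomputable def iv (g : ℝ × ℂ) : ℝ × ℂ := (g.1⁻¹, - ((g.1 : ℂ)⁻¹ * g.2))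

/-- the affine maps `g` such that `g ∘ G` is again a lift -/
def GM (Lf : Set ℂ → (ℂ → ℂ) → (ℂ → ℂ) → Prop) (S : Set ℂ) (H G : ℂ → ℂ) : Set (ℝ × ℂ) :=
  {g | g.1 ≠ 0 ∧ Lf S H (fun u => ac g (G u))}

/-- loops -/
def LO (Lf : Set ℂ → (ℂ → ℂ) → (ℂ → ℂ) → Prop) (S : Set ℂ) (H G : ℂ → ℂ) : Set (ℝ × ℂ) :=
  {g | g.1 ≠ 0 ∧ ∀ h ∈ GM Lf S H G, mu h g ∈ GM Lf S H G ∧ mu h (iv g) ∈ GM Lf S H G}

/-- the winding number of `exp (2 π i K)`, `re t = l`, about `exp (2 π i x)` -/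
noncomputable def nu (K : ℂ → ℂ) (l : ℝ) (x : ℂ) : ℂ :=
  wn (fun y : ℝ => Complex.exp (2 * Real.pi * Complex.I * K (l + 2 * Real.pi * Complex.I * y)))
    (Complex.exp (2 * Real.pi * Complex.I * x))

end Pool.Agent.H66.GEO
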