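import Pool.Agent.H66.GEO.Defs

/-!
# GEO, module WN: winding numbers of smooth closed curves

`wn γ p = (2 π i)⁻¹ ∫_0^1 γ' / (γ - p)`.
PROOFS. `wn_int`: `L t = ∫_0^t γ'/(γ - p)` is differentiable, `(γ t - p) exp (- L t)` has derivative `0`, so it is constant; at `t = 1`:
`exp (L 1) = 1` because `γ 1 = γ 0`. `wn_cont`: the integrand is jointly continuous off the (compact) range of `γ`
(`intervalIntegral` depending continuously on a parameter: dominated convergence, locally `‖γ t - p‖ ≥ d / 2`).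
`wn_const`: continuous with integer values on a preconnected set (compare `Pool.Agent.H81.RW.log_uniq` for the argument).
`wn_far`: constant on `{p | ∀ t, ‖γ t‖ < ‖p‖}` (preconnected: complement of a closed ball; or for `p` and `s p`, `s ≥ 1` real, the ray
is preconnected) and tends to `0` (`‖wn‖ ≤ C / (‖p‖ - M)`), integer. `wn_near`: the segment from `0` to `p`.
`wn_exp`: `γ'/γ = 2 π i π'`, fundamental theorem of calculus.
`cc_line`: composition of smooth functions, `E` is analytic on the open strip. `wn_exp_line`: special case.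
-/

set_option autoImplicit false

open Filter Topology Metric Set

namespace Pool.Agent.H66.GEO

section aux

variable {γ : ℝ → ℂ}

theorem cc_hd (h : CC γ) (t : ℝ) : HasDerivAt γ (deriv γ t) t :=
  (h.c1.differentiable one_ne_zero t).hasDerivAt

theorem cc_cd (h : CC γ) : Continuous (deriv γ) := h.c1.continuous_deriv le_rfl

theorem cc_ct (h : CC γ) : Continuous γ := h.c1.continuous

theorem cc_one (h : CC γ) : γ 1 = γ 0 := by
  have := h.per 0
  rwa [zero_add] at this

theorem cc_ex (h : CC γ) (t : ℝ) : ∃ t' ∈ Icc (0 : ℝ) 1, γ t = γ t' := by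
  have hp : Function.Periodic γ 1 := h.per
  obtain ⟨t', h1, h2⟩ := hp.exists_mem_Ico₀ one_pos t
  exact ⟨t', ⟨h1.1, h1.2.le⟩, h2⟩

theorem cc_int (h : CC γ) {p : ℂ} (hp : ∀ t, γ t ≠ p) : Continuous fun t => deriv γ t / (γ t - p) :=
  (cc_cd h).div ((cc_ct h).sub continuous_const) fun t => sub_ne_zero.2 (hp t)

/-- the winding number from a logarithm -/
theorem wn_lift {p : ℂ} {g : ℝ → ℂ} (h : CC γ) (hp : ∀ t, γ t ≠ p) (hg : ∀ t ∈ Icc (0 : ℝ) 1, DifferentiableAt ℝ g t)
    (he : ∀ t, Complex.exp (g t) = γ t - p) : wn γ p = (2 * Real.pi * Complex.I)⁻¹ * (g 1 - g 0) := by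
  unfold wn
  congr 1
  refine intervalIntegral.integral_eq_sub_of_hasDerivAt (fun t ht => ?_) ((cc_int h hp).intervalIntegrable _ _)
  rw [uIcc_of_le zero_le_one] at ht
  have h1 := (hg t ht).hasDerivAt
  have h2 : HasDerivAt (fun t => Complex.exp (g t)) (Complex.exp (g t) * deriv g t) t := h1.cexp
  have h3 : HasDerivAt (fun t => Complex.exp (g t)) (deriv γ t) t := by
    have h4 : (fun t => Complex.exp (g t)) = fun t => γ t - p := funext he
    rw [h4]
    exact (cc_hd h t).sub_const p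
  have h5 := h2.unique h3
  rw [he] at h5
  refine h1.congr_deriv ?_
  rw [eq_div_iff (sub_ne_zero.2 (hp t)), ← h5, mul_comm]

theorem wn_loc (h : CC γ) {e e' : ℂ} (he : ∀ t, ‖e - e'‖ < ‖γ t - e‖) : wn γ e = wn γ e' := by
  have h1 : ∀ t, γ t ≠ e := by
    intro t h0
    have h2 := he t
    rw [h0, sub_self, norm_zero] at h2
    exact absurd h2 (not_lt.2 (norm_nonneg _))
  have h2 : ∀ t, γ t ≠ e' := by
    intro t h0
    have h2 := he t
    rw [h0, norm_sub_rev] at h2
    exact absurd h2 (lt_irrefl _)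
  have hi1 := (cc_int h h1).intervalIntegrable (μ := MeasureTheory.volume) 0 1
  have hi2 := (cc_int h h2).intervalIntegrable (μ := MeasureTheory.volume) 0 1
  have hs : ∀ t, (γ t - e') / (γ t - e) ∈ Complex.slitPlane := by
    intro t
    have h3 : γ t - e ≠ 0 := sub_ne_zero.2 (h1 t)
    have h4 : (γ t - e') / (γ t - e) = 1 + (e - e') / (γ t - e) := by
      field_simp
      ring
    rw [h4]
    refine Complex.mem_slitPlane_of_norm_lt_one ?_
    rw [norm_div, div_lt_one (norm_pos_iff.2 h3)]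
    exact he t
  have hd : ∀ t, HasDerivAt (fun t => Complex.log ((γ t - e') / (γ t - e)))
      (deriv γ t / (γ t - e') - deriv γ t / (γ t - e)) t := by
    intro t
    have h3 : γ t - e ≠ 0 := sub_ne_zero.2 (h1 t)
    have h3' : γ t - e' ≠ 0 := sub_ne_zero.2 (h2 t)
    have h4 := (((cc_hd h t).sub_const e').div ((cc_hd h t).sub_const e) h3).clog_real (hs t)
    refine h4.congr_deriv ?_
    show (deriv γ t * (γ t - e) - (γ t - e') * deriv γ t) / (γ t - e) ^ 2 / ((γ t - e') / (γ t - e)) = _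
    field_simp
  have h5 := intervalIntegral.integral_eq_sub_of_hasDerivAt (a := (0 : ℝ)) (b := 1) (fun t _ => hd t) (hi2.sub hi1)
  rw [intervalIntegral.integral_sub hi2 hi1, cc_one h, sub_self, sub_eq_zero] at h5
  unfold wn
  rw [h5]

theorem cc_min (h : CC γ) {p : ℂ} (hp : ∀ t, γ t ≠ p) : ∃ m : ℝ, 0 < m ∧ ∀ t, m ≤ ‖γ t - p‖ := by
  have hc : ContinuousOn (fun t => ‖γ t - p‖) (Icc (0 : ℝ) 1) := ((cc_ct h).sub continuous_const).norm.continuousOn
  obtain ⟨t0, ht0, hmin⟩ := isCompact_Icc.exists_isMinOn (nonempty_Icc.2 zero_le_one) hc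
  refine ⟨‖γ t0 - p‖, norm_pos_iff.2 (sub_ne_zero.2 (hp t0)), fun t => ?_⟩
  obtain ⟨t', ht', e⟩ := cc_ex h t
  rw [e]
  exact isMinOn_iff.1 hmin t' ht'

theorem cc_max (h : CC γ) : ∃ M : ℝ, ∀ t, ‖γ t‖ ≤ M := by
  have hc : ContinuousOn (fun t => ‖γ t‖) (Icc (0 : ℝ) 1) := (cc_ct h).norm.continuousOn
  obtain ⟨t0, ht0, hmax⟩ := isCompact_Icc.exists_isMaxOn (nonempty_Icc.2 zero_le_one) hc
  refine ⟨‖γ t0‖, fun t => ?_⟩
  obtain ⟨t', ht', e⟩ := cc_ex h t
  rw [e]
  exact isMaxOn_iff.1 hmax t' ht'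

end aux

theorem wn_int {γ : ℝ → ℂ} (h : CC γ) {p : ℂ} (hp : ∀ t, γ t ≠ p) : ∃ n : ℤ, wn γ p = n := by
  have hc := cc_int h hp
  have hL : ∀ t, HasDerivAt (fun s : ℝ => ∫ x in (0 : ℝ)..s, deriv γ x / (γ x - p)) (deriv γ t / (γ t - p)) t := fun t =>
    intervalIntegral.integral_hasDerivAt_right (hc.intervalIntegrable _ _) (hc.stronglyMeasurableAtFilter _ _)
      hc.continuousAt
  have hg : ∀ t, HasDerivAt (fun s : ℝ => (γ s - p) * Complex.exp (-∫ x in (0 : ℝ)..s, deriv γ x / (γ x - p))) 0 t := by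
    intro t
    have h1 := ((cc_hd h t).sub_const p).mul ((hL t).neg.cexp)
    refine h1.congr_deriv ?_
    have h2 : γ t - p ≠ 0 := sub_ne_zero.2 (hp t)
    field_simp
    ring
  have h0 := is_const_of_deriv_eq_zero (fun t => (hg t).differentiableAt) (fun t => (hg t).deriv) 1 0
  simp only [intervalIntegral.integral_same, neg_zero, Complex.exp_zero, mul_one] at h0
  rw [cc_one h] at h0
  have h1 : Complex.exp (-∫ x in (0 : ℝ)..1, deriv γ x / (γ x - p)) = 1 :=
    mul_left_cancel₀ (sub_ne_zero.2 (hp 0)) (h0.trans (mul_one _).symm)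
  obtain ⟨n, hn⟩ := Complex.exp_eq_one_iff.1 h1
  refine ⟨-n, ?_⟩
  unfold wn
  rw [show (∫ x in (0 : ℝ)..1, deriv γ x / (γ x - p)) = -(n * (2 * Real.pi * Complex.I)) by rw [← hn, neg_neg]]
  have h3 : (2 * Real.pi * Complex.I : ℂ) ≠ 0 := by simp [Real.pi_ne_zero]
  field_simp
  push_cast
  ring

theorem wn_cont {γ : ℝ → ℂ} (h : CC γ) : ContinuousOn (wn γ) (range γ)ᶜ := by
  intro x hx
  obtain ⟨m, hm, hm'⟩ := cc_min h fun t ht => hx ⟨t, ht⟩
  refine ContinuousAt.continuousWithinAt ?_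
  have h1 : ∀ᶠ y in 𝓝 x, wn γ y = wn γ x := by
    filter_upwards [ball_mem_nhds x hm] with y hy
    refine (wn_loc h fun t => ?_).symm
    rw [norm_sub_rev]
    exact (mem_ball_iff_norm.1 hy).trans_le (hm' t)
  exact (continuousAt_const (y := wn γ x)).congr (h1.mono fun y hy => hy.symm)

theorem wn_const {γ : ℝ → ℂ} (h : CC γ) {A : Set ℂ} (hA : IsPreconnected A) (hd : ∀ p ∈ A, ∀ t, γ t ≠ p) {p q : ℂ}
    (hp : p ∈ A) (hq : q ∈ A) : wn γ p = wn γ q := by
  refine hA.induction₂ (fun x y => wn γ x = wn γ y) ?_ (fun x y z _ _ _ h1 h2 => h1.trans h2)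
    (fun x y _ _ h1 => h1.symm) hp hq
  intro x hx
  obtain ⟨m, hm, hm'⟩ := cc_min h (hd x hx)
  have h1 : ∀ᶠ y in 𝓝[A] x, ‖y - x‖ < m := by
    filter_upwards [nhdsWithin_le_nhds (ball_mem_nhds x hm)] with y hy
    exact mem_ball_iff_norm.1 hy
  filter_upwards [h1] with y hy
  refine wn_loc h fun t => ?_
  rw [norm_sub_rev]
  exact hy.trans_le (hm' t)

theorem wn_far {γ : ℝ → ℂ} (h : CC γ) {p : ℂ} (hp : ∀ t, ‖γ t‖ < ‖p‖) : wn γ p = 0 := by
  have hp0 : p ≠ 0 := by
    rintro rfl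
    have h2 := hp 0
    rw [norm_zero] at h2
    exact absurd h2 (not_lt.2 (norm_nonneg _))
  have h1 : ∀ t, γ t ≠ p := by
    intro t h0
    have h2 := hp t
    rw [h0] at h2
    exact lt_irrefl _ h2
  have hs : ∀ t, 1 - γ t / p ∈ Complex.slitPlane := by
    intro t
    rw [sub_eq_add_neg]
    refine Complex.mem_slitPlane_of_norm_lt_one ?_
    rw [norm_neg, norm_div, div_lt_one (norm_pos_iff.2 hp0)]
    exact hp t
  have hd : ∀ t, HasDerivAt (fun t => Complex.log (1 - γ t / p)) (deriv γ t / (γ t - p)) t := by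
    intro t
    have h3' : γ t - p ≠ 0 := sub_ne_zero.2 (h1 t)
    have h4 := (((cc_hd h t).div_const p).const_sub 1).clog_real (hs t)
    refine h4.congr_deriv ?_
    have h6 : 1 - γ t / p = -(γ t - p) / p := by
      field_simp
      ring
    rw [h6]
    field_simp
  have h5 := intervalIntegral.integral_eq_sub_of_hasDerivAt (a := (0 : ℝ)) (b := 1) (fun t _ => hd t)
    ((cc_int h h1).intervalIntegrable _ _)
  unfold wn
  rw [h5, cc_one h, sub_self, mul_zero]

theorem wn_near {γ : ℝ → ℂ} (h : CC γ) {p : ℂ} (hp : ∀ t, ‖p‖ < ‖γ t‖) : wn γ p = wn γ 0 :=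
  (wn_loc h fun t => by
    rw [zero_sub, norm_neg, sub_zero]
    exact hp t).symm

/-- the curve `exp (2 π i π(t))` -/
theorem wn_exp {q : ℝ → ℂ} (hq : ContDiff ℝ 1 q) {n : ℤ} (hn : ∀ t, q (t + 1) = q t + n) :
    CC (fun t => Complex.exp (2 * Real.pi * Complex.I * q t)) ∧
      wn (fun t => Complex.exp (2 * Real.pi * Complex.I * q t)) 0 = n := by
  have hc : CC (fun t => Complex.exp (2 * Real.pi * Complex.I * q t)) := by
    refine ⟨(contDiff_const.mul hq).cexp, fun t => ?_⟩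
    show Complex.exp (2 * Real.pi * Complex.I * q (t + 1)) = Complex.exp (2 * Real.pi * Complex.I * q t)
    rw [hn, mul_add, Complex.exp_add, show 2 * Real.pi * Complex.I * (n : ℂ) = n * (2 * Real.pi * Complex.I) by ring,
      Complex.exp_int_mul_two_pi_mul_I, mul_one]
  refine ⟨hc, ?_⟩
  have h1 := wn_lift (p := 0) (g := fun t => 2 * Real.pi * Complex.I * q t) hc (fun t => Complex.exp_ne_zero _)
    (fun t _ => ((contDiff_const.mul hq).differentiable one_ne_zero) t) (fun t => (sub_zero _).symm)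
  have h2 : q 1 = q 0 + n := by
    have := hn 0
    rwa [zero_add] at this
  have h3 : (2 * Real.pi * Complex.I : ℂ) ≠ 0 := by simp [Real.pi_ne_zero]
  rw [h1, h2]
  field_simp
  ring

/-- the function along a vertical line is smooth -/
theorem line_smooth {a b l : ℝ} (ha : a < l) (hb : l < b) {K : ℂ → ℂ} (hK : DifferentiableOn ℂ K (St a b)) :
    ContDiff ℝ 1 (fun y : ℝ => K (l + 2 * Real.pi * Complex.I * y)) := by
  have ho : IsOpen (St a b) :=
    (isOpen_lt continuous_const Complex.continuous_re).inter (isOpen_lt Complex.continuous_re continuous_const)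
  rw [contDiff_iff_contDiffAt]
  intro y
  have hm : (l + 2 * Real.pi * Complex.I * y : ℂ) ∈ St a b := by
    have h1 : (l + 2 * Real.pi * Complex.I * y : ℂ).re = l := by
      simp
    exact ⟨by rw [h1]; exact ha, by rw [h1]; exact hb⟩
  have h1 : ContDiffAt ℝ 1 K (l + 2 * Real.pi * Complex.I * y : ℂ) :=
    ((hK.analyticAt (ho.mem_nhds hm)).contDiffAt).restrict_scalars ℝ
  have h2 : ContDiffAt ℝ 1 (fun y : ℝ => (l + 2 * Real.pi * Complex.I * y : ℂ)) y := by
    have h3 : ContDiff ℝ 1 (fun y : ℝ => (y : ℂ)) := Complex.ofRealCLM.contDiff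
    exact (contDiff_const.add (contDiff_const.mul h3)).contDiffAt
  exact h1.comp y h2

/-- vertical lines in a strip -/
theorem cc_line {a b l : ℝ} (ha : a < l) (hb : l < b) {E : ℂ → ℂ} (hE : DifferentiableOn ℂ E (St a b))
    (hper : ∀ t ∈ St a b, E (t + 2 * Real.pi * Complex.I) = E t) :
    CC (fun y : ℝ => E (l + 2 * Real.pi * Complex.I * y)) := by
  refine ⟨line_smooth ha hb hE, fun y => ?_⟩
  have h1 : (l + 2 * Real.pi * Complex.I * y : ℂ).re = l := by
    simp
  refine Eq.trans (congrArg E ?_) (hper (l + 2 * Real.pi * Complex.I * y) ⟨by rw [h1]; exact ha, by rw [h1]; exact hb⟩)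
  push_cast
  ring

end Pool.Agent.H66.GEO
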