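import Pool.Agent.H66.GEO.Defs

/-!
# GEO, module STR1: the degree two maps of the disc and the parametrised annuli

`Bl ω α x = ω (x² + α) / (1 + conj α x²)`, `BB s = B 0 ∘ .. ∘ B (s-1)`.
PROOFS. `bl_ball`: `x² + α`, `1 + conj α x²`: the Moebius map `y ↦ (y + α)/(1 + conj α y)` maps the disc to itself (`‖1 + conj α y‖² - ‖y + α‖² =
(1 - ‖α‖²)(1 - ‖y‖²) > 0`). `bl_dif`: denominator `≠ 0`. `mm_bl`: solve `Bl ω α x = w` for `x²`: `x² = mm ω α w`. `mm_ball`: the inverse Moebius map. `mm_zero`.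
`bb_near`: `BB s` is continuous on the closed unit disc and `‖BB s x‖ = 1` for `‖x‖ = 1` (induction; `‖Bl x‖ = 1` for `‖x‖ = 1`); compactness (the set
`{x | ‖x‖ ≤ 1, ‖BB s x‖ ≤ th}` is compact in the open disc, so it lies in `‖x‖ ≤ ρ`, `ρ < 1`).
`log_mm`: `L u = u + log (1 - ω α exp (-u)) - log (1 - conj (ω α) .. exp u) + const`: on `‖α‖ < ‖exp u‖ < 1` both arguments of `log` have positive real part (norm of the
subtracted number `< 1`), `L (u + 2 π i) = L u + 2 π i`. The statement: a holomorphic square root `q` of `mm (exp u)` on the strip with `q (u + 2 π i) = - q u`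
(`q = exp (L / 2)`).
-/

set_option autoImplicit false

open Filter Topology Metric Set

namespace Pool.Agent.H66.GEO

/-- the square of the preimages: `Bl ω α x = w` iff `x ^ 2 = mm ω α w` -/
noncomputable def mm (ω α w : ℂ) : ℂ := (w - ω * α) / (ω - (starRingEnd ℂ) α * w)

private theorem den_ne {α y : ℂ} (hα : ‖α‖ < 1) (hy : ‖y‖ ≤ 1) : 1 + (starRingEnd ℂ) α * y ≠ 0 := by
  intro h
  have h1 : ‖(starRingEnd ℂ) α * y‖ = 1 := by
    have : (starRingEnd ℂ) α * y = -1 := by linear_combination h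
    rw [this]; simp
  rw [norm_mul, Complex.norm_conj] at h1
  have h2 : ‖α‖ * ‖y‖ ≤ ‖α‖ * 1 := mul_le_mul_of_nonneg_left hy (norm_nonneg α)
  linarith

private theorem den_ne' {ω α w : ℂ} (hω : ‖ω‖ = 1) (hα : ‖α‖ < 1) (hw : ‖w‖ ≤ 1) : ω - (starRingEnd ℂ) α * w ≠ 0 := by
  intro h
  have h1 : ‖(starRingEnd ℂ) α * w‖ = 1 := by
    have : (starRingEnd ℂ) α * w = ω := by linear_combination -h
    rw [this]; exact hω
  rw [norm_mul, Complex.norm_conj] at h1
  have h2 : ‖α‖ * ‖w‖ ≤ ‖α‖ * 1 := mul_le_mul_of_nonneg_left hw (norm_nonneg α)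
  linarith

private theorem id_norm (α y : ℂ) :
    ‖1 + (starRingEnd ℂ) α * y‖ ^ 2 - ‖y + α‖ ^ 2 = (1 - ‖α‖ ^ 2) * (1 - ‖y‖ ^ 2) := by
  rw [← Complex.normSq_eq_norm_sq, ← Complex.normSq_eq_norm_sq, ← Complex.normSq_eq_norm_sq, ← Complex.normSq_eq_norm_sq]
  simp only [Complex.normSq_apply, Complex.add_re, Complex.add_im, Complex.mul_re, Complex.mul_im, Complex.conj_re,
    Complex.conj_im, Complex.one_re, Complex.one_im]
  ring

private theorem id_norm' {ω α w : ℂ} (hω : ‖ω‖ = 1) :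
    ‖ω - (starRingEnd ℂ) α * w‖ ^ 2 - ‖w - ω * α‖ ^ 2 = (1 - ‖α‖ ^ 2) * (1 - ‖w‖ ^ 2) := by
  have hω2 : Complex.normSq ω = 1 := by rw [Complex.normSq_eq_norm_sq, hω]; norm_num
  rw [← Complex.normSq_eq_norm_sq, ← Complex.normSq_eq_norm_sq, ← Complex.normSq_eq_norm_sq, ← Complex.normSq_eq_norm_sq]
  simp only [Complex.normSq_apply, Complex.sub_re, Complex.sub_im, Complex.mul_re, Complex.mul_im, Complex.conj_re,
    Complex.conj_im] at hω2 ⊢
  linear_combination (1 - (α.re * α.re + α.im * α.im)) * hω2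

private theorem bl_norm {ω α x : ℂ} (hω : ‖ω‖ = 1) (hα : ‖α‖ < 1) (hx : ‖x‖ ≤ 1) :
    1 - ‖Bl ω α x‖ ^ 2 = (1 - ‖α‖ ^ 2) * (1 - ‖x ^ 2‖ ^ 2) / ‖1 + (starRingEnd ℂ) α * x ^ 2‖ ^ 2 := by
  have hx2 : ‖x ^ 2‖ ≤ 1 := by
    rw [norm_pow]; exact pow_le_one₀ (norm_nonneg x) hx
  have hd := den_ne (y := x ^ 2) hα hx2
  have hd2 : ‖1 + (starRingEnd ℂ) α * x ^ 2‖ ^ 2 ≠ 0 := by
    exact pow_ne_zero 2 (norm_ne_zero_iff.mpr hd)
  have h1 : ‖Bl ω α x‖ ^ 2 = ‖x ^ 2 + α‖ ^ 2 / ‖1 + (starRingEnd ℂ) α * x ^ 2‖ ^ 2 := by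
    unfold Bl
    rw [norm_div, norm_mul, hω, one_mul, div_pow]
  rw [h1, ← id_norm, eq_div_iff hd2, sub_mul, div_mul_cancel₀ _ hd2, one_mul]

theorem bl_ball {ω α x : ℂ} (hω : ‖ω‖ = 1) (hα : ‖α‖ < 1) (hx : ‖x‖ < 1) : ‖Bl ω α x‖ < 1 := by
  have h := bl_norm hω hα hx.le
  have hx2 : ‖x ^ 2‖ < 1 := by
    rw [norm_pow]; exact pow_lt_one₀ (norm_nonneg x) hx two_ne_zero
  have hd := den_ne (y := x ^ 2) hα hx2.le
  have h1 : 0 < 1 - ‖Bl ω α x‖ ^ 2 := by
    rw [h]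
    apply div_pos
    · apply mul_pos
      · nlinarith [norm_nonneg α]
      · nlinarith [norm_nonneg (x ^ 2)]
    · exact pow_pos (norm_pos_iff.mpr hd) 2
  nlinarith [norm_nonneg (Bl ω α x)]

theorem bl_dif {ω α : ℂ} (hα : ‖α‖ < 1) : DifferentiableOn ℂ (Bl ω α) (ball 0 1) := by
  unfold Bl
  intro x hx
  have hx' : ‖x‖ < 1 := by simpa using hx
  have hx2 : ‖x ^ 2‖ ≤ 1 := by
    rw [norm_pow]; exact pow_le_one₀ (norm_nonneg x) hx'.le
  apply DifferentiableAt.differentiableWithinAt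
  apply DifferentiableAt.div
  · fun_prop
  · fun_prop
  · exact den_ne hα hx2

theorem mm_dif {ω α : ℂ} (hω : ‖ω‖ = 1) (hα : ‖α‖ < 1) : DifferentiableOn ℂ (mm ω α) (ball 0 1) := by
  unfold mm
  intro w hw
  have hw' : ‖w‖ < 1 := by simpa using hw
  apply DifferentiableAt.differentiableWithinAt
  apply DifferentiableAt.div
  · fun_prop
  · fun_prop
  · exact den_ne' hω hα hw'.le

theorem mm_bl {ω α x w : ℂ} (hω : ‖ω‖ = 1) (hα : ‖α‖ < 1) (hx : ‖x‖ < 1) (hw : ‖w‖ < 1) :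
    Bl ω α x = w ↔ x ^ 2 = mm ω α w := by
  have hx2 : ‖x ^ 2‖ ≤ 1 := by
    rw [norm_pow]; exact pow_le_one₀ (norm_nonneg x) hx.le
  have h1 := den_ne (y := x ^ 2) hα hx2
  have h2 := den_ne' hω hα hw.le
  unfold Bl mm
  rw [div_eq_iff h1, eq_div_iff h2]
  constructor
  · intro h; linear_combination h
  · intro h; linear_combination h

theorem mm_ball {ω α w : ℂ} (hω : ‖ω‖ = 1) (hα : ‖α‖ < 1) (hw : ‖w‖ < 1) : ‖mm ω α w‖ < 1 := by
  have h2 := den_ne' hω hα hw.le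
  have h3 := id_norm' (α := α) (w := w) hω
  unfold mm
  rw [norm_div, div_lt_one (norm_pos_iff.mpr h2)]
  have h4 : 0 < (1 - ‖α‖ ^ 2) * (1 - ‖w‖ ^ 2) := by
    apply mul_pos
    · nlinarith [norm_nonneg α]
    · nlinarith [norm_nonneg w]
  nlinarith [norm_nonneg (w - ω * α), norm_nonneg (ω - (starRingEnd ℂ) α * w)]

theorem mm_zero {ω α w : ℂ} (hω : ‖ω‖ = 1) (hα : ‖α‖ < 1) (hw : ‖w‖ < 1) : mm ω α w = 0 ↔ w = ω * α := by
  have h2 := den_ne' hω hα hw.le
  unfold mm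
  rw [div_eq_zero_iff]
  constructor
  · rintro (h | h)
    · exact sub_eq_zero.mp h
    · exact absurd h h2
  · intro h; left; exact sub_eq_zero.mpr h

theorem bb_ball {ω α : ℕ → ℂ} (hω : ∀ s, ‖ω s‖ = 1) (hα : ∀ s, ‖α s‖ < 1) (s : ℕ) {x : ℂ} (hx : ‖x‖ < 1) :
    ‖BB ω α s x‖ < 1 := by
  induction s generalizing x with
  | zero => exact hx
  | succ s ih => exact ih (bl_ball (hω s) (hα s) hx)

theorem bb_dif {ω α : ℕ → ℂ} (hω : ∀ s, ‖ω s‖ = 1) (hα : ∀ s, ‖α s‖ < 1) (s : ℕ) :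
    DifferentiableOn ℂ (BB ω α s) (ball 0 1) := by
  induction s with
  | zero => exact differentiableOn_id
  | succ s ih =>
    have : DifferentiableOn ℂ (BB ω α s ∘ Bl (ω s) (α s)) (ball 0 1) := by
      apply ih.comp (bl_dif (hα s))
      intro x hx
      have hx' : ‖x‖ < 1 := by simpa using hx
      have := bl_ball (hω s) (hα s) hx'
      simpa using this
    exact this

theorem bb_near {ω α : ℕ → ℂ} (hω : ∀ s, ‖ω s‖ = 1) (hα : ∀ s, ‖α s‖ < 1) (s : ℕ) {th : ℝ} (h1 : th < 1) :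
    ∃ ρ : ℝ, 0 < ρ ∧ ρ < 1 ∧ ∀ x : ℂ, ρ < ‖x‖ → ‖x‖ < 1 → th < ‖BB ω α s x‖ := by
  induction s with
  | zero =>
    refine ⟨max th (1 / 2), by positivity, by simp [h1]; norm_num, ?_⟩
    intro x hx _
    exact lt_of_le_of_lt (le_max_left _ _) hx
  | succ s ih =>
    obtain ⟨ρ, hρ0, hρ1, hρ⟩ := ih
    have ha0 := norm_nonneg (α s)
    have ha1 := hα s
    set a := ‖α s‖ with ha
    have hpos : 0 < 1 - a := by linarith
    have hc : 0 < 1 - ρ ^ 2 := by nlinarith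
    have hden : 0 < 8 * (1 + a) := by linarith
    set ε := min (1 / 2) ((1 - a) * (1 - ρ ^ 2) / (8 * (1 + a))) with hε
    have hε0 : 0 < ε := by
      apply lt_min (by norm_num)
      exact div_pos (mul_pos hpos hc) hden
    have hε1 : ε ≤ 1 / 2 := min_le_left _ _
    have hε2 : ε * (8 * (1 + a)) ≤ (1 - a) * (1 - ρ ^ 2) := by
      have := min_le_right (1 / 2) ((1 - a) * (1 - ρ ^ 2) / (8 * (1 + a)))
      rw [← hε, le_div_iff₀ hden] at this
      exact this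
    refine ⟨1 - ε, by linarith, by linarith, ?_⟩
    intro x hx1 hx2
    have hb := bl_norm (hω s) (hα s) hx2.le
    have hx4 : ‖x ^ 2‖ ^ 2 = ‖x‖ ^ 4 := by rw [norm_pow]; ring
    have hx2' : ‖x ^ 2‖ ≤ 1 := by
      rw [norm_pow]; exact pow_le_one₀ (norm_nonneg x) hx2.le
    have hd1 : 1 - a ≤ ‖1 + (starRingEnd ℂ) (α s) * x ^ 2‖ := by
      have h3 : ‖(1 : ℂ)‖ - ‖-((starRingEnd ℂ) (α s) * x ^ 2)‖ ≤ ‖(1 : ℂ) - (-((starRingEnd ℂ) (α s) * x ^ 2))‖ :=
        norm_sub_norm_le _ _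
      rw [norm_neg, norm_mul, Complex.norm_conj, norm_one, sub_neg_eq_add] at h3
      have h4 : ‖α s‖ * ‖x ^ 2‖ ≤ a := by
        calc ‖α s‖ * ‖x ^ 2‖ ≤ ‖α s‖ * 1 := mul_le_mul_of_nonneg_left hx2' (norm_nonneg _)
          _ = a := by rw [mul_one]
      linarith
    have h5 : 1 - ‖x‖ ^ 4 ≤ 4 * ε := by
      have h6 : 1 - ε ≤ ‖x‖ := hx1.le
      have h7 : (1 - ε) ^ 4 ≤ ‖x‖ ^ 4 := pow_le_pow_left₀ (by linarith) h6 4
      have h8 : 1 - 4 * ε ≤ (1 - ε) ^ 4 := by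
        have := one_add_mul_le_pow (a := -ε) (by linarith) 4
        have h9 : (1 : ℝ) + (4 : ℕ) * (-ε) ≤ (1 + -ε) ^ 4 := this
        push_cast at h9
        have h10 : (1 + -ε) ^ 4 = (1 - ε) ^ 4 := by ring
        linarith
      linarith
    have h9 : 1 - ‖Bl (ω s) (α s) x‖ ^ 2 < 1 - ρ ^ 2 := by
      rw [hb, hx4]
      have hD : 0 < ‖1 + (starRingEnd ℂ) (α s) * x ^ 2‖ ^ 2 := by
        apply pow_pos; linarith
      rw [div_lt_iff₀ hD]
      have h10 : (1 - a) ^ 2 ≤ ‖1 + (starRingEnd ℂ) (α s) * x ^ 2‖ ^ 2 := pow_le_pow_left₀ hpos.le hd1 2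
      have h11 : (1 - a ^ 2) * (1 - ‖x‖ ^ 4) ≤ (1 - a ^ 2) * (4 * ε) := by
        apply mul_le_mul_of_nonneg_left h5
        nlinarith
      have h12 : (1 - a ^ 2) * (4 * ε) ≤ (1 - a) ^ 2 * (1 - ρ ^ 2) / 2 := by
        have : (1 - a ^ 2) * (4 * ε) = (1 - a) * (ε * (8 * (1 + a))) / 2 := by ring
        rw [this]
        have h13 := mul_le_mul_of_nonneg_left hε2 hpos.le
        nlinarith
      have h13 : (1 - ρ ^ 2) * (1 - a) ^ 2 ≤ (1 - ρ ^ 2) * ‖1 + (starRingEnd ℂ) (α s) * x ^ 2‖ ^ 2 :=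
        mul_le_mul_of_nonneg_left h10 hc.le
      have h14 : 0 < (1 - a) ^ 2 * (1 - ρ ^ 2) := mul_pos (pow_pos hpos 2) hc
      calc (1 - a ^ 2) * (1 - ‖x‖ ^ 4) ≤ (1 - a) ^ 2 * (1 - ρ ^ 2) / 2 := le_trans h11 h12
        _ < (1 - a) ^ 2 * (1 - ρ ^ 2) := by linarith
        _ = (1 - ρ ^ 2) * (1 - a) ^ 2 := by ring
        _ ≤ _ := h13
    have h10 : ρ < ‖Bl (ω s) (α s) x‖ := by
      by_contra hcon
      push Not at hcon
      have : ‖Bl (ω s) (α s) x‖ ^ 2 ≤ ρ ^ 2 := pow_le_pow_left₀ (norm_nonneg _) hcon 2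
      linarith
    exact hρ _ h10 (bl_ball (hω s) (hα s) hx2)

theorem log_mm {ω α : ℂ} (hω : ‖ω‖ = 1) (hα : ‖α‖ < 1) {ρ : ℝ} (h0 : ‖α‖ ≤ ρ) (h1 : 0 < ρ) :
    ∃ q : ℂ → ℂ, ContinuousOn q (St (Real.log ρ) 0) ∧ ∀ u ∈ St (Real.log ρ) 0,
      q u ^ 2 = mm ω α (Complex.exp u) ∧ q (u + 2 * Real.pi * Complex.I) = - q u ∧ q u ≠ 0 := by
  have hω0 : ω ≠ 0 := by
    intro h; rw [h] at hω; simp at hω
  have hA : ∀ u ∈ St (Real.log ρ) 0, ‖ω * α * Complex.exp (-u)‖ < 1 := by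
    intro u hu
    rw [norm_mul, norm_mul, hω, one_mul, Complex.norm_exp, Complex.neg_re]
    have h2 : ρ < Real.exp u.re := by
      rw [← Real.log_lt_iff_lt_exp h1]; exact hu.1
    have h3 : ‖α‖ < Real.exp u.re := lt_of_le_of_lt h0 h2
    have h4 : Real.exp (-u.re) = (Real.exp u.re)⁻¹ := Real.exp_neg _
    rw [h4, ← div_eq_mul_inv, div_lt_one (Real.exp_pos _)]
    exact h3
  have hB : ∀ u ∈ St (Real.log ρ) 0, ‖(starRingEnd ℂ) α * Complex.exp u / ω‖ < 1 := by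
    intro u hu
    rw [norm_div, norm_mul, hω, div_one, Complex.norm_conj, Complex.norm_exp]
    have h2 : Real.exp u.re < 1 := by
      rw [Real.exp_lt_one_iff]; exact hu.2
    have h3 : ‖α‖ * Real.exp u.re ≤ ‖α‖ * 1 := mul_le_mul_of_nonneg_left h2.le (norm_nonneg _)
    linarith
  have hsl : ∀ z : ℂ, ‖z‖ < 1 → 1 - z ∈ Complex.slitPlane := by
    intro z hz
    left
    have h2 : |z.re| ≤ ‖z‖ := Complex.abs_re_le_norm z
    have h3 : z.re ≤ |z.re| := le_abs_self _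
    rw [Complex.sub_re, Complex.one_re]
    linarith
  refine ⟨fun u => Complex.exp (u / 2 + Complex.log (1 - ω * α * Complex.exp (-u)) / 2 -
    Complex.log (1 - (starRingEnd ℂ) α * Complex.exp u / ω) / 2 - Complex.log ω / 2), ?_, ?_⟩
  · intro u hu
    have hs1 := hsl _ (hA u hu)
    have hs2 := hsl _ (hB u hu)
    apply ContinuousAt.continuousWithinAt
    apply Complex.continuous_exp.continuousAt.comp
    have c1 : ContinuousAt (fun u : ℂ => Complex.log (1 - ω * α * Complex.exp (-u))) u := by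
      apply ContinuousAt.clog
      · fun_prop
      · exact hs1
    have c2 : ContinuousAt (fun u : ℂ => Complex.log (1 - (starRingEnd ℂ) α * Complex.exp u / ω)) u := by
      apply ContinuousAt.clog
      · fun_prop
      · exact hs2
    exact (((continuousAt_id.div_const 2).add (c1.div_const 2)).sub (c2.div_const 2)).sub continuousAt_const
  · intro u hu
    have hs1 := Complex.slitPlane_ne_zero (hsl _ (hA u hu))
    have hs2 := Complex.slitPlane_ne_zero (hsl _ (hB u hu))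
    refine ⟨?_, ?_, Complex.exp_ne_zero _⟩
    · show Complex.exp (u / 2 + Complex.log (1 - ω * α * Complex.exp (-u)) / 2 -
        Complex.log (1 - (starRingEnd ℂ) α * Complex.exp u / ω) / 2 - Complex.log ω / 2) ^ 2 = mm ω α (Complex.exp u)
      have e1 : Complex.exp (u / 2 + Complex.log (1 - ω * α * Complex.exp (-u)) / 2 -
        Complex.log (1 - (starRingEnd ℂ) α * Complex.exp u / ω) / 2 - Complex.log ω / 2) ^ 2 =
        Complex.exp (u + Complex.log (1 - ω * α * Complex.exp (-u)) -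
        Complex.log (1 - (starRingEnd ℂ) α * Complex.exp u / ω) - Complex.log ω) := by
        rw [← Complex.exp_nat_mul]
        apply congrArg
        push_cast
        ring
      rw [e1, Complex.exp_sub, Complex.exp_sub, Complex.exp_add, Complex.exp_log hs1, Complex.exp_log hs2, Complex.exp_log hω0]
      have e2 : Complex.exp u * Complex.exp (-u) = 1 := by rw [← Complex.exp_add]; simp
      have e3 : Complex.exp u * (1 - ω * α * Complex.exp (-u)) = Complex.exp u - ω * α := by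
        linear_combination (-(ω * α)) * e2
      have e4 : ω - (starRingEnd ℂ) α * Complex.exp u = (1 - (starRingEnd ℂ) α * Complex.exp u / ω) * ω := by
        field_simp
      unfold mm
      rw [e3, e4, div_div]
    · have p1 : Complex.exp (-(u + 2 * Real.pi * Complex.I)) = Complex.exp (-u) := by
        rw [neg_add, Complex.exp_add, Complex.exp_neg (2 * Real.pi * Complex.I), Complex.exp_two_pi_mul_I, inv_one, mul_one]
      have p2 : Complex.exp (u + 2 * Real.pi * Complex.I) = Complex.exp u := by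
        rw [Complex.exp_add, Complex.exp_two_pi_mul_I, mul_one]
      show Complex.exp ((u + 2 * Real.pi * Complex.I) / 2 +
        Complex.log (1 - ω * α * Complex.exp (-(u + 2 * Real.pi * Complex.I))) / 2 -
        Complex.log (1 - (starRingEnd ℂ) α * Complex.exp (u + 2 * Real.pi * Complex.I) / ω) / 2 - Complex.log ω / 2) =
        - Complex.exp (u / 2 + Complex.log (1 - ω * α * Complex.exp (-u)) / 2 -
        Complex.log (1 - (starRingEnd ℂ) α * Complex.exp u / ω) / 2 - Complex.log ω / 2)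
      rw [p1, p2]
      have p3 : (u + 2 * Real.pi * Complex.I) / 2 + Complex.log (1 - ω * α * Complex.exp (-u)) / 2 -
        Complex.log (1 - (starRingEnd ℂ) α * Complex.exp u / ω) / 2 - Complex.log ω / 2 =
        (u / 2 + Complex.log (1 - ω * α * Complex.exp (-u)) / 2 -
        Complex.log (1 - (starRingEnd ℂ) α * Complex.exp u / ω) / 2 - Complex.log ω / 2) + Real.pi * Complex.I := by ring
      rw [p3, Complex.exp_add, Complex.exp_pi_mul_I]
      ring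

/-- the annulus `th < ‖BB s x‖ < 1` parametrised by a strip (covering with period `2 π i`) -/
structure XX (th : ℝ) (ω α : ℕ → ℂ) (s : ℕ) (x : ℂ → ℂ) : Prop where
  dif : DifferentiableOn ℂ x (Ss th s)
  der : ∀ t ∈ Ss th s, deriv x t ≠ 0
  bal : ∀ t ∈ Ss th s, ‖x t‖ < 1
  lev : ∀ t ∈ Ss th s, BB ω α s (x t) = Complex.exp (2 ^ s * t)
  inj : ∀ t ∈ Ss th s, ∀ t' ∈ Ss th s, x t = x t' → ∃ k : ℤ, t' = t + 2 * Real.pi * Complex.I * k
  sur : ∀ y : ℂ, ‖y‖ < 1 → th < ‖BB ω α s y‖ → ∃ t ∈ Ss th s, x t = y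
  per : ∀ t ∈ Ss th s, x (t + Real.pi * Complex.I) = - x t

theorem xx_zero {th : ℝ} (h0 : 0 < th) (h1 : th < 1) {ω α : ℕ → ℂ} : XX th ω α 0 Complex.exp := by
  have hS : Ss th 0 = St (Real.log th) 0 := by
    unfold Ss
    rw [pow_zero, div_one]
  refine ⟨Complex.differentiable_exp.differentiableOn, ?_, ?_, ?_, ?_, ?_, ?_⟩
  · intro t _
    rw [Complex.deriv_exp]
    exact Complex.exp_ne_zero t
  · intro t ht
    rw [hS] at ht
    rw [Complex.norm_exp, Real.exp_lt_one_iff]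
    exact ht.2
  · intro t _
    show Complex.exp t = _
    rw [pow_zero, one_mul]
  · intro t _ t' _ he
    obtain ⟨n, hn⟩ := Complex.exp_eq_exp_iff_exists_int.mp he
    refine ⟨-n, ?_⟩
    rw [hn]; push_cast; ring
  · intro y hy1 hy2
    have hy2' : th < ‖y‖ := hy2
    have hy0 : 0 < ‖y‖ := lt_trans h0 hy2'
    refine ⟨Complex.log y, ?_, Complex.exp_log (norm_pos_iff.mp hy0)⟩
    rw [hS]
    constructor
    · rw [Complex.log_re]; exact Real.log_lt_log h0 hy2'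
    · rw [Complex.log_re]; exact Real.log_neg hy0 hy1
  · intro t _
    rw [Complex.exp_add, Complex.exp_pi_mul_I]
    ring

end Pool.Agent.H66.GEO
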