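import Pool.Agent.H66.GEO.On

/-!
# GEO, module EX2b: the winding numbers of the affine map at the exit point (think 1848, section 5)

PROOF. First half: `nu K l x' = 1` (`nu_above`); the set `ac γ '' (K '' {re = l})` is preconnected (`line_conn`), disjoint from `L`, contains `x'`: `nu_const`.
Second half: on the segment `[K tb, x')` the function `x ↦ nu K l (ac (iv γ) x)` is constant: `ac (iv γ) x = K t`, `t.re = l`, means `x = ac γ (K t)`; for `x = K tb` this is excluded, for `x` in the open segment by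
`I x ∈ Y` (`XI.ins`) and `I x = ψ t` (`on_dis`), `ψ t ∉ Y` (`out`). Near `x'` (below): `ψ` is open at `t'`: `I x = ψ v'`, `v'` near `t'`, so `x = ac γ (K v')`; `I x ∈ Y`, so `v'.re < l` (`out`), so
`nu K l (ac (iv γ) x) = nu K l (K v') = 1` (`nu_in`). So the value at `K tb` is `1`; the set `ac (iv γ) '' L` is preconnected and disjoint from `L`: `nu_const`.
-/

set_option autoImplicit false

open Filter Topology Metric Set

namespace Pool.Agent.H66.GEO

variable {Q : Set ℂ} {Lf : Set ℂ → (ℂ → ℂ) → (ℂ → ℂ) → Prop} {κ l : ℝ} {ψ K : ℂ → ℂ} {Y : Set ℂ} {g : ℂ} {ρ : ℝ} {I : ℂ → ℂ}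

private theorem ac_cont (γ : ℝ × ℂ) : Continuous (ac γ) := by
  unfold ac
  fun_prop

/-- `ac γ '' L` off `L`: the winding number is constant on it -/
private theorem nu_img (h : ON Q Lf κ l ψ K Y g ρ I) {γ : ℝ × ℂ} (hd : ∀ t1 t2 : ℂ, t1.re = l → t2.re = l → ac γ (K t1) ≠ K t2)
    {t t' : ℂ} (ht : t.re = l) (ht' : t'.re = l) : nu K l (ac γ (K t)) = nu K l (ac γ (K t')) := by
  refine nu_const (on_wk h) h.h1 h.h2 ((line_conn (on_wk h) h.h1 h.h2).image (ac γ) (ac_cont γ).continuousOn) ?_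
    (mem_image_of_mem _ (mem_image_of_mem _ ht)) (mem_image_of_mem _ (mem_image_of_mem _ ht'))
  rintro _ ⟨_, ⟨t1, h1, rfl⟩, rfl⟩ t2 h2 he
  exact hd t1 t2 h1 h2 he.symm

/-- `ψ` is open at `t'` and `I` is continuous at `x'` -/
private theorem near (h : ON Q Lf κ l ψ K Y g ρ I) {tb t' x' : ℂ} (hx : XI l ψ K Y g ρ I tb t' x') {ε : ℝ} (hε : 0 < ε) :
    ∀ᶠ x in 𝓝 x', ∃ v ∈ St κ 0, ‖v - t'‖ < ε ∧ ψ v = I x := by
  have hm : t' ∈ St κ 0 := ⟨by rw [hx.e]; exact h.h1, by rw [hx.e]; exact h.h2⟩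
  have h0 : map ψ (𝓝 t') = 𝓝 (ψ t') := by
    have h1 : HasStrictDerivAt ψ (deriv ψ t') t' :=
      ((h.ls.dH h.lf).1.analyticAt ((st_open κ 0).mem_nhds hm)).hasStrictDerivAt
    exact h1.map_nhds_eq ((h.ls.dH h.lf).2 t' hm).2
  have e1 : ∀ᶠ z in 𝓝 (ψ t'), ∃ v ∈ St κ 0, ‖v - t'‖ < ε ∧ ψ v = z := by
    rw [← h0, eventually_map]
    filter_upwards [ball_mem_nhds t' hε, (st_open κ 0).mem_nhds hm] with v v1 v2
    rw [mem_ball, dist_eq_norm] at v1
    exact ⟨v, v2, v1, rfl⟩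
  have e4 : Tendsto I (𝓝 x') (𝓝 (ψ t')) := by
    rw [← hx.hx]
    exact ((h.ls.dH h.li).1.differentiableAt (isOpen_ball.mem_nhds hx.mx)).continuousAt
  exact e4.eventually e1

theorem ex2b (h : ON Q Lf κ l ψ K Y g ρ I) {tb t' x' : ℂ} (hx : XI l ψ K Y g ρ I tb t' x') {γ : ℝ × ℂ} (hγ : γ ∈ LO Lf (St κ 0) ψ K)
    (hg1 : γ.1 = 1 ∨ γ.1 = -1) (hg2 : x' = ac γ (K t'))
    (hg3 : ∃ ε : ℝ, 0 < ε ∧ ∀ v v' : ℂ, ‖v - x'‖ < ε → ‖v' - t'‖ < ε → I v = ψ v' → v = ac γ (K v'))
    (hg4 : ∀ t1 t2 : ℂ, t1.re = l → t2.re = l → ac γ (K t1) ≠ K t2) :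
    (∀ t : ℂ, t.re = l → nu K l (ac γ (K t)) = 1) ∧ ∀ t : ℂ, t.re = l → nu K l (ac (iv γ) (K t)) = 1 := by
  have hw := on_wk h
  have h0 : γ.1 ≠ 0 := hγ.1
  constructor
  · intro t ht
    rw [nu_img h hg4 ht hx.e, ← hg2]
    exact nu_above hw h.h1 h.h2 (t := tb) (fun s hs hs' => hx.top s hs (hs'.trans hx.re)) hx.re.symm hx.im
  · have hd' : ∀ t1 t2 : ℂ, t1.re = l → t2.re = l → ac (iv γ) (K t1) ≠ K t2 := by
      intro t1 t2 h1 h2 he
      refine hg4 t2 t1 h2 h1 ?_
      rw [← he, (ac_iv h0 _).2]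
    have key : nu K l (ac (iv γ) (K tb)) = 1 := by
      obtain ⟨ε, hε, hε'⟩ := hg3
      obtain ⟨δ, hδ, hδ'⟩ := Metric.eventually_nhds_iff_ball.1 ((near h hx hε).and (ball_mem_nhds x' hε))
      -- a point slightly below `x'`
      set s : ℝ := min (δ / 2) ((x'.im - (K tb).im) / 2) with hs
      have hs0 : 0 < s := lt_min (half_pos hδ) (half_pos (sub_pos.2 hx.im))
      have hs1 : s ≤ δ / 2 := min_le_left _ _
      have hs2 : s ≤ (x'.im - (K tb).im) / 2 := min_le_right _ _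
      set x : ℂ := x' - s * Complex.I with hxd
      have x1 : x.re = x'.re := by simp [hxd]
      have x2 : x.im = x'.im - s := by simp [hxd]
      have x3 : ‖x - x'‖ = s := by
        rw [hxd, sub_sub_cancel_left, norm_neg, norm_mul, Complex.norm_real, Complex.norm_I, mul_one, Real.norm_eq_abs,
          abs_of_pos hs0]
      obtain ⟨⟨v, v1, v2, v3⟩, v4⟩ := hδ' x (by rw [mem_ball, dist_eq_norm, x3]; linarith)
      have v4' : ‖x - x'‖ < ε := by rw [← dist_eq_norm]; exact v4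
      have hIY : I x ∈ Y := hx.ins x x1 (by rw [x2]; linarith [hx.im]) (by rw [x2]; linarith)
      have v5 : x = ac γ (K v) := hε' x v v4' v2 v3.symm
      have v6 : v.re < l := by
        by_contra hn
        exact h.out v (not_lt.1 hn) v1.2 (v3 ▸ hIY)
      have hval : nu K l (ac (iv γ) x) = 1 := by
        rw [v5, (ac_iv h0 _).1]
        exact nu_in hw h.h1 h.h2 v1.1 v6
      -- the half open segment
      set S : Set ℂ := {z | z.re = x'.re} ∩ ({z | (K tb).im ≤ z.im} ∩ {z | z.im < x'.im}) with hS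
      have hSc : Convex ℝ S := (convex_hyperplane (Complex.reLm.isLinear) x'.re).inter
        ((convex_halfSpace_im_ge _).inter (convex_halfSpace_im_lt _))
      have hSb : ∀ z ∈ S, z ∈ ball g (3 * ρ) := by
        rintro z ⟨z1, z2, z3⟩
        rw [mem_ofPred_eq] at z1 z2 z3
        have hpos : 0 < x'.im - (K tb).im := sub_pos.2 hx.im
        have q1 : 0 ≤ (x'.im - z.im) / (x'.im - (K tb).im) := div_nonneg (by linarith) hpos.le
        have q2 : 0 ≤ (z.im - (K tb).im) / (x'.im - (K tb).im) := div_nonneg (by linarith) hpos.le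
        have hc := convex_ball g (3 * ρ) hx.mb hx.mx q1 q2 (by field_simp; ring)
        convert hc using 1
        apply Complex.ext
        · simp only [Complex.add_re, Complex.real_smul, Complex.re_ofReal_mul, z1, hx.re]
          field_simp
          ring
        · simp only [Complex.add_im, Complex.real_smul, Complex.im_ofReal_mul]
          field_simp
          ring
      rw [← hval]
      refine nu_const hw h.h1 h.h2 (hSc.isPreconnected.image (ac (iv γ)) (ac_cont _).continuousOn) ?_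
        (mem_image_of_mem _ (show K tb ∈ S from ⟨hx.re, by rw [mem_ofPred_eq], hx.im⟩))
        (mem_image_of_mem _ (show x ∈ S from ⟨x1, by rw [mem_ofPred_eq, x2]; linarith [hx.im], by rw [mem_ofPred_eq, x2]; linarith⟩))
      rintro _ ⟨z, hz, rfl⟩ t ht he
      have hz1 : z = ac γ (K t) := by rw [he, (ac_iv h0 _).2]
      have hzb := hSb z hz
      obtain ⟨z1, z2, z3⟩ := hz
      rw [mem_ofPred_eq] at z1 z2 z3
      have htm : t ∈ St κ 0 := ⟨by rw [ht]; exact h.h1, by rw [ht]; exact h.h2⟩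
      rcases z2.eq_or_lt with z4 | z4
      · have z5 : z = K tb := Complex.ext (by rw [z1, hx.re]) z4.symm
        exact hg4 t tb ht hx.b (by rw [← hz1, z5])
      · have z6 := hx.ins z z1 z4 z3
        rw [on_dis h hγ hzb htm hz1] at z6
        exact h.out t ht.ge htm.2 z6
    intro t ht
    rw [nu_img h hd' ht hx.b, key]

end Pool.Agent.H66.GEO
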