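import Pool.Agent.H66.GEO.EX2a
import Pool.Agent.H66.GEO.EX2b

/-!
# GEO, module EX2: the affine map at the exit point (think 1848, section 5)

PROOF of `ex2a`. `loop2` for the lifts `id` of `I` (on the ball) and `K` of `ψ`, linked at `(K t0, t0)` (`lk`), at the pair `(x', t')` (`XI.hx`): `γ ∈ LO Lf (ball ..) I id = LO Lf (St κ 0) ψ K` (`on_lo`),
`x' = ac γ (K t')`, and `v = ac γ (K v')` for `v` near `x'`, `v'` near `t'` with `I v = ψ v'`. `|γ.1| = 1`: `lo_scal` with `t = 1` (`on_one`).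
`dj`: if `ac γ (K t1) = K t2`, `t1.re = t2.re = l`: `γ ∈ GM`, `gm_dis`: `ψ t1 = ψ t2`, `t2 = t1 + 2 π i k`, `K t2 = K t1 + k`; more precisely `LS.dis` for the lifts `ac γ ∘ K` (at `t1`) and `K` (at `t2`): for `v` near `t1`,
`v' = v + 2 π i k` near `t2`: `ac γ (K v) = K v' = K v + k`, so `γ = (1, k)` (`aff_id`). Then `x' = K t' + k = K (t' + 2 π i k) ∈ L` on the line of `x'`, above the highest point `K tb`: contradiction (`XI.top`, `XI.im`).
PROOF of `ex2b`. `n1`: `nu K l x' = 1` (`nu_above`); the set `ac γ '' (K '' {re = l})` is preconnected (`line_conn`), disjoint from `L` (`dj`), contains `x'`: `nu_const`.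
`n2`: on the segment `[K tb, x')` the function `x ↦ nu K l (ac (iv γ) x)` is constant: `ac (iv γ) x = K t`, `t.re = l`, means `x = ac γ (K t)`; for `x = K tb` this is excluded by `dj`, for `x` in the open segment by
`I x ∈ Y` (`XI.ins`) and `I x = ψ t` (`on_dis`), `ψ t ∉ Y` (`out`). Near `x'` (below): `ψ` is open at `t'`: `I x = ψ v'`, `v'` near `t'`, so `x = ac γ (K v')`; `I x ∈ Y`, so `v'.re < l` (`out`), so
`nu K l (ac (iv γ) x) = nu K l (K v') = 1` (`nu_in`). So the value at `K tb` is `1`; the set `ac (iv γ) '' L` is preconnected and disjoint from `L` (`dj`): `nu_const`.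
-/

set_option autoImplicit false

open Filter Topology Metric Set

namespace Pool.Agent.H66.GEO

variable {Q : Set ℂ} {Lf : Set ℂ → (ℂ → ℂ) → (ℂ → ℂ) → Prop} {κ l : ℝ} {ψ K : ℂ → ℂ} {Y : Set ℂ} {g : ℂ} {ρ : ℝ} {I : ℂ → ℂ}

theorem ex2 (h : ON Q Lf κ l ψ K Y g ρ I) {tb t' x' : ℂ} (hx : XI l ψ K Y g ρ I tb t' x') :
    ∃ γ : ℝ × ℂ, EG Lf κ l ψ K t' x' γ := by
  obtain ⟨γ, hγ, hg1, hg2, hg3, hg4⟩ := ex2a h hx
  obtain ⟨h1, h2⟩ := ex2b h hx hγ hg1 hg2 hg3 hg4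
  exact ⟨γ, hγ, hg1, hg2, hg4, h1, h2⟩

end Pool.Agent.H66.GEO
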