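import Pool.Agent.H66.GEO.NU

/-!
# GEO, module EX3: the case `a = 1` (think 1848, section 5)

PROOF. Let `t0` be lowest on the line (`line_low`). If `b.im < 0`: `K t0 + b` is strictly below `L`, so `nu K l (K t0 + b) = 0` (`nu_low`), against `n1`. If `b.im > 0`: `K t0 - b` is strictly below `L`: `nu = 0`, against
`n2`. If `b.im = 0`: `p = K t0 - b` is not on `L` (`hd`: `K t0 - b = K t` means `K t + b = K t0`), so `nu` is constant near `p` (`nu_loc`), and the points just below `p` are strictly below `L`: `nu = 0`; so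
`nu K l p = 0`, against `n2`.
-/

set_option autoImplicit false

open Filter Topology Metric Set

namespace Pool.Agent.H66.GEO

theorem ex3 {κ l : ℝ} {K : ℂ → ℂ} (h : WK κ K) (h1 : κ < l) (h2 : l < 0) {b : ℂ}
    (hd : ∀ t1 t2 : ℂ, t1.re = l → t2.re = l → K t1 + b ≠ K t2) (n1 : ∀ t : ℂ, t.re = l → nu K l (K t + b) = 1)
    (n2 : ∀ t : ℂ, t.re = l → nu K l (K t - b) = 1) : False := by
  obtain ⟨t0, ht0, hlow⟩ := line_low h h1 h2
  have hm1 := n1 t0 ht0
  have hm2 := n2 t0 ht0
  rcases lt_trichotomy b.im 0 with hb | hb | hb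
  · -- `K t0 + b` is below
    have : nu K l (K t0 + b) = 0 := nu_low h h1 h2 fun t ht => by
      have := hlow t ht
      rw [Complex.add_im]
      linarith
    rw [this] at hm1
    exact zero_ne_one hm1
  · -- `K t0 - b` is at the lowest level but not on the curve
    have hoff : ∀ t : ℂ, t.re = l → K t ≠ K t0 - b := by
      intro t ht he
      exact hd t t0 ht ht0 (by rw [he]; ring)
    have hev := nu_loc h h1 h2 hoff
    have hc : Filter.Tendsto (fun ε : ℝ => K t0 - b - (ε : ℂ) * Complex.I) (𝓝[>] 0) (𝓝 (K t0 - b)) := by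
      have h3 : Continuous fun ε : ℝ => K t0 - b - (ε : ℂ) * Complex.I := by fun_prop
      have h4 := h3.tendsto 0
      simp only [Complex.ofReal_zero, zero_mul, sub_zero] at h4
      exact h4.mono_left nhdsWithin_le_nhds
    have h5 : ∀ᶠ ε : ℝ in 𝓝[>] 0, nu K l (K t0 - b - (ε : ℂ) * Complex.I) = nu K l (K t0 - b) := hc.eventually hev
    have h6 : ∀ᶠ ε : ℝ in 𝓝[>] 0, (0 : ℝ) < ε := eventually_mem_nhdsWithin
    obtain ⟨ε, h7, h8⟩ := (h5.and h6).exists
    have h9 : nu K l (K t0 - b - (ε : ℂ) * Complex.I) = 0 := nu_low h h1 h2 fun t ht => by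
      have h10 := hlow t ht
      have h11 : (K t0 - b - (ε : ℂ) * Complex.I).im = (K t0).im - b.im - ε := by simp
      rw [h11]
      linarith
    rw [h9, hm2] at h7
    exact zero_ne_one h7
  · have : nu K l (K t0 - b) = 0 := nu_low h h1 h2 fun t ht => by
      have := hlow t ht
      rw [Complex.sub_im]
      linarith
    rw [this] at hm2
    exact zero_ne_one hm2

end Pool.Agent.H66.GEO
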