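import Pool.Agent.H66.GEO.NU

/-!
# GEO, module EX5: the winding number contradiction (think 1848, section 5, case `a = -1`)

PROOF. Fix `c0 ∈ (c, 0)`, `q y = G' (c0 + 2 π i m y)` (smooth: `line_smooth` composed with `y ↦ m y`; `q (y + 1) = q y + p`), `D y = exp (2 π i q y)`: `CC D` and `wn D 0 = p` (`wn_exp`). Let `n x = wn D (exp (2 π i x))`. On a preconnected set of
`x` with `x ≠ q y + k` for all `y`, `k : ℤ`, `n` is constant (`wn_const`). Let `t0` be lowest on the line (`line_low`), `μ = im K t0`.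
(1) The ray `{b - K t0 + i s | s ≥ 0}`: if `b - K t0 + i s = q y + k`: for `s = 0`: `b - q y = K t0 + k = K (t0 + 2 π i k)`, against `hL`; for `s > 0`: `b - q y = K t0 + k - i s` is strictly below `L`: `nu = 0` (`nu_low`), against `n2`. For
large `s`: `‖exp (2 π i x)‖ < ‖D y‖` for all `y` (`D` periodic, continuous, without zeros): `n x = wn D 0 = p` (`wn_near`). So `n (b - K t0) = p`.
(2) The set `{b - K t | t.re = l} ∪ segment xb x' ∪ {K t | t.re = l}` is preconnected (`line_conn`; `x' = b - K t'`, `xb = K tb`), and it contains no `q y + k`: `hL` (with `K t + k = K (t + 2 π i k)`), `hs`. So `n (K t0) = p`.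
(3) The ray `{K t0 - i s | s ≥ 0}`: `s = 0`: `hL`; `s > 0`: `q y + k = K t0 - i s` is strictly below `L`, `nu K l (q y) = nu K l (q y + k) = 0` (`nu_per`, `nu_low`), against `n1`. For large `s`: `‖D y‖ < ‖exp (2 π i x)‖` for all `y`: `n = 0`
(`wn_far`). So `p = 0`.
-/

set_option autoImplicit false

open Filter Topology Metric Set

namespace Pool.Agent.H66.GEO

private theorem norm_ex (x : ℂ) : ‖Complex.exp (2 * Real.pi * Complex.I * x)‖ = Real.exp (-(2 * Real.pi * x.im)) := by
  rw [Complex.norm_exp]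
  congr 1
  simp

private theorem ex_eq {x z : ℂ} (h : Complex.exp (2 * Real.pi * Complex.I * z) = Complex.exp (2 * Real.pi * Complex.I * x)) :
    ∃ k : ℤ, x = z + k := by
  obtain ⟨k, hk⟩ := Complex.exp_eq_exp_iff_exists_int.1 h.symm
  refine ⟨k, ?_⟩
  have h3 : (2 * Real.pi * Complex.I : ℂ) ≠ 0 := by simp [Real.pi_ne_zero]
  refine mul_left_cancel₀ h3 ?_
  rw [hk]
  ring

theorem ex5 {κ l : ℝ} {K : ℂ → ℂ} (h : WK κ K) (h1 : κ < l) (h2 : l < 0) {b : ℂ} {tb t' x' : ℂ} (hb : tb.re = l)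
    (ht' : t'.re = l) (hx' : x' = b - K t') {c : ℝ} (hc : c < 0) {G' : ℂ → ℂ} (hG : DifferentiableOn ℂ G' (St c 0)) {m p : ℤ}
    (hp : ∀ u ∈ St c 0, G' (u + 2 * Real.pi * Complex.I * m) = G' u + p)
    (n1 : ∀ u ∈ St c 0, nu K l (G' u) = 1) (n2 : ∀ u ∈ St c 0, nu K l (b - G' u) = 1)
    (hL : ∀ u ∈ St c 0, ∀ t : ℂ, t.re = l → G' u ≠ K t ∧ b - G' u ≠ K t)
    (hs : ∀ u ∈ St c 0, ∀ k : ℤ, ∀ y ∈ segment ℝ (K tb) x', G' u + k ≠ y) : p = 0 := by
  -- the curve
  set U : ℝ → ℂ := fun y => ((c / 2 : ℝ) : ℂ) + 2 * Real.pi * Complex.I * ((m * y : ℝ) : ℂ) with hU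
  have hUm : ∀ y, U y ∈ St c 0 := by
    intro y
    have h3 : (U y).re = c / 2 := by
      simp only [hU]
      simp
    exact ⟨by rw [h3]; linarith, by rw [h3]; linarith⟩
  set q : ℝ → ℂ := fun y => G' (U y) with hq
  have hqs : ContDiff ℝ 1 q := by
    have h3 := line_smooth (a := c) (b := 0) (l := c / 2) (by linarith) (by linarith) hG
    have h4 : ContDiff ℝ 1 (fun y : ℝ => (m : ℝ) * y) := contDiff_const.mul contDiff_id
    exact h3.comp h4
  have hq1 : ∀ y, q (y + 1) = q y + p := by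
    intro y
    rw [hq]
    show G' (U (y + 1)) = G' (U y) + p
    rw [← hp (U y) (hUm y)]
    congr 1
    simp only [hU]
    push_cast
    ring
  obtain ⟨hD, hD0⟩ := wn_exp hqs hq1
  set D : ℝ → ℂ := fun t => Complex.exp (2 * Real.pi * Complex.I * q t) with hDdef
  -- constancy
  have key : ∀ A : Set ℂ, IsPreconnected A → (∀ x ∈ A, ∀ (y : ℝ) (k : ℤ), x ≠ q y + k) → ∀ x ∈ A, ∀ x₁ ∈ A,
      wn D (Complex.exp (2 * Real.pi * Complex.I * x)) = wn D (Complex.exp (2 * Real.pi * Complex.I * x₁)) := by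
    intro A hA hno x hx x₁ hx₁
    have hc1 : Continuous (fun x : ℂ => Complex.exp (2 * Real.pi * Complex.I * x)) := by fun_prop
    refine wn_const hD (hA.image _ hc1.continuousOn) ?_ (mem_image_of_mem _ hx) (mem_image_of_mem _ hx₁)
    rintro _ ⟨z, hz, rfl⟩ y he
    obtain ⟨k, hk⟩ := ex_eq he
    exact hno z hz y k hk
  -- exclusions
  have e1 : ∀ (t : ℂ), t.re = l → ∀ (y : ℝ) (k : ℤ), K t ≠ q y + k := by
    intro t ht y k he
    have h3 : K (t + 2 * Real.pi * Complex.I * ((-k : ℤ) : ℂ)) = K t + ((-k : ℤ) : ℂ) :=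
      wk_per h ⟨by rw [ht]; exact h1, by rw [ht]; exact h2⟩ (-k)
    refine (hL (U y) (hUm y) (t + 2 * Real.pi * Complex.I * ((-k : ℤ) : ℂ)) ?_).1 ?_
    · simp [ht]
    · rw [h3, he]
      push_cast
      ring
  have e2 : ∀ (t : ℂ), t.re = l → ∀ (y : ℝ) (k : ℤ), b - K t ≠ q y + k := by
    intro t ht y k he
    have h3 : K (t + 2 * Real.pi * Complex.I * ((k : ℤ) : ℂ)) = K t + ((k : ℤ) : ℂ) :=
      wk_per h ⟨by rw [ht]; exact h1, by rw [ht]; exact h2⟩ k
    refine (hL (U y) (hUm y) (t + 2 * Real.pi * Complex.I * ((k : ℤ) : ℂ)) ?_).2 ?_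
    · simp [ht]
    · rw [h3]
      have h4 : b = q y + k + K t := by rw [← he]; ring
      rw [h4]
      ring
  obtain ⟨t0, ht0, hlow⟩ := line_low h h1 h2
  -- (1)
  have s1 : wn D (Complex.exp (2 * Real.pi * Complex.I * (b - K t0))) = p := by
    have hray : IsPreconnected ((fun s : ℝ => (b - K t0) + Complex.I * s) '' Ici 0) :=
      isPreconnected_Ici.image _ (by fun_prop)
    have hno : ∀ x ∈ (fun s : ℝ => (b - K t0) + Complex.I * s) '' Ici 0, ∀ (y : ℝ) (k : ℤ), x ≠ q y + k := by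
      rintro _ ⟨s, hs0, rfl⟩ y k he
      rcases (mem_Ici.1 hs0).eq_or_lt with h3 | h3
      · subst h3
        refine e2 t0 ht0 y k ?_
        rw [← he]
        simp
      · have h4 : nu K l (b - G' (U y)) = 0 := by
          refine nu_low h h1 h2 fun t ht => ?_
          have h5 : b - G' (U y) = K t0 - Complex.I * s + k := by
            have h6 : (b - K t0) + Complex.I * s = G' (U y) + k := he
            have h7 : G' (U y) = (b - K t0) + Complex.I * s - k := by rw [h6]; ring
            rw [h7]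
            ring
          rw [h5]
          have h8 := hlow t ht
          simp only [Complex.add_im, Complex.sub_im, Complex.mul_im, Complex.I_re, Complex.I_im, Complex.ofReal_re,
            Complex.ofReal_im, Complex.intCast_im]
          linarith
        rw [n2 (U y) (hUm y)] at h4
        exact one_ne_zero h4
    obtain ⟨m0, hm0, hmin⟩ := cc_min hD (p := 0) fun t => Complex.exp_ne_zero _
    obtain ⟨s, hs0, hsl⟩ : ∃ s : ℝ, 0 ≤ s ∧ Real.exp (-(2 * Real.pi * ((b - K t0).im + s))) < m0 := by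
      have h3 : Tendsto (fun s : ℝ => Real.exp (-(2 * Real.pi * ((b - K t0).im + s)))) atTop (𝓝 0) := by
        refine Real.tendsto_exp_neg_atTop_nhds_zero.comp ?_
        exact (tendsto_atTop_add_const_left _ _ tendsto_id).const_mul_atTop (by positivity)
      obtain ⟨s, h4, h5⟩ := ((h3.eventually (gt_mem_nhds hm0)).and (eventually_ge_atTop 0)).exists
      exact ⟨s, h5, h4⟩
    rw [key _ hray hno (b - K t0) ⟨0, self_mem_Ici, by simp⟩ ((b - K t0) + Complex.I * s) ⟨s, hs0, rfl⟩, ← hD0]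
    refine wn_near hD fun y => ?_
    refine lt_of_lt_of_le ?_ ((hmin y).trans (by rw [sub_zero]))
    rw [norm_ex]
    have h6 : ((b - K t0) + Complex.I * s).im = (b - K t0).im + s := by simp
    rw [h6]
    exact hsl
  -- (2)
  have s2 : wn D (Complex.exp (2 * Real.pi * Complex.I * (K t0))) = p := by
    have c1 : IsPreconnected ((fun z => b - z) '' (K '' {t | t.re = l})) :=
      (line_conn h h1 h2).image _ (by fun_prop)
    have c2 : IsPreconnected (segment ℝ (K tb) x') := (convex_segment _ _).isPreconnected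
    have c3 : IsPreconnected (((fun z => b - z) '' (K '' {t | t.re = l})) ∪ segment ℝ (K tb) x') :=
      IsPreconnected.union x' (by rw [hx']; exact ⟨K t', ⟨t', ht', rfl⟩, rfl⟩) (right_mem_segment _ _ _) c1 c2
    have c4 : IsPreconnected ((((fun z => b - z) '' (K '' {t | t.re = l})) ∪ segment ℝ (K tb) x') ∪
        (K '' {t | t.re = l})) :=
      IsPreconnected.union (K tb) (Or.inr (left_mem_segment _ _ _)) ⟨tb, hb, rfl⟩ c3 (line_conn h h1 h2)
    rw [← s1]
    refine key _ c4 ?_ _ (Or.inr ⟨t0, ht0, rfl⟩) _ (Or.inl (Or.inl ⟨K t0, ⟨t0, ht0, rfl⟩, rfl⟩))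
    rintro x ((⟨_, ⟨t, ht, rfl⟩, rfl⟩ | hx) | ⟨t, ht, rfl⟩) y k he
    · exact e2 t ht y k he
    · exact hs (U y) (hUm y) k x hx he.symm
    · exact e1 t ht y k he
  -- (3)
  have s3 : wn D (Complex.exp (2 * Real.pi * Complex.I * (K t0))) = 0 := by
    have hray : IsPreconnected ((fun s : ℝ => K t0 - Complex.I * s) '' Ici 0) :=
      isPreconnected_Ici.image _ (by fun_prop)
    have hno : ∀ x ∈ (fun s : ℝ => K t0 - Complex.I * s) '' Ici 0, ∀ (y : ℝ) (k : ℤ), x ≠ q y + k := by
      rintro _ ⟨s, hs0, rfl⟩ y k he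
      rcases (mem_Ici.1 hs0).eq_or_lt with h3 | h3
      · subst h3
        refine e1 t0 ht0 y k ?_
        rw [← he]
        simp
      · have h4 : nu K l (G' (U y)) = 0 := by
          refine nu_low h h1 h2 fun t ht => ?_
          have h5 : G' (U y) = K t0 - Complex.I * s - k := by
            have h6 : K t0 - Complex.I * s = G' (U y) + k := he
            rw [h6]
            ring
          rw [h5]
          have h8 := hlow t ht
          simp only [Complex.sub_im, Complex.mul_im, Complex.I_re, Complex.I_im, Complex.ofReal_re,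
            Complex.ofReal_im, Complex.intCast_im]
          linarith
        rw [n1 (U y) (hUm y)] at h4
        exact one_ne_zero h4
    obtain ⟨M0, hmax⟩ := cc_max hD
    obtain ⟨s, hs0, hsl⟩ : ∃ s : ℝ, 0 ≤ s ∧ M0 < Real.exp (-(2 * Real.pi * ((K t0).im - s))) := by
      have h3 : Tendsto (fun s : ℝ => Real.exp (-(2 * Real.pi * ((K t0).im - s)))) atTop atTop := by
        refine Real.tendsto_exp_atTop.comp ?_
        have h4 : (fun s : ℝ => -(2 * Real.pi * ((K t0).im - s))) =
            fun s : ℝ => -(2 * Real.pi * (K t0).im) + (2 * Real.pi) * s := by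
          funext s
          ring
        rw [h4]
        exact tendsto_atTop_add_const_left _ _ (tendsto_id.const_mul_atTop (by positivity))
      obtain ⟨s, h4, h5⟩ := ((h3.eventually (eventually_gt_atTop M0)).and (eventually_ge_atTop 0)).exists
      exact ⟨s, h5, h4⟩
    rw [key _ hray hno (K t0) ⟨0, self_mem_Ici, by simp⟩ (K t0 - Complex.I * s) ⟨s, hs0, rfl⟩]
    refine wn_far hD fun y => ?_
    refine lt_of_le_of_lt (hmax y) ?_
    rw [norm_ex]
    have h6 : (K t0 - Complex.I * s).im = (K t0).im - s := by simp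
    rw [h6]
    exact hsl
  rw [s2] at s3
  exact_mod_cast s3

end Pool.Agent.H66.GEO
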