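import Pool.Agent.H66.GEO.EX4
import Pool.Agent.H39.TP.Main

/-!
# GEO, module TP: the window `W` (think 1848, section 5, case `a = -1`); owner helper39

`W` = the component of `0` in `X_s^r \ A`. Proofs in `H39/TP`.
-/

set_option autoImplicit false

open Filter Topology Metric Set
open Pool.Agent.H56.TH (Full)

namespace Pool.Agent.H66.GEO

theorem tp_ww {Q : Set ℂ} {Lf : Set ℂ → (ℂ → ℂ) → (ℂ → ℂ) → Prop} {th r : ℝ} {φ F : ℕ → ℂ → ℂ} {ω α : ℕ → ℂ} {ψ : ℕ → ℂ → ℂ}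
    (h : LS Q Lf) (hX : XS Q Lf th r φ F ω α) (hP : PS th φ F ω α ψ) (s : ℕ) {A N : Set ℂ} (hA : IsCompact A)
    (hAc : IsPreconnected A) (hAN : A ⊆ N) (hN : Full N) (hNQ : Disjoint N Q) {a : ℂ} (haA : a ∈ A) (haX : a ∉ Ys φ ω α r s) :
    ∃ (W : Set ℂ) (φW : ℂ → ℂ) (d : ℝ) (t1 : ℂ) (ε : ℝ),
      WW Q (Real.log th / 2 ^ s) (Real.log r / 2 ^ s) (ψ s) (Ys φ ω α r s) A W φW d t1 ε := by
  obtain ⟨W, φW, d, d0, d1, hW, h0, hd, hi, him, hb, hoff, t, -, htl, -, ε, hε, hbl, hin⟩ :=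
    Pool.Agent.H39.TP.tp h hX hP s hA hAc hAN hN hNQ haA haX
  exact ⟨W, φW, d, t, ε, ⟨⟨d0, d1, hd, hi, him, hb, hW ▸ connectedComponentIn_subset _ _, hoff, htl, hε, hbl, hin⟩, h0⟩⟩

end Pool.Agent.H66.GEO
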