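import Pool.Agent.H66.GEO.EX1
import Pool.Agent.H66.GEO.EX2
import Pool.Agent.H66.GEO.EX3
import Pool.Agent.H66.GEO.EX5
import Pool.Agent.H66.GEO.TP
import Pool.Agent.H81.RW.Nlg

/-!
# GEO, module ONE: the claim of section 5 (think 1848) for one fixed `s` (assembly)
-/

set_option autoImplicit false

open Filter Topology Metric Set
open Pool.Agent.H56.TH (Full)

namespace Pool.Agent.H66.GEO

private theorem seg_cpt (x y : ℂ) : IsCompact (segment ℝ x y) := by
  rw [segment_eq_image_lineMap]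
  exact isCompact_Icc.image (AffineMap.lineMap_continuous)

private theorem full_ball (c : ℂ) (r : ℝ) : Full (ball c r) := by
  intro O hO hb hf w hw
  obtain ⟨z, hz, hmax⟩ := Complex.exists_mem_frontier_isMaxOn_norm (f := fun z : ℂ => z - c)
    hb ⟨w, hw⟩ ((differentiable_id.sub_const c).diffContOnCl)
  have h1 := hmax (subset_closure hw)
  have h2 := hf hz
  simp only [Function.comp, mem_ofPred_eq] at h1
  rw [mem_ball, dist_eq_norm] at h2 ⊢
  exact h1.trans_lt h2

theorem one {Q : Set ℂ} {Lf : Set ℂ → (ℂ → ℂ) → (ℂ → ℂ) → Prop} {th r : ℝ} {φ F : ℕ → ℂ → ℂ} {ω α : ℕ → ℂ} {ψ : ℕ → ℂ → ℂ}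
    (hX : XS Q Lf th r φ F ω α) (hP : PS th φ F ω α ψ) (s : ℕ) {K I : ℂ → ℂ} {g : ℂ} {ρ : ℝ}
    (h : ON Q Lf (Real.log th / 2 ^ s) (Real.log r / 2 ^ s) (ψ s) K (Ys φ ω α r s) g ρ I) :
    ∀ x ∈ ball g (2 * ρ), (∀ t : ℂ, t.re = Real.log r / 2 ^ s → (K t).im < x.im) → I x ∈ Ys φ ω α r s := by
  intro x hx hab
  by_contra hn
  obtain ⟨tb, t', x', hXI⟩ := ex1 h hx hab hn
  obtain ⟨γ, hγ⟩ := ex2 h hXI
  rcases hγ.pm with ha | ha
  · -- translation
    have hac : ∀ z, ac γ z = z + γ.2 := by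
      intro z
      simp [ac, ha]
    have hiv : ∀ z, ac (iv γ) z = z - γ.2 := by
      intro z
      simp [ac, iv, ha, sub_eq_add_neg]
    refine ex3 (on_wk h) h.h1 h.h2 (b := γ.2) ?_ ?_ ?_
    · intro t1 t2 h1 h2
      rw [← hac]
      exact hγ.dj t1 t2 h1 h2
    · intro t ht
      rw [← hac]
      exact hγ.n1 t ht
    · intro t ht
      rw [← hiv]
      exact hγ.n2 t ht
  · -- half turn
    have hac : ∀ z, ac γ z = γ.2 - z := by
      intro z
      simp [ac, ha]
      ring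
    have hsb : segment ℝ (K tb) x' ⊆ ball g (3 * ρ) := (convex_ball g (3 * ρ)).segment_subset hXI.mb hXI.mx
    have hdI : DifferentiableOn ℂ I (ball g (3 * ρ)) := (h.ls.dH h.li).1
    obtain ⟨W, φW, d, t1, ε, hW⟩ := tp_ww h.ls hX hP s (A := I '' segment ℝ (K tb) x') (N := I '' ball g (3 * ρ))
      ((seg_cpt (K tb) x').image_of_continuousOn (hdI.continuousOn.mono hsb))
      ((convex_segment (K tb) x').isPreconnected.image _ (hdI.continuousOn.mono hsb))
      (image_mono hsb)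
      (Pool.Agent.H81.RW.img_full hdI h.iI subset_rfl (full_ball _ _))
      (by
        rw [disjoint_left]
        rintro _ ⟨y, hy, rfl⟩
        exact ((h.ls.dH h.li).2 y hy).1)
      (a := I x') (mem_image_of_mem _ (right_mem_segment ℝ _ _))
      (by
        rw [hXI.hx]
        exact h.out t' hXI.e.ge (hXI.e.trans_lt h.h2))
    obtain ⟨G', hG, hL, hM⟩ := ex4a h hXI hγ ha hW.toWX
    obtain ⟨m, p, hp, hmp⟩ := ex4b h hW hG hL (c := γ.2) (fun u hu => ⟨(hM u hu).1, (hM u hu).2.1⟩)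
    have hx' : x' = γ.2 - K t' := by
      rw [← hac]
      exact hγ.hx
    refine hp (ex5 (on_wk h) h.h1 h.h2 hXI.b hXI.e hx' (c := Real.log (1 - d)) ?_ (h.ls.dG hG).1 hmp
      (fun u hu => (hM u hu).1) (fun u hu => (hM u hu).2.1) (fun u hu => (hM u hu).2.2.1) (fun u hu => (hM u hu).2.2.2))
    exact Real.log_neg (by linarith [hW.d1]) (by linarith [hW.d0])

end Pool.Agent.H66.GEO
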