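import Pool.Agent.H66.GEO.STR2
import Pool.Agent.H80.AJ.Distort

/-!
# GEO, module STR3: the strip maps exist (end theorem of STR)

`ψ 0 t = φ 0 (exp t)`, `ψ s t = φ s (x s t)` with `x s` from `xx_all`. `der`: chain rule, `deriv (φ s) ≠ 0` on the disc because `φ s` is injective (compare
`Pool.Agent.H80.AJ` `deriv_ne`). `lev`, `sur`, `inj` (`iφ`), `per` (`oφ`), `stp` (`rel`): immediate.
The elementary facts `st_open`, `st_conv`, `ss_half`, `ss_norm`, `ps_off`, `ps_per` are in `Bas`.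
-/

set_option autoImplicit false

open Filter Topology Metric Set

namespace Pool.Agent.H66.GEO

theorem ps_ex {Q : Set ℂ} {Lf : Set ℂ → (ℂ → ℂ) → (ℂ → ℂ) → Prop} {th r : ℝ} {φ F : ℕ → ℂ → ℂ} {ω α : ℕ → ℂ}
    (hX : XS Q Lf th r φ F ω α) : ∃ ψ : ℕ → ℂ → ℂ, PS th φ F ω α ψ := by
  obtain ⟨x, hx0, hx, hxs⟩ := xx_all hX.th0 (hX.thr.trans hX.r1) hX.hω hX.hα hX.cv
  have hmb : ∀ s, ∀ t ∈ Ss th s, x s t ∈ ball (0 : ℂ) 1 := by
    intro s t ht
    simpa using (hx s).bal t ht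
  have hder : ∀ s, ∀ y ∈ ball (0 : ℂ) 1, deriv (φ s) y ≠ 0 := by
    intro s y hy
    have hy' : ‖y‖ < 1 := by simpa using hy
    have hR : 0 < 1 - ‖y‖ := by linarith
    have hsub : ball y (1 - ‖y‖) ⊆ ball (0 : ℂ) 1 := by
      apply ball_subset_ball'
      rw [dist_zero_right]
      linarith
    have h := Pool.Agent.H80.AJ.deriv_ne hR ((hX.dφ s).mono hsub) ((hX.iφ s).mono hsub)
      (mem_closedBall_self (by linarith) : y ∈ closedBall y ((1 - ‖y‖) / 2))
    exact norm_pos_iff.mp h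
  refine ⟨fun s t => φ s (x s t), ?_, ?_, ?_, ?_, ?_, ?_, ?_, ?_⟩
  · intro s
    exact (hX.dφ s).comp (hx s).dif (fun t ht => hmb s t ht)
  · intro s t ht
    have d1 : HasDerivAt (x s) (deriv (x s) t) t :=
      ((hx s).dif.differentiableAt ((st_open _ _).mem_nhds ht)).hasDerivAt
    have d2 : HasDerivAt (φ s) (deriv (φ s) (x s t)) (x s t) :=
      ((hX.dφ s).differentiableAt (isOpen_ball.mem_nhds (hmb s t ht))).hasDerivAt
    have d3 : HasDerivAt (fun t => φ s (x s t)) (deriv (φ s) (x s t) * deriv (x s) t) t := HasDerivAt.comp t d2 d1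
    rw [d3.deriv]
    exact mul_ne_zero (hder s _ (hmb s t ht)) ((hx s).der t ht)
  · intro t
    show φ 0 (x 0 t) = _
    rw [hx0]
  · intro s t ht
    exact ⟨x s t, hmb s t ht, (hx s).lev t ht, rfl⟩
  · intro s y hy h1
    obtain ⟨t, ht, he⟩ := (hx s).sur y (by simpa using hy) h1
    exact ⟨t, ht, by show φ s (x s t) = _; rw [he]⟩
  · intro s t ht
    show F s (φ (s + 1) (x (s + 1) t)) = φ s (x s (2 * t))
    rw [hX.rel s _ (hmb (s + 1) t ht), hxs s t ht]
  · intro s t ht t' ht' he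
    exact (hx s).inj t ht t' ht' (hX.iφ s (hmb s t ht) (hmb s t' ht') he)
  · intro s t ht
    show φ s (x s (t + Real.pi * Complex.I)) = - φ s (x s t)
    rw [(hx s).per t ht, hX.oφ s _ (hmb s t ht)]

end Pool.Agent.H66.GEO
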