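import Pool.Agent.H91.GEO.Mn1
import Pool.Agent.H66.GEO.ONE
import Pool.Agent.H66.GEO.STR3
import Pool.Agent.H28.GEO.GLd

/-!
# THEOREM GEO (ROB => DIM, part 4, think 1848; MP_8f2e1c)

`ps_ex`, `gg_ex`: strip maps and their lifts; `nrm`: normal form; `md_ex`, `md_on`: the situation `ON` of section 5 for all large levels of an infinite set; `one`: the claim of section 5;
`geo_of_claim` (`geo_end`): the contradiction.
-/

set_option autoImplicit false

open Filter Topology Metric Set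

namespace Pool.Agent.H66.GEO

/-- **THEOREM GEO** -/
theorem geo {Q : Set ℂ} {Lf : Set ℂ → (ℂ → ℂ) → (ℂ → ℂ) → Prop} {th r : ℝ} {φ F : ℕ → ℂ → ℂ} {ω α : ℕ → ℂ} (h : LS Q Lf)
    (hX : XS Q Lf th r φ F ω α) : False := by
  obtain ⟨ψ, hP⟩ := ps_ex hX
  obtain ⟨G, hG⟩ := gg_ex h hX hP
  obtain ⟨Lf', G', h', hX', hG', p0⟩ := nrm h hX hP hG
  obtain ⟨e, J, b, g, ρ, I, D⟩ := md_ex h' hX' hP hG' p0
  obtain ⟨s0, hs0⟩ := md_on h' hX' hP hG' p0 D
  exact geo_of_claim h' hX' hP hG' p0 D ⟨s0, fun s hs hss => one (xs_sc hX' (hene D.e1)) hP s (hs0 s hs hss)⟩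
where
  hene {e : ℝ} (he : e = 1 ∨ e = -1) : (e : ℂ) ≠ 0 := by
    rcases he with rfl | rfl <;> norm_num

end Pool.Agent.H66.GEO
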