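import Pool.Agent.H66.GEO.Defs
import Pool.Agent.H39.HO.PB

/-!
# THEOREM GEO, step 6: END (helper98)

`K s` (values `e * G s t`) satisfies `G 0 (2 ^ s t) = 2 ^ s K s t + b s`, `W` is the inverse of `e * G 0` near the point `p`,
`gp` its value at `p`. `FI k m = F k ∘ F (k+1) ∘ .. ∘ F (k+m-1) : X_(k+m) → X_k`. On
`O_s = {x ∈ ball gp (2 ρ), x.im > max (K s).im on the line}` the function `Φ x = FI k m (W x)`, `k + m = s`, satisfies
`Φ (x + 2 ^ k / 2 ^ (s+1)) = - Φ x`: at `x = K s t` it is `ψ k (2 ^ m t)`, and there are such `x` in `O_s` (open mapping at the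
highest point of the line); identity theorem. By the Schwarz lemma for `(φ k)⁻¹ ∘ Φ` (values in the unit disc; no bound for `X_k` is used) `Φ (gp + i ρ) → 0`
(`s → ∞` in `I`), for `k = 0` and `k = 1`.
As `F 0 (FI 1 m w) = FI 0 (m+1) w`, `F 0 0 = 0`, a contradiction to `F0`.
-/

set_option autoImplicit false

open Filter Topology Metric Set

namespace Pool.Agent.H66.GEO.EN

/-- `F k ∘ F (k+1) ∘ .. ∘ F (k+m-1)` -/
noncomputable def FI (F : ℕ → ℂ → ℂ) (k : ℕ) : ℕ → ℂ → ℂ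
  | 0, w => w
  | m + 1, w => FI F k m (F (k + m) w)

theorem FI_zero (F : ℕ → ℂ → ℂ) (m : ℕ) (w : ℂ) : FI F 0 (m + 1) w = F 0 (FI F 1 m w) := by
  induction m generalizing w with
  | zero => rfl
  | succ m ih =>
    have h1 : FI F 0 (m + 1 + 1) w = FI F 0 (m + 1) (F (0 + (m + 1)) w) := rfl
    have h2 : FI F 1 (m + 1) w = FI F 1 m (F (1 + m) w) := rfl
    rw [h1, h2, ih, show 0 + (m + 1) = 1 + m by omega]

theorem mem_Ss {th : ℝ} {s : ℕ} {t : ℂ} : t ∈ Ss th s ↔ (2 : ℂ) ^ s * t ∈ Ss th 0 := by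
  have h2 : (0 : ℝ) < 2 ^ s := by positivity
  have h3 : ((2 : ℂ) ^ s * t).re = 2 ^ s * t.re := by
    have : ((2 : ℂ) ^ s) = ((2 ^ s : ℝ) : ℂ) := by push_cast; rfl
    rw [this, Complex.re_ofReal_mul]
  simp only [Ss, St, Set.mem_ofPred_eq, h3, pow_zero, div_one]
  constructor
  · rintro ⟨h4, h5⟩
    rw [div_lt_iff₀ h2] at h4
    exact ⟨by linarith, mul_neg_of_pos_of_neg h2 h5⟩
  · rintro ⟨h4, h5⟩
    rw [div_lt_iff₀ h2]
    refine ⟨by linarith, ?_⟩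
    by_contra h6
    push Not at h6
    have := mul_nonneg h2.le h6
    linarith

theorem open_Ss (th : ℝ) (s : ℕ) : IsOpen (Ss th s) := by
  have h1 : Ss th s = {t : ℂ | Real.log th / 2 ^ s < t.re} ∩ {t : ℂ | t.re < 0} := rfl
  rw [h1]
  exact (isOpen_lt continuous_const Complex.continuous_re).inter (isOpen_lt Complex.continuous_re continuous_const)

theorem Ss_add {th : ℝ} {s : ℕ} {t : ℂ} (h : t ∈ Ss th s) {u : ℂ} (hu : u.re = 0) : t + u ∈ Ss th s := by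
  obtain ⟨h1, h2⟩ := h
  exact ⟨by rw [Complex.add_re, hu, add_zero]; exact h1, by rw [Complex.add_re, hu, add_zero]; exact h2⟩

theorem Ss_two {th : ℝ} {s : ℕ} {t : ℂ} (h : t ∈ Ss th (s + 1)) : 2 * t ∈ Ss th s := by
  rw [mem_Ss] at h ⊢
  have : (2 : ℂ) ^ s * (2 * t) = 2 ^ (s + 1) * t := by ring
  rwa [this]

theorem norm_Bl_lt {ω α x : ℂ} (hω : ‖ω‖ = 1) (hα : ‖α‖ < 1) (hx : ‖x‖ < 1) : ‖Bl ω α x‖ < 1 := by
  have key : ∀ y : ℂ, ‖y‖ < 1 → ‖y + α‖ < ‖1 + (starRingEnd ℂ) α * y‖ := by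
    intro y hy
    have e1 : ‖1 + (starRingEnd ℂ) α * y‖ ^ 2 - ‖y + α‖ ^ 2 = (1 - ‖α‖ ^ 2) * (1 - ‖y‖ ^ 2) := by
      rw [← Complex.normSq_eq_norm_sq, ← Complex.normSq_eq_norm_sq, ← Complex.normSq_eq_norm_sq,
        ← Complex.normSq_eq_norm_sq]
      simp only [Complex.normSq_apply, Complex.add_re, Complex.add_im, Complex.mul_re, Complex.mul_im, Complex.conj_re,
        Complex.conj_im, Complex.one_re, Complex.one_im]
      ring
    have e2 : 0 < (1 - ‖α‖ ^ 2) * (1 - ‖y‖ ^ 2) := by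
      have a1 : ‖α‖ ^ 2 < 1 := by nlinarith [norm_nonneg α]
      have a2 : ‖y‖ ^ 2 < 1 := by nlinarith [norm_nonneg y]
      exact mul_pos (by linarith) (by linarith)
    exact lt_of_pow_lt_pow_left₀ 2 (norm_nonneg _) (by linarith)
  have h1 : ‖x ^ 2‖ < 1 := by
    rw [norm_pow]; nlinarith [norm_nonneg x]
  have h2 := key _ h1
  rw [Bl, norm_div, norm_mul, hω, one_mul, div_lt_one (lt_of_le_of_lt (norm_nonneg _) h2)]
  exact h2

section

variable {Q : Set ℂ} {Lf : Set ℂ → (ℂ → ℂ) → (ℂ → ℂ) → Prop} {th r : ℝ} {φ F ψ : ℕ → ℂ → ℂ} {ω α : ℕ → ℂ}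

theorem F_mem (hX : XS Q Lf th r φ F ω α) (s : ℕ) {w : ℂ} (hw : w ∈ φ (s + 1) '' ball 0 1) : F s w ∈ φ s '' ball 0 1 := by
  obtain ⟨x, hx, rfl⟩ := hw
  rw [hX.rel s x hx]
  refine ⟨_, ?_, rfl⟩
  rw [mem_ball_zero_iff] at hx ⊢
  exact norm_Bl_lt (hX.hω s) (hX.hα s) hx

theorem FI_mem (hX : XS Q Lf th r φ F ω α) (k m : ℕ) {w : ℂ} (hw : w ∈ φ (k + m) '' ball 0 1) :
    FI F k m w ∈ φ k '' ball 0 1 := by
  induction m generalizing w with
  | zero => exact hw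
  | succ m ih => exact ih (F_mem hX (k + m) hw)

theorem FI_diff (hX : XS Q Lf th r φ F ω α) (k m : ℕ) : DifferentiableOn ℂ (FI F k m) (φ (k + m) '' ball 0 1) := by
  induction m with
  | zero => exact differentiableOn_id
  | succ m ih => exact ih.comp (hX.dF (k + m)) (fun w hw => F_mem hX (k + m) hw)

theorem FI_psi (hP : PS th φ F ω α ψ) (k m : ℕ) {t : ℂ} (ht : t ∈ Ss th (k + m)) :
    FI F k m (ψ (k + m) t) = ψ k (2 ^ m * t) := by
  induction m generalizing t with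
  | zero => simp [FI]
  | succ m ih =>
    have h1 : FI F k (m + 1) (ψ (k + (m + 1)) t) = FI F k m (F (k + m) (ψ (k + m + 1) t)) := rfl
    rw [h1, hP.stp (k + m) t ht, ih (Ss_two ht)]
    congr 1
    ring

end

/-- the open mapping property of `K` -/
theorem K_open {th : ℝ} {G0 K : ℂ → ℂ} {s : ℕ} {b : ℂ} (hG : DifferentiableOn ℂ G0 (Ss th 0))
    (hG' : ∀ t ∈ Ss th 0, deriv G0 t ≠ 0) (hK : ∀ t ∈ Ss th s, G0 (2 ^ s * t) = 2 ^ s * K t + b) {t : ℂ} (ht : t ∈ Ss th s) :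
    map K (𝓝 t) = 𝓝 (K t) := by
  have h2 : (2 : ℂ) ^ s ≠ 0 := pow_ne_zero _ two_ne_zero
  have e1 : ∀ u ∈ Ss th s, K u = (2 ^ s)⁻¹ * (G0 (2 ^ s * u) - b) := by
    intro u hu
    rw [hK u hu]; field_simp; ring
  have e2 : K =ᶠ[𝓝 t] (fun u => (2 ^ s)⁻¹ * (G0 (2 ^ s * u) - b)) :=
    Filter.eventually_of_mem ((open_Ss th s).mem_nhds ht) e1
  have h3 : HasStrictDerivAt G0 (deriv G0 (2 ^ s * t)) (2 ^ s * t) :=
    (hG.analyticAt ((open_Ss th 0).mem_nhds (mem_Ss.1 ht))).hasStrictDerivAt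
  have h4 : HasStrictDerivAt (fun u : ℂ => (2 : ℂ) ^ s * u) (2 ^ s) t := by
    simpa using (hasStrictDerivAt_id t).const_mul ((2 : ℂ) ^ s)
  have h5' : HasStrictDerivAt (fun u => G0 (2 ^ s * u) - b) (deriv G0 (2 ^ s * t) * 2 ^ s) t :=
    (HasStrictDerivAt.comp t h3 h4).sub_const b
  have h5 : HasStrictDerivAt (fun u => (2 ^ s)⁻¹ * (G0 (2 ^ s * u) - b)) ((2 ^ s)⁻¹ * (deriv G0 (2 ^ s * t) * 2 ^ s)) t :=
    h5'.const_mul _
  have h6 := h5.map_nhds_eq (mul_ne_zero (inv_ne_zero h2) (mul_ne_zero (hG' _ (mem_Ss.1 ht)) h2))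
  rw [Filter.map_congr e2, h6, e2.eq_of_nhds]

/-- the functional equation spreads from the image of `K` -/
theorem spread {th : ℝ} {G0 K f g : ℂ → ℂ} {s : ℕ} {b c δ : ℂ} (hG : DifferentiableOn ℂ G0 (Ss th 0))
    (hG' : ∀ t ∈ Ss th 0, deriv G0 t ≠ 0) (hK : ∀ t ∈ Ss th s, G0 (2 ^ s * t) = 2 ^ s * K t + b)
    {U V : Set ℂ} (hU : IsOpen U) (hUc : Convex ℝ U) (hUV : ∀ x ∈ U, x ∈ V ∧ x + δ ∈ V)
    (hf : DifferentiableOn ℂ f V) (hfg : ∀ t ∈ Ss th s, K t ∈ V → f (K t) = g t)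
    (hc : ∀ t ∈ Ss th s, t + c ∈ Ss th s ∧ K (t + c) = K t + δ ∧ g (t + c) = - g t)
    {t : ℂ} (ht : t ∈ Ss th s) (htU : K t ∈ U) : ∀ x ∈ U, f (x + δ) = - f x := by
  have h1 : ∀ᶠ x in 𝓝 (K t), f (x + δ) + f x = 0 := by
    rw [← K_open hG hG' hK ht, Filter.eventually_map]
    have hcont : ContinuousAt K t := by
      rw [ContinuousAt, Filter.Tendsto, K_open hG hG' hK ht]
    filter_upwards [(open_Ss th s).mem_nhds ht, hcont.preimage_mem_nhds (hU.mem_nhds htU)] with u hu hu2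
    obtain ⟨h3, h4, h5⟩ := hc u hu
    have h6 := hUV _ hu2
    rw [← h4, hfg _ h3 (by rw [h4]; exact h6.2), hfg _ hu h6.1, h5]
    ring
  have hd1 : DifferentiableOn ℂ (fun x => f (x + δ) + f x) U := by
    refine DifferentiableOn.add ?_ (hf.mono (fun x hx => (hUV x hx).1))
    exact hf.comp (differentiableOn_id.add_const δ) (fun x hx => (hUV x hx).2)
  have h7 := (hd1.analyticOnNhd hU).eqOn_zero_of_preconnected_of_eventuallyEq_zero hUc.isPreconnected htU h1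
  intro x hx
  have h8 := h7 hx
  simp only [Pi.zero_apply] at h8
  exact eq_neg_of_add_eq_zero_left h8

section

variable {th l : ℝ} {G0 : ℂ → ℂ}

theorem G0_int (p0 : ∀ t ∈ Ss th 0, G0 (t + Real.pi * Complex.I) = G0 t + 1 / 2) (n : ℤ) {T : ℂ} (hT : T ∈ Ss th 0) :
    G0 (T + n * (Real.pi * Complex.I)) = G0 T + n / 2 := by
  have hre : ∀ m : ℤ, ((m : ℂ) * (Real.pi * Complex.I)).re = 0 := by
    intro m; simp
  induction n using Int.induction_on with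
  | zero => simp
  | succ n ih =>
    have h1 := p0 _ (Ss_add hT (hre n))
    have h2 : T + (((n : ℤ) + 1 : ℤ) : ℂ) * (Real.pi * Complex.I) = T + ((n : ℤ) : ℂ) * (Real.pi * Complex.I) +
        Real.pi * Complex.I := by push_cast; ring
    rw [h2, h1, ih]; push_cast; ring
  | pred n ih =>
    have h1 := p0 _ (Ss_add hT (hre (-(n : ℤ) - 1)))
    have h2 : T + ((-(n : ℤ) - 1 : ℤ) : ℂ) * (Real.pi * Complex.I) + Real.pi * Complex.I =
        T + ((-(n : ℤ) : ℤ) : ℂ) * (Real.pi * Complex.I) := by push_cast; ring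
    rw [h2, ih] at h1
    have h3 : G0 (T + ((-(n : ℤ) - 1 : ℤ) : ℂ) * (Real.pi * Complex.I)) = G0 T + ((-(n : ℤ) : ℤ) : ℂ) / 2 - 1 / 2 := by
      rw [h1]; ring
    rw [h3]; push_cast; ring

theorem line_mem (h1 : Real.log th < l) (h2 : l < 0) (y : ℝ) : (l : ℂ) + y * Complex.I ∈ Ss th 0 := by
  refine ⟨?_, ?_⟩
  · simpa using h1
  · simpa using h2

/-- highest and lowest points of the line -/
theorem line_max (hG : DifferentiableOn ℂ G0 (Ss th 0))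
    (p0 : ∀ t ∈ Ss th 0, G0 (t + Real.pi * Complex.I) = G0 t + 1 / 2) (h1 : Real.log th < l) (h2 : l < 0) :
    ∃ (T : ℂ) (C : ℝ), T.re = l ∧ (∀ t : ℂ, t.re = l → (G0 t).im ≤ (G0 T).im ∧ (G0 T).im ≤ (G0 t).im + C) := by
  set f : ℝ → ℝ := fun y => (G0 ((l : ℂ) + y * Complex.I)).im with hf
  have hper : Function.Periodic f Real.pi := by
    intro y
    have h3 := p0 _ (line_mem (th := th) h1 h2 y)
    have h4 : (l : ℂ) + ((y + Real.pi : ℝ) : ℂ) * Complex.I = (l : ℂ) + y * Complex.I + Real.pi * Complex.I := by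
      push_cast; ring
    simp only [hf]
    rw [h4, h3]
    have : ((1 : ℂ) / 2).im = 0 := by
      rw [show (1 : ℂ) / 2 = ((1 / 2 : ℝ) : ℂ) by push_cast; ring, Complex.ofReal_im]
    rw [Complex.add_im, this, add_zero]
  have hcont : Continuous f := by
    refine Complex.continuous_im.comp ?_
    refine hG.continuousOn.comp_continuous (by fun_prop) (fun y => line_mem h1 h2 y)
  obtain ⟨y0, hy0, hmax⟩ := isCompact_Icc.exists_isMaxOn (nonempty_Icc.2 Real.pi_pos.le) hcont.continuousOn (s := Icc 0 Real.pi)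
  obtain ⟨y1, hy1, hmin⟩ := isCompact_Icc.exists_isMinOn (nonempty_Icc.2 Real.pi_pos.le) hcont.continuousOn (s := Icc 0 Real.pi)
  refine ⟨(l : ℂ) + y0 * Complex.I, f y0 - f y1, by simp, ?_⟩
  intro t ht
  obtain ⟨y, hy, hfy⟩ := hper.exists_mem_Ico₀ Real.pi_pos t.im
  have h3 : (l : ℂ) + (t.im : ℝ) * Complex.I = t := by
    rw [← ht]; exact Complex.re_add_im t
  have h4 : (G0 t).im = f y := by
    rw [← hfy]; simp only [hf]; rw [h3]
  have h5 : f y ≤ f y0 := hmax (Ico_subset_Icc_self hy)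
  have h6 : f y1 ≤ f y := hmin (Ico_subset_Icc_self hy)
  refine ⟨by rw [h4]; exact h5, ?_⟩
  rw [h4]
  change f y0 ≤ _
  linarith

end

theorem pow_re (s : ℕ) (z : ℂ) : ((2 : ℂ) ^ s * z).re = 2 ^ s * z.re := by
  have : ((2 : ℂ) ^ s) = ((2 ^ s : ℝ) : ℂ) := by push_cast; rfl
  rw [this, Complex.re_ofReal_mul]

theorem pow_im (s : ℕ) (z : ℂ) : ((2 : ℂ) ^ s * z).im = 2 ^ s * z.im := by
  have : ((2 : ℂ) ^ s) = ((2 ^ s : ℝ) : ℂ) := by push_cast; rfl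
  rw [this, Complex.im_ofReal_mul]

/-- highest points of the line close to `gp` -/
theorem near_top {th l : ℝ} {G0 : ℂ → ℂ} {K : ℕ → ℂ → ℂ} {b : ℕ → ℂ} {I : Set ℕ} {gp : ℂ}
    (hG : DifferentiableOn ℂ G0 (Ss th 0))
    (p0 : ∀ t ∈ Ss th 0, G0 (t + Real.pi * Complex.I) = G0 t + 1 / 2) (h1 : Real.log th < l) (h2 : l < 0)
    (hK : ∀ s ∈ I, ∀ t ∈ Ss th s, G0 (2 ^ s * t) = 2 ^ s * K s t + b s)
    (hp : ∀ ε : ℝ, 0 < ε → ∃ s0, ∀ s ∈ I, s0 ≤ s → ∃ t : ℂ, t.re = l / 2 ^ s ∧ ‖K s t - gp‖ < ε) {ρ : ℝ} (hρ : 0 < ρ) :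
    ∃ s0, ∀ s ∈ I, s0 ≤ s → ∃ t : ℂ, t ∈ Ss th s ∧ (∀ u : ℂ, u.re = l / 2 ^ s → (K s u).im ≤ (K s t).im) ∧
      ‖K s t - gp‖ < ρ := by
  obtain ⟨T, C, hT, hTC⟩ := line_max hG p0 h1 h2
  obtain ⟨s1, hs1⟩ := hp (ρ / 4) (by linarith)
  have hlim : Tendsto (fun s : ℕ => (|C| + 1) * (1 / 2 : ℝ) ^ s) atTop (𝓝 0) := by
    simpa using (tendsto_pow_atTop_nhds_zero_of_lt_one (by norm_num : (0 : ℝ) ≤ 1 / 2) (by norm_num)).const_mul (|C| + 1)
  obtain ⟨s2, hs2⟩ := eventually_atTop.1 (hlim.eventually_lt_const (show (0 : ℝ) < ρ / 4 by linarith))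
  refine ⟨max s1 s2, ?_⟩
  intro s hs hss
  obtain ⟨t0, ht0, ht0'⟩ := hs1 s hs (le_trans (le_max_left _ _) hss)
  have h3 := hs2 s (le_trans (le_max_right _ _) hss)
  have hp2 : (0 : ℝ) < 2 ^ s := by positivity
  have hc2 : (2 : ℂ) ^ s ≠ 0 := pow_ne_zero _ two_ne_zero
  have hTm : T ∈ Ss th 0 := by
    have := line_mem (th := th) h1 h2 T.im
    rwa [← hT, Complex.re_add_im] at this
  set n : ℤ := ⌊2 ^ s * gp.re - (G0 T - b s).re⌋ with hn
  set Tn : ℂ := T + ((2 * n : ℤ) : ℂ) * (Real.pi * Complex.I) with hTn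
  have hTnre : Tn.re = l := by rw [hTn, Complex.add_re, hT]; simp
  have hTnm : Tn ∈ Ss th 0 := Ss_add hTm (by simp)
  have hval : G0 Tn = G0 T + n := by
    rw [hTn, G0_int p0 _ hTm]; push_cast; ring
  set t : ℂ := Tn / 2 ^ s with ht
  have htT : (2 : ℂ) ^ s * t = Tn := by rw [ht]; field_simp
  have htm : t ∈ Ss th s := by rw [mem_Ss, htT]; exact hTnm
  have hKt : (2 : ℂ) ^ s * K s t = G0 T + n - b s := by
    have := hK s hs t htm
    rw [htT, hval] at this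
    rw [this]; ring
  have hline : ∀ u : ℂ, u.re = l / 2 ^ s → u ∈ Ss th s ∧ ((2 : ℂ) ^ s * u).re = l := by
    intro u hu
    have e1 : ((2 : ℂ) ^ s * u).re = l := by
      rw [pow_re, hu]; field_simp
    refine ⟨?_, e1⟩
    rw [mem_Ss]
    have := line_mem (th := th) h1 h2 ((2 : ℂ) ^ s * u).im
    rwa [← e1, Complex.re_add_im] at this
  have hKim : (2 : ℝ) ^ s * (K s t).im = (G0 T).im - (b s).im := by
    have := congrArg Complex.im hKt
    rw [pow_im] at this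
    rw [this]; simp
  have hKu : ∀ u : ℂ, u.re = l / 2 ^ s → (2 : ℝ) ^ s * (K s u).im = (G0 (2 ^ s * u)).im - (b s).im := by
    intro u hu
    have := congrArg Complex.im (hK s hs u (hline u hu).1)
    rw [Complex.add_im, pow_im] at this
    linarith
  refine ⟨t, htm, ?_, ?_⟩
  · intro u hu
    have e1 := (hTC _ (hline u hu).2).1
    have e2 := hKu u hu
    have e3 : (2 : ℝ) ^ s * (K s u).im ≤ 2 ^ s * (K s t).im := by linarith
    exact le_of_mul_le_mul_left e3 hp2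
  · have e1 := hTC _ (hline t0 ht0).2
    have e2 := hKu t0 ht0
    have i1 : (2 : ℝ) ^ s * ((K s t).im - (K s t0).im) ≤ C := by
      have : (2 : ℝ) ^ s * ((K s t).im - (K s t0).im) = (G0 T).im - (G0 (2 ^ s * t0)).im := by
        rw [mul_sub, hKim, e2]; ring
      rw [this]; linarith [e1.2]
    have i2 : 0 ≤ (2 : ℝ) ^ s * ((K s t).im - (K s t0).im) := by
      have : (2 : ℝ) ^ s * ((K s t).im - (K s t0).im) = (G0 T).im - (G0 (2 ^ s * t0)).im := by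
        rw [mul_sub, hKim, e2]; ring
      rw [this]; linarith [e1.1]
    have hpw : (1 / 2 : ℝ) ^ s = 1 / 2 ^ s := by rw [one_div, one_div, inv_pow]
    rw [hpw] at h3
    have h3' : (|C| + 1) / 2 ^ s < ρ / 4 := by rw [div_eq_mul_one_div]; exact h3
    rw [div_lt_iff₀ hp2] at h3'
    have i3 : (K s t).im - (K s t0).im < ρ / 4 := by
      have : (2 : ℝ) ^ s * ((K s t).im - (K s t0).im) < 2 ^ s * (ρ / 4) := by
        have := le_abs_self C
        linarith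
      exact lt_of_mul_lt_mul_left this hp2.le
    have i4 : 0 ≤ (K s t).im - (K s t0).im := nonneg_of_mul_nonneg_right i2 hp2
    have i5 : |(K s t0 - gp).im| < ρ / 4 := lt_of_le_of_lt (Complex.abs_im_le_norm _) ht0'
    rw [Complex.sub_im, abs_lt] at i5
    have i6 : |(K s t - gp).im| < ρ / 2 := by
      rw [Complex.sub_im, abs_lt]; constructor <;> linarith
    have hKre : (2 : ℝ) ^ s * (K s t).re = (G0 T - b s).re + n := by
      have := congrArg Complex.re hKt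
      rw [pow_re] at this
      rw [this]; simp; ring
    have j1 : |(2 : ℝ) ^ s * ((K s t).re - gp.re)| ≤ 1 := by
      rw [mul_sub, hKre, abs_le]
      have k1 := Int.floor_le (2 ^ s * gp.re - (G0 T - b s).re)
      have k2 := Int.lt_floor_add_one (2 ^ s * gp.re - (G0 T - b s).re)
      rw [← hn] at k1 k2
      constructor <;> linarith
    have j2 : |(K s t - gp).re| < ρ / 4 := by
      rw [abs_mul, abs_of_pos hp2] at j1
      rw [Complex.sub_re]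
      have : (2 : ℝ) ^ s * |(K s t).re - gp.re| < 2 ^ s * (ρ / 4) := by
        have := abs_nonneg C
        linarith
      exact lt_of_mul_lt_mul_left this hp2.le
    calc ‖K s t - gp‖ ≤ |(K s t - gp).re| + |(K s t - gp).im| := Complex.norm_le_abs_re_add_abs_im _
      _ < ρ / 4 + ρ / 2 := add_lt_add j2 i6
      _ < ρ := by linarith

section

variable {Q : Set ℂ} {Lf : Set ℂ → (ℂ → ℂ) → (ℂ → ℂ) → Prop} {th r : ℝ} {φ F ψ : ℕ → ℂ → ℂ} {ω α : ℕ → ℂ}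
  {G0 : ℂ → ℂ} {K : ℕ → ℂ → ℂ} {b : ℕ → ℂ} {I : Set ℕ} {gp : ℂ} {W : ℂ → ℂ} {ρ : ℝ}

/-- the functional equation at the point `gp + i ρ` -/
theorem fun_eq (hX : XS Q Lf th r φ F ω α) (hP : PS th φ F ω α ψ)
    (hG : DifferentiableOn ℂ G0 (Ss th 0)) (hG' : ∀ t ∈ Ss th 0, deriv G0 t ≠ 0)
    (p0 : ∀ t ∈ Ss th 0, G0 (t + Real.pi * Complex.I) = G0 t + 1 / 2)
    (hK : ∀ s ∈ I, ∀ t ∈ Ss th s, G0 (2 ^ s * t) = 2 ^ s * K s t + b s)
    (hρ : 0 < ρ) (dW : DifferentiableOn ℂ W (ball gp (2 * ρ)))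
    (hW : ∀ s ∈ I, ∀ t ∈ Ss th s, K s t ∈ ball gp (2 * ρ) → W (K s t) = ψ s t)
    (k m : ℕ) (hs : k + m ∈ I)
    (cl : ∀ x ∈ ball gp (2 * ρ), (∀ t : ℂ, t.re = Real.log r / 2 ^ (k + m) → (K (k + m) t).im < x.im) →
      W x ∈ φ (k + m) '' ball 0 1) (hm : 1 / (2 * 2 ^ m) < ρ / 2)
    {t : ℂ} (ht : t ∈ Ss th (k + m)) (hmax : ∀ u : ℂ, u.re = Real.log r / 2 ^ (k + m) → (K (k + m) u).im ≤ (K (k + m) t).im)
    (hd : ‖K (k + m) t - gp‖ < ρ / 2) :
    W (gp + ρ * Complex.I) ∈ φ (k + m) '' ball 0 1 ∧ ∃ y ∈ ball (0 : ℂ) 1, φ k y = FI F k m (W (gp + ρ * Complex.I)) ∧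
      2 * ‖y‖ ≤ 2 / (ρ / 2) * (1 / (2 * 2 ^ m)) := by
  set M : ℝ := (K (k + m) t).im with hM
  set O : Set ℂ := ball gp (2 * ρ) ∩ {x : ℂ | M < x.im} with hO
  have hOo : IsOpen O := isOpen_ball.inter (isOpen_lt continuous_const Complex.continuous_im)
  have hOc : Convex ℝ O := (convex_ball gp (2 * ρ)).inter (convex_halfSpace_im_gt M)
  have hWO : ∀ x ∈ O, W x ∈ φ (k + m) '' ball 0 1 :=
    fun x hx => cl x hx.1 (fun u hu => lt_of_le_of_lt (hmax u hu) hx.2)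
  set δ : ℂ := 1 / (2 * 2 ^ m) with hδ
  have hδr : δ = ((1 / (2 * 2 ^ m) : ℝ) : ℂ) := by rw [hδ]; push_cast; ring
  have hδn : ‖δ‖ = 1 / (2 * 2 ^ m) := by
    rw [hδr, Complex.norm_real, Real.norm_eq_abs, abs_of_pos (by positivity)]
  have hδi : δ.im = 0 := by rw [hδr, Complex.ofReal_im]
  -- the holomorphic inverse of `φ k`
  set j : ℂ → ℂ := Function.invFunOn (φ k) (ball 0 1) with hj
  have hjm : ∀ w ∈ φ k '' ball 0 1, j w ∈ ball (0 : ℂ) 1 ∧ φ k (j w) = w :=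
    fun w hw => ⟨Function.invFunOn_mem hw, Function.invFunOn_eq hw⟩
  have hjd : DifferentiableOn ℂ j (φ k '' ball 0 1) := Pool.Agent.H39.HO.inj_hol isOpen_ball (hX.dφ k) (hX.iφ k)
  have hjn : ∀ w ∈ φ k '' ball 0 1, j (-w) = - j w := by
    intro w hw
    obtain ⟨h1, h2⟩ := hjm w hw
    have h3 : - j w ∈ ball (0 : ℂ) 1 := by rwa [mem_ball_zero_iff, norm_neg, ← mem_ball_zero_iff]
    have h4 : φ k (- j w) = - w := by rw [hX.oφ k _ h1, h2]
    have h5 : -w ∈ φ k '' ball 0 1 := ⟨_, h3, h4⟩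
    exact hX.iφ k (hjm _ h5).1 h3 (by rw [(hjm _ h5).2, h4])
  set f : ℂ → ℂ := fun x => j (FI F k m (W x)) with hf
  have hfO : DifferentiableOn ℂ f O :=
    hjd.comp ((FI_diff hX k m).comp (dW.mono inter_subset_left) (fun x hx => hWO x hx)) (fun x hx => FI_mem hX k m (hWO x hx))
  set U : Set ℂ := O ∩ (fun x => x + δ) ⁻¹' O with hU
  have hUo : IsOpen U := hOo.inter (hOo.preimage (by fun_prop))
  have hUc : Convex ℝ U := hOc.inter (hOc.translate_preimage_left δ)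
  have hUO : ∀ x ∈ U, x ∈ O ∧ x + δ ∈ O := fun x hx => hx
  -- the functional equation on the strip
  have hfg : ∀ u ∈ Ss th (k + m), K (k + m) u ∈ O → f (K (k + m) u) = j (ψ k (2 ^ m * u)) := by
    intro u hu huO
    simp only [hf]
    rw [hW _ hs u hu huO.1, FI_psi hP k m hu]
  have hpc : (2 : ℂ) ^ m ≠ 0 := pow_ne_zero _ two_ne_zero
  have hpk : (2 : ℂ) ^ (k + m) ≠ 0 := pow_ne_zero _ two_ne_zero
  have hcre : ((Real.pi * Complex.I) / 2 ^ m : ℂ).re = 0 := by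
    have : ((Real.pi * Complex.I) / 2 ^ m : ℂ) = ((Real.pi / 2 ^ m : ℝ) : ℂ) * Complex.I := by push_cast; ring
    rw [this, Complex.re_ofReal_mul, Complex.I_re, mul_zero]
  have hc : ∀ u ∈ Ss th (k + m), u + (Real.pi * Complex.I) / 2 ^ m ∈ Ss th (k + m) ∧
      K (k + m) (u + (Real.pi * Complex.I) / 2 ^ m) = K (k + m) u + δ ∧
      j (ψ k (2 ^ m * (u + (Real.pi * Complex.I) / 2 ^ m))) = - j (ψ k (2 ^ m * u)) := by
    intro u hu
    have e1 : u + (Real.pi * Complex.I) / 2 ^ m ∈ Ss th (k + m) := Ss_add hu hcre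
    refine ⟨e1, ?_, ?_⟩
    · have e2 := hK _ hs _ e1
      have e3 := hK _ hs _ hu
      have e4 : (2 : ℂ) ^ (k + m) * (u + (Real.pi * Complex.I) / 2 ^ m) =
          2 ^ (k + m) * u + ((2 ^ k : ℤ) : ℂ) * (Real.pi * Complex.I) := by
        push_cast; rw [pow_add, mul_add, mul_div_assoc']; congr 1; field_simp
      rw [e4, G0_int p0 _ (mem_Ss.1 hu), e3] at e2
      have e5 : (2 : ℂ) ^ (k + m) * K (k + m) (u + (Real.pi * Complex.I) / 2 ^ m) = 2 ^ (k + m) * (K (k + m) u + δ) := by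
        have e6 : (2 : ℂ) ^ (k + m) * δ = ((2 ^ k : ℤ) : ℂ) / 2 := by
          rw [hδ]; push_cast; rw [pow_add]; field_simp
        rw [mul_add, e6]
        linear_combination -e2
      exact mul_left_cancel₀ hpk e5
    · have e2 : (2 : ℂ) ^ m * (u + (Real.pi * Complex.I) / 2 ^ m) = 2 ^ m * u + Real.pi * Complex.I := by
        field_simp
      have e3 : (2 : ℂ) ^ m * u ∈ Ss th k := by
        rw [mem_Ss] at hu ⊢
        rwa [← mul_assoc, ← pow_add]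
      obtain ⟨x, hx, -, e4⟩ := hP.lev k _ e3
      rw [e2, hP.per k _ e3, hjn _ ⟨x, hx, e4.symm⟩]
  -- a point of the strip over `U`
  have hopen := K_open hG hG' (hK _ hs) ht
  have hnb : K (k + m) '' (Ss th (k + m)) ∈ 𝓝 (K (k + m) t) := by
    rw [← hopen]
    exact Filter.image_mem_map ((open_Ss th (k + m)).mem_nhds ht)
  obtain ⟨η, hη, hηb⟩ := Metric.mem_nhds_iff.1 hnb
  set x1 : ℂ := K (k + m) t + ((min (η / 2) (ρ / 4) : ℝ) : ℂ) * Complex.I with hx1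
  have hη2 : 0 < min (η / 2) (ρ / 4) := lt_min (by linarith) (by linarith)
  have hx1n : ‖((min (η / 2) (ρ / 4) : ℝ) : ℂ) * Complex.I‖ = min (η / 2) (ρ / 4) := by
    rw [norm_mul, Complex.norm_I, mul_one, Complex.norm_real, Real.norm_eq_abs, abs_of_pos hη2]
  have hx1b : x1 ∈ ball (K (k + m) t) η := by
    rw [mem_ball, dist_eq_norm, hx1, add_sub_cancel_left, hx1n]
    exact lt_of_le_of_lt (min_le_left _ _) (by linarith)
  obtain ⟨u, hu, hux⟩ := hηb hx1b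
  have hx1im : M < x1.im := by
    rw [hx1, Complex.add_im, Complex.im_ofReal_mul, Complex.I_im, mul_one]; linarith
  have hx1d : ‖x1 - gp‖ < ρ := by
    have : x1 - gp = (K (k + m) t - gp) + ((min (η / 2) (ρ / 4) : ℝ) : ℂ) * Complex.I := by rw [hx1]; ring
    rw [this]
    refine lt_of_le_of_lt (norm_add_le _ _) ?_
    rw [hx1n]
    have := min_le_right (η / 2) (ρ / 4)
    linarith
  have hx1U : x1 ∈ U := by
    refine ⟨⟨?_, hx1im⟩, ⟨?_, ?_⟩⟩
    · rw [mem_ball, dist_eq_norm]; linarith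
    · rw [mem_ball, dist_eq_norm, show x1 + δ - gp = (x1 - gp) + δ by ring]
      refine lt_of_le_of_lt (norm_add_le _ _) ?_
      rw [hδn]; linarith
    · change M < (x1 + δ).im
      rw [Complex.add_im, hδi, add_zero]; exact hx1im
  have hmain := spread hG hG' (hK _ hs) hUo hUc hUO hfO hfg hc hu (by rw [hux]; exact hx1U)
  -- the point `gp + i ρ`
  set x0 : ℂ := gp + ρ * Complex.I with hx0
  have hx0i : ‖((ρ : ℝ) : ℂ) * Complex.I‖ = ρ := by
    rw [norm_mul, Complex.norm_I, mul_one, Complex.norm_real, Real.norm_eq_abs, abs_of_pos hρ]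
  have hball : ball x0 (ρ / 2) ⊆ O := by
    intro x hx
    rw [mem_ball, dist_eq_norm] at hx
    refine ⟨?_, ?_⟩
    · rw [mem_ball, dist_eq_norm, show x - gp = (x - x0) + ρ * Complex.I by rw [hx0]; ring]
      refine lt_of_le_of_lt (norm_add_le _ _) ?_
      rw [hx0i]; linarith
    · change M < x.im
      have e1 : |(x - x0).im| < ρ / 2 := lt_of_le_of_lt (Complex.abs_im_le_norm _) hx
      have e2 : |(K (k + m) t - gp).im| < ρ / 2 := lt_of_le_of_lt (Complex.abs_im_le_norm _) hd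
      rw [Complex.sub_im, abs_lt] at e1 e2
      have e3 : x0.im = gp.im + ρ := by rw [hx0, Complex.add_im, Complex.im_ofReal_mul, Complex.I_im, mul_one]
      rw [hM]
      linarith [e1.1, e2.2]
  have hx0O : x0 ∈ O := hball (mem_ball_self (by linarith))
  have hx0δ : x0 + δ ∈ ball x0 (ρ / 2) := by
    rw [mem_ball, dist_eq_norm, add_sub_cancel_left, hδn]; exact hm
  have hx0U : x0 ∈ U := ⟨hx0O, hball hx0δ⟩
  have hfB : ∀ x ∈ O, ‖f x‖ < 1 := fun x hx => by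
    have := (hjm _ (FI_mem hX k m (hWO x hx))).1
    rwa [mem_ball_zero_iff] at this
  refine ⟨hWO x0 hx0O, f x0, by rw [mem_ball_zero_iff]; exact hfB x0 hx0O, (hjm _ (FI_mem hX k m (hWO x0 hx0O))).2, ?_⟩
  have hsch := Complex.dist_le_div_mul_dist_of_mapsTo_ball (f := f) (c := x0) (z := x0 + δ) (R₁ := ρ / 2)
    (R₂ := 2) (hfO.mono hball) (by
      intro x hx
      rw [mem_closedBall, dist_eq_norm]
      refine le_trans (norm_sub_le _ _) ?_
      have := hfB x (hball hx)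
      have := hfB x0 hx0O
      linarith) hx0δ
  rw [dist_eq_norm, dist_eq_norm, add_sub_cancel_left, hδn, hmain x0 hx0U] at hsch
  have e1 : ‖- f x0 - f x0‖ = 2 * ‖f x0‖ := by
    rw [show - f x0 - f x0 = -(2 * f x0) by ring, norm_neg, norm_mul]; norm_num
  rw [e1] at hsch
  exact hsch

/-- step 6 -/
theorem end_core (hX : XS Q Lf th r φ F ω α) (hP : PS th φ F ω α ψ)
    (hG : DifferentiableOn ℂ G0 (Ss th 0)) (hG' : ∀ t ∈ Ss th 0, deriv G0 t ≠ 0)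
    (p0 : ∀ t ∈ Ss th 0, G0 (t + Real.pi * Complex.I) = G0 t + 1 / 2) (hI : I.Infinite)
    (hK : ∀ s ∈ I, ∀ t ∈ Ss th s, G0 (2 ^ s * t) = 2 ^ s * K s t + b s)
    (hρ : 0 < ρ) (dW : DifferentiableOn ℂ W (ball gp (2 * ρ)))
    (hW : ∀ s ∈ I, ∀ t ∈ Ss th s, K s t ∈ ball gp (2 * ρ) → W (K s t) = ψ s t)
    (hp : ∀ ε : ℝ, 0 < ε → ∃ s0, ∀ s ∈ I, s0 ≤ s → ∃ t : ℂ, t.re = Real.log r / 2 ^ s ∧ ‖K s t - gp‖ < ε)
    (cl : ∃ s0, ∀ s ∈ I, s0 ≤ s → ∀ x ∈ ball gp (2 * ρ), (∀ t : ℂ, t.re = Real.log r / 2 ^ s → (K s t).im < x.im) →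
      W x ∈ φ s '' ball 0 1) : False := by
  have h1 : Real.log th < Real.log r := Real.log_lt_log hX.th0 hX.thr
  have h2 : Real.log r < 0 := Real.log_neg (hX.th0.trans hX.thr) hX.r1
  obtain ⟨s1, hs1⟩ := near_top hG p0 h1 h2 hK hp (show 0 < ρ / 2 by linarith)
  obtain ⟨s2, hs2⟩ := cl
  -- the limits
  have key : ∀ k : ℕ, ∀ ε : ℝ, 0 < ε → ∃ m0, ∀ m, m0 ≤ m → k + m ∈ I → W (gp + ρ * Complex.I) ∈ φ (k + m) '' ball 0 1 ∧
      ‖FI F k m (W (gp + ρ * Complex.I))‖ < ε := by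
    intro k ε hε
    have hφ0 : φ k 0 = 0 := by
      have := hX.oφ k 0 (mem_ball_self one_pos)
      rw [neg_zero] at this
      exact self_eq_neg.1 this
    have hφc : ContinuousAt (φ k) 0 := (hX.dφ k).continuousOn.continuousAt (isOpen_ball.mem_nhds (mem_ball_self one_pos))
    obtain ⟨δ, hδ, hδ'⟩ := Metric.continuousAt_iff.1 hφc ε hε
    have hlim : ∀ c : ℝ, Tendsto (fun m : ℕ => c * (1 / (2 * 2 ^ m))) atTop (𝓝 0) := by
      intro c
      have := (tendsto_pow_atTop_nhds_zero_of_lt_one (by norm_num : (0 : ℝ) ≤ 1 / 2) (by norm_num)).const_mul (c / 2)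
      rw [mul_zero] at this
      refine this.congr (fun m => ?_)
      rw [one_div, inv_pow]; field_simp
    obtain ⟨m1, hm1⟩ := eventually_atTop.1 ((hlim 1).eventually_lt_const (show (0 : ℝ) < ρ / 2 by linarith))
    obtain ⟨m2, hm2⟩ := eventually_atTop.1 ((hlim (2 / (ρ / 2))).eventually_lt_const hδ)
    refine ⟨max (max m1 m2) (max s1 s2), ?_⟩
    intro m hm hmI
    have g1 : m1 ≤ m := le_trans (le_trans (le_max_left _ _) (le_max_left _ _)) hm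
    have g2 : m2 ≤ m := le_trans (le_trans (le_max_right _ _) (le_max_left _ _)) hm
    have g3 : s1 ≤ k + m := le_trans (le_trans (le_trans (le_max_left _ _) (le_max_right _ _)) hm) (Nat.le_add_left _ _)
    have g4 : s2 ≤ k + m := le_trans (le_trans (le_trans (le_max_right _ _) (le_max_right _ _)) hm) (Nat.le_add_left _ _)
    obtain ⟨t, ht, hmax, hd⟩ := hs1 _ hmI g3
    have e1 := hm1 m g1
    rw [one_mul] at e1
    obtain ⟨e2, y, -, e3, e4⟩ := fun_eq hX hP hG hG' p0 hK hρ dW hW k m hmI (hs2 _ hmI g4) e1 ht hmax hd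
    refine ⟨e2, ?_⟩
    have e5 := hm2 m g2
    have e6 := norm_nonneg y
    have e7 := hδ' (x := y) (by rw [dist_zero_right]; linarith)
    rwa [hφ0, dist_zero_right, e3] at e7
  -- `F 0 0 = 0`
  have h0 : (0 : ℂ) ∈ φ (0 + 1) '' ball 0 1 := by
    refine ⟨0, mem_ball_self one_pos, ?_⟩
    have := hX.oφ (0 + 1) 0 (mem_ball_self one_pos)
    rw [neg_zero] at this
    exact self_eq_neg.1 this
  have hcont := (hX.dF 0).continuousOn 0 h0
  apply hX.F0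
  rw [← norm_le_zero_iff]
  refine le_of_forall_pos_lt_add (fun ε hε => ?_)
  rw [zero_add]
  rw [Metric.continuousWithinAt_iff] at hcont
  obtain ⟨δ, hδ, hδ'⟩ := hcont (ε / 2) (by linarith)
  obtain ⟨a1, ha1⟩ := key 0 (ε / 2) (by linarith)
  obtain ⟨a2, ha2⟩ := key 1 δ hδ
  obtain ⟨s, hsI, hs⟩ := hI.exists_gt (a1 + a2 + 1)
  obtain ⟨m, rfl⟩ : ∃ m, s = m + 1 := ⟨s - 1, by omega⟩
  obtain ⟨b1, b2⟩ := ha1 (m + 1) (by omega) (by rw [zero_add]; exact hsI)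
  obtain ⟨b3, b4⟩ := ha2 m (by omega) (by rw [add_comm]; exact hsI)
  have c1 := hδ' (FI_mem hX 1 m b3) (by rw [dist_zero_right]; exact b4)
  rw [← FI_zero F m, dist_eq_norm] at c1
  calc ‖F 0 0‖ = ‖FI F 0 (m + 1) (W (gp + ρ * Complex.I)) - (FI F 0 (m + 1) (W (gp + ρ * Complex.I)) - F 0 0)‖ := by
        congr 1; ring
    _ ≤ ‖FI F 0 (m + 1) (W (gp + ρ * Complex.I))‖ + ‖FI F 0 (m + 1) (W (gp + ρ * Complex.I)) - F 0 0‖ := norm_sub_le _ _
    _ < ε := by linarith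

end

end Pool.Agent.H66.GEO.EN

namespace Pool.Agent.H66.GEO

/-- step 6 in terms of `G` and the sign `e` -/
theorem geo_end {Q : Set ℂ} {Lf : Set ℂ → (ℂ → ℂ) → (ℂ → ℂ) → Prop} {th r : ℝ} {φ F ψ G : ℕ → ℂ → ℂ} {ω α : ℕ → ℂ}
    (hX : XS Q Lf th r φ F ω α) (hP : PS th φ F ω α ψ)
    (hG : DifferentiableOn ℂ (G 0) (Ss th 0)) (hG' : ∀ t ∈ Ss th 0, deriv (G 0) t ≠ 0)
    (p0 : ∀ t ∈ Ss th 0, G 0 (t + Real.pi * Complex.I) = G 0 t + 1 / 2)
    (I : Set ℕ) (hI : I.Infinite) (e : ℝ) (b : ℕ → ℂ)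
    (hb : ∀ s ∈ I, ∀ t ∈ Ss th s, G 0 (2 ^ s * t) = e * 2 ^ s * G s t + b s)
    (gp : ℂ) (ρ : ℝ) (hρ : 0 < ρ) (W : ℂ → ℂ) (dW : DifferentiableOn ℂ W (ball gp (2 * ρ)))
    (hW : ∀ s ∈ I, ∀ t ∈ Ss th s, e * G s t ∈ ball gp (2 * ρ) → W (e * G s t) = ψ s t)
    (hp : ∀ ε : ℝ, 0 < ε → ∃ s0, ∀ s ∈ I, s0 ≤ s → ∃ t : ℂ, t.re = Real.log r / 2 ^ s ∧ ‖e * G s t - gp‖ < ε)
    (cl : ∃ s0, ∀ s ∈ I, s0 ≤ s → ∀ x ∈ ball gp (2 * ρ),
      (∀ t : ℂ, t.re = Real.log r / 2 ^ s → (e * G s t).im < x.im) → W x ∈ φ s '' ball 0 1) : False :=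
  EN.end_core (b := b) (K := fun s t => e * G s t) hX hP hG hG' p0 hI (fun s hs t ht => by rw [hb s hs t ht]; ring) hρ dW hW hp cl

end Pool.Agent.H66.GEO
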