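import Pool.Agent.H66.GEO.On

/-!
# GEO, module EX1: the exit point (think 1848, section 5)

PROOF of `ex1`. `x ∈ ball g (2 ρ)` above `L`, `I x ∉ Y`. `line_hit` (`c = x.re`): `tb`, the highest point `xb = K tb` of `L` on the vertical line of `x`; `xb.im < x.im` (hypothesis); `‖xb - g‖ < 3 ρ`:
`|re| < 2 ρ`, `|im| ≤ ρ / 2` (`ht`). The segment `[xb, x]` lies in the ball (convex). JUST ABOVE `xb`: `K` is open at `tb` (`LS.dG`: `deriv K tb ≠ 0`): points `y` near `xb` are `y = K t`, `t` near `tb`; if `y` is above `xb`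
on the line then `nu K l y = 1` (`nu_above`), so `t.re < l`: otherwise `t.re = l` contradicts the choice of `tb` (highest) and `t.re > l` gives `nu = 0` (`nu_out`); then `I y = ψ t ∈ Y` (`on_dis` with `γ = (1, 0)`, `ins`).
FIRST EXIT: the set of `y ∈ (xb, x]` on the line with `I y ∉ Y` is closed in `(xb, x]` (`Y` open, `I` continuous), contains `x` and stays away from `xb`: let `x'` be its lowest point. `I x' ∉ Y` and `I x' ∈ closure Y` (points
below), so `I x' ∈ frontier Y = ψ '' {re = l}`: `t'`.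
-/

set_option autoImplicit false

open Filter Topology Metric Set

namespace Pool.Agent.H66.GEO

variable {Q : Set ℂ} {Lf : Set ℂ → (ℂ → ℂ) → (ℂ → ℂ) → Prop} {κ l : ℝ} {ψ K : ℂ → ℂ} {Y : Set ℂ} {g : ℂ} {ρ : ℝ} {I : ℂ → ℂ}

/-- just above the highest point -/
theorem ex_just (h : ON Q Lf κ l ψ K Y g ρ I) {tb : ℂ} (hb : tb.re = l) (hm : K tb ∈ ball g (3 * ρ))
    (htop : ∀ t : ℂ, t.re = l → (K t).re = (K tb).re → (K t).im ≤ (K tb).im) :
    ∃ δ : ℝ, 0 < δ ∧ ∀ y : ℂ, y.re = (K tb).re → (K tb).im < y.im → y.im < (K tb).im + δ → I y ∈ Y := by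
  have hw := on_wk h
  have hmb : tb ∈ St κ 0 := ⟨by rw [hb]; exact h.h1, by rw [hb]; exact h.h2⟩
  have hn : St κ 0 ∈ 𝓝 tb := (st_open κ 0).mem_nhds hmb
  have hs : HasStrictDerivAt K (deriv K tb) tb := ((h.ls.dG h.lf).1.analyticAt hn).hasStrictDerivAt
  have hmap : map K (𝓝 tb) = 𝓝 (K tb) := hs.map_nhds_eq ((h.ls.dG h.lf).2 tb hmb)
  have himg : K '' (St κ 0) ∈ 𝓝 (K tb) := by
    rw [← hmap]
    exact image_mem_map hn
  obtain ⟨δ, hδ, hball⟩ := Metric.mem_nhds_iff.1 (inter_mem himg (isOpen_ball.mem_nhds hm))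
  refine ⟨δ, hδ, fun y hy1 hy2 hy3 => ?_⟩
  have hyd : y ∈ ball (K tb) δ := by
    rw [mem_ball, Complex.dist_of_re_eq hy1, Real.dist_eq, abs_of_pos (by linarith)]
    linarith
  obtain ⟨⟨t, ht, rfl⟩, hyg⟩ := hball hyd
  have h1 : nu K l (K t) = 1 := nu_above hw h.h1 h.h2 htop hy1 hy2
  have h2 : t.re < l := by
    rcases lt_trichotomy t.re l with h3 | h3 | h3
    · exact h3
    · exact absurd (htop t h3 hy1) (not_le.2 hy2)
    · rw [nu_out hw h.h1 h.h2 ht.2 h3] at h1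
      exact absurd h1 zero_ne_one
  have h4 : I (K t) = ψ t := on_dis h (γ := (1, 0)) lo_one hyg ht (by simp [ac])
  rw [h4]
  exact h.ins t ht.1 h2

theorem ex1 (h : ON Q Lf κ l ψ K Y g ρ I) {x : ℂ} (hx : x ∈ ball g (2 * ρ)) (hab : ∀ t : ℂ, t.re = l → (K t).im < x.im)
    (hn : I x ∉ Y) : ∃ tb t' x' : ℂ, XI l ψ K Y g ρ I tb t' x' := by
  have hw := on_wk h
  have hρ := h.ρ0
  obtain ⟨tb, hb, hre, htop⟩ := line_hit hw h.h1 h.h2 x.re
  have hbx : (K tb).im < x.im := hab tb hb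
  have hxr : |x.re - g.re| < 2 * ρ := by
    have h1 := Complex.abs_re_le_norm (x - g)
    rw [Complex.sub_re] at h1
    rw [mem_ball, dist_eq_norm] at hx
    linarith
  have hmb : K tb ∈ ball g (3 * ρ) := by
    rw [mem_ball, dist_eq_norm]
    have h1 := Complex.norm_le_abs_re_add_abs_im (K tb - g)
    rw [Complex.sub_re, Complex.sub_im, hre] at h1
    have h2 := h.ht tb hb
    linarith
  have hmx : x ∈ ball g (3 * ρ) := ball_subset_ball (by linarith) hx
  obtain ⟨δ, hδ, hjust⟩ := ex_just h hb hmb (fun t h1 h2 => htop t h1 (h2.trans hre))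
  rw [hre] at hjust
  -- the vertical line
  obtain ⟨Z, hZ⟩ : ∃ Z : ℝ → ℂ, ∀ τ, Z τ = ⟨x.re, τ⟩ := ⟨fun τ => ⟨x.re, τ⟩, fun τ => rfl⟩
  have hZc : Continuous Z := by
    have : Z = fun τ : ℝ => (x.re : ℂ) + τ * Complex.I := by
      funext τ
      rw [hZ]
      apply Complex.ext <;> simp
    rw [this]
    fun_prop
  have hZx : Z x.im = x := by rw [hZ]
  have hZb : Z (K tb).im = K tb := by rw [hZ, ← hre]
  have hZm : ∀ τ, (K tb).im ≤ τ → τ ≤ x.im → Z τ ∈ ball g (3 * ρ) := by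
    intro τ h1 h2
    refine (convex_ball g (3 * ρ)).segment_subset hmb hmx ?_
    have h3 : τ ∈ segment ℝ (K tb).im x.im := by
      rw [segment_eq_Icc (by linarith)]
      exact ⟨h1, h2⟩
    obtain ⟨a, b, ha, hb', hab', hτ⟩ := h3
    refine ⟨a, b, ha, hb', hab', ?_⟩
    rw [hZ]
    apply Complex.ext
    · simp only [Complex.add_re, Complex.real_smul, Complex.mul_re, Complex.ofReal_re, Complex.ofReal_im, zero_mul,
        sub_zero, hre]
      rw [← add_mul, hab', one_mul]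
    · simp only [Complex.add_im, Complex.real_smul, Complex.mul_im, Complex.ofReal_re, Complex.ofReal_im, zero_mul,
        add_zero]
      exact hτ
  have hIc : ContinuousOn I (ball g (3 * ρ)) := (h.ls.dH h.li).1.continuousOn
  have hIZ : ContinuousOn (fun τ => I (Z τ)) (Icc (K tb).im x.im) :=
    hIc.comp hZc.continuousOn fun τ hτ => hZm τ hτ.1 hτ.2
  -- the set of exits
  have hδx : (K tb).im + δ ≤ x.im := by
    by_contra hcon
    rw [not_le] at hcon
    exact hn (hjust x rfl hbx hcon)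
  obtain ⟨T, hT⟩ : ∃ T : Set ℝ, T = Icc ((K tb).im + δ) x.im ∩ (fun τ => I (Z τ)) ⁻¹' Yᶜ := ⟨_, rfl⟩
  have hTc : IsCompact T := by
    have h1 : IsClosed T := by
      rw [hT]
      exact (hIZ.mono (Icc_subset_Icc (by linarith) le_rfl)).preimage_isClosed_of_isClosed isClosed_Icc
        h.Yo.isClosed_compl
    exact isCompact_Icc.of_isClosed_subset h1 (by rw [hT]; exact inter_subset_left)
  have hTn : T.Nonempty := ⟨x.im, by
    rw [hT]
    refine ⟨⟨hδx, le_rfl⟩, ?_⟩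
    rw [mem_preimage, hZx]
    exact hn⟩
  obtain ⟨τ₀, hτ₀, hmin⟩ := hTc.exists_isLeast hTn
  have hτ₀' := hτ₀
  rw [hT] at hτ₀'
  have hbelow : ∀ τ, (K tb).im < τ → τ < τ₀ → I (Z τ) ∈ Y := by
    intro τ h1 h2
    rcases lt_or_ge τ ((K tb).im + δ) with h3 | h3
    · refine hjust (Z τ) (by rw [hZ]) ?_ ?_
      · rw [hZ]; exact h1
      · rw [hZ]; exact h3
    · by_contra hcon
      have h4 : τ ∈ T := by
        rw [hT]
        exact ⟨⟨h3, h2.le.trans hτ₀'.1.2⟩, hcon⟩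
      exact absurd (hmin h4) (not_le.2 h2)
  have hout : I (Z τ₀) ∉ Y := hτ₀'.2
  have hcl : I (Z τ₀) ∈ closure Y := by
    have h1 : ContinuousWithinAt (fun τ => I (Z τ)) (Icc (K tb).im x.im) τ₀ :=
      hIZ τ₀ ⟨by linarith [hτ₀'.1.1], hτ₀'.1.2⟩
    have h2 : Ioo (K tb).im τ₀ ⊆ Icc (K tb).im x.im := fun τ hτ => ⟨hτ.1.le, hτ.2.le.trans hτ₀'.1.2⟩
    have h3 : Tendsto (fun τ => I (Z τ)) (𝓝[Ioo (K tb).im τ₀] τ₀) (𝓝 (I (Z τ₀))) := h1.mono h2
    have h4 : (𝓝[Ioo (K tb).im τ₀] τ₀).NeBot := by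
      refine mem_closure_iff_nhdsWithin_neBot.1 ?_
      rw [closure_Ioo (by linarith [hτ₀'.1.1] : (K tb).im ≠ τ₀)]
      exact ⟨by linarith [hτ₀'.1.1], le_rfl⟩
    exact mem_closure_of_tendsto h3 (eventually_mem_nhdsWithin.mono fun τ hτ => hbelow τ hτ.1 hτ.2)
  have hfr : I (Z τ₀) ∈ frontier Y := by
    rw [h.Yo.frontier_eq]
    exact ⟨hcl, hout⟩
  rw [h.fr] at hfr
  obtain ⟨t', ht', ht''⟩ := hfr
  have hZre : ∀ τ, (Z τ).re = x.re := fun τ => by rw [hZ]
  have hZim : ∀ τ, (Z τ).im = τ := fun τ => by rw [hZ]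
  refine ⟨tb, t', Z τ₀, ?_⟩
  refine
    { b := hb
      e := ht'
      re := by rw [hZre, hre]
      im := by
        rw [hZim]
        linarith [hτ₀'.1.1]
      top := fun t h1 h2 => htop t h1 (by rw [h2, hZre])
      mb := hmb
      mx := hZm τ₀ (by linarith [hτ₀'.1.1]) hτ₀'.1.2
      ins := ?_
      hx := ht''.symm }
  intro y h1 h2 h3
  rw [hZre] at h1
  rw [hZim] at h3
  have h4 : y = Z y.im := by
    rw [hZ, ← h1]
  rw [h4]
  exact hbelow y.im h2 h3

end Pool.Agent.H66.GEO
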