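import Pool.Agent.H66.GEO.On

/-!
# GEO, module EX2a: the affine map at the exit point (think 1848, section 5)

PROOF of `ex2a`. `loop2` for the lifts `id` of `I` (on the ball) and `K` of `ψ`, linked at `(K t0, t0)` (`lk`), at the pair `(x', t')` (`XI.hx`): `γ ∈ LO Lf (ball ..) I id = LO Lf (St κ 0) ψ K` (`on_lo`),
`x' = ac γ (K t')`, and `v = ac γ (K v')` for `v` near `x'`, `v'` near `t'` with `I v = ψ v'`. `|γ.1| = 1`: `lo_scal` with `t = 1` (`on_one`).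
Disjointness: if `ac γ (K t1) = K t2`, `t1.re = t2.re = l`: `dis` for the lifts `ac γ ∘ K` (at `t1`) and `K` (at `t2`): `ψ t1 = ψ t2`, so `t2 = t1 + 2 π i k`; for `v` near `t1`,
`v' = v + 2 π i k` near `t2`: `ac γ (K v) = K v' = K v + k`, so `γ = (1, k)` (`aff_id`). Then `x' = K t' + k = K (t' + 2 π i k)` is on the line of `x'`, above the highest point `K tb`: contradiction.
-/

set_option autoImplicit false

open Filter Topology Metric Set

namespace Pool.Agent.H66.GEO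

variable {Q : Set ℂ} {Lf : Set ℂ → (ℂ → ℂ) → (ℂ → ℂ) → Prop} {κ l : ℝ} {ψ K : ℂ → ℂ} {Y : Set ℂ} {g : ℂ} {ρ : ℝ} {I : ℂ → ℂ}

theorem ex2a (h : ON Q Lf κ l ψ K Y g ρ I) {tb t' x' : ℂ} (hx : XI l ψ K Y g ρ I tb t' x') :
    ∃ γ ∈ LO Lf (St κ 0) ψ K, (γ.1 = 1 ∨ γ.1 = -1) ∧ x' = ac γ (K t') ∧
      (∃ ε : ℝ, 0 < ε ∧ ∀ v v' : ℂ, ‖v - x'‖ < ε → ‖v' - t'‖ < ε → I v = ψ v' → v = ac γ (K v')) ∧
      ∀ t1 t2 : ℂ, t1.re = l → t2.re = l → ac γ (K t1) ≠ K t2 := by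
  have hm : ∀ t : ℂ, t.re = l → t ∈ St κ 0 := fun t ht => ⟨by rw [ht]; exact h.h1, by rw [ht]; exact h.h2⟩
  obtain ⟨t0, ht0, ht0'⟩ := h.lk
  obtain ⟨γ, h1, h2, ε, h3, h4⟩ := loop2 h.ls h.li h.lf (u := K t0) (u' := t0) (w := x') (w' := t')
    (ball_subset_ball (by linarith [h.ρ0]) ht0') (hm t0 ht0) rfl hx.mx (hm t' hx.e) hx.hx
  rw [on_lo h] at h1
  have hab : |γ.1| = 1 := by
    by_contra hne
    exact one_ne_zero (lo_scal h.ls h.lf ⟨t', hm t' hx.e⟩ h1 hne (on_one h))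
  obtain ⟨d1, hd1, hd1'⟩ := Metric.mem_nhds_iff.1 (isOpen_ball.mem_nhds hx.mx)
  obtain ⟨d2, hd2, hd2'⟩ := Metric.mem_nhds_iff.1 ((st_open κ 0).mem_nhds (hm t' hx.e))
  refine ⟨γ, h1, eq_or_eq_neg_of_abs_eq hab, h2, ⟨min ε (min d1 d2), lt_min h3 (lt_min hd1 hd2), ?_⟩, ?_⟩
  · intro v v' hv hv' he
    have e1 : v ∈ ball g (3 * ρ) := by
      refine hd1' ?_
      rw [mem_ball, dist_eq_norm]
      exact hv.trans_le ((min_le_right _ _).trans (min_le_left _ _))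
    have e2 : v' ∈ St κ 0 := by
      refine hd2' ?_
      rw [mem_ball, dist_eq_norm]
      exact hv'.trans_le ((min_le_right _ _).trans (min_le_right _ _))
    exact h4 v e1 v' e2 (hv.trans_le (min_le_left _ _)) (hv'.trans_le (min_le_left _ _)) he
  · intro t1 t2 ht1 ht2 he
    have m1 := hm t1 ht1
    have m2 := hm t2 ht2
    obtain ⟨f1, δ, f2, f3⟩ := h.ls.dis (lo_gm h.ls h.lf h1).2 h.lf t1 m1 t2 m2 he
    obtain ⟨k, hk⟩ := h.inj t1 m1 t2 m2 f1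
    have hw := on_wk h
    have hγ : γ = (1, (k : ℂ)) := by
      refine aff_id (st_open κ 0) (h.ls.dG h.lf).1 m1 ((h.ls.dG h.lf).2 t1 m1) ?_
      filter_upwards [(st_open κ 0).mem_nhds m1, ball_mem_nhds t1 f2] with v v1 v2
      rw [mem_ball, dist_eq_norm] at v2
      have e3 : v + 2 * Real.pi * Complex.I * k ∈ St κ 0 := (st_per k).2 v1
      have e4 : ψ v = ψ (v + 2 * Real.pi * Complex.I * k) := by
        refine (gm_dis h.ls h.lf (lo_gm h.ls h.lf (on_int h k)) v1 e3 ?_)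
        rw [wk_per hw v1 k]
        simp [ac]
      have e5 := f3 v v1 _ e3 v2 (by rw [hk, add_sub_add_right_eq_sub]; exact v2) e4
      rw [e5, wk_per hw v1 k]
      simp [ac]
    have e6 : x' = K (t' + 2 * Real.pi * Complex.I * k) := by
      rw [h2, hγ, wk_per hw (hm t' hx.e) k]
      simp [ac]
    have e7 : (t' + 2 * Real.pi * Complex.I * k).re = l := by
      rw [← hx.e]
      simp
    have e8 := hx.top _ e7 (by rw [← e6])
    rw [← e6] at e8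
    exact absurd hx.im (not_lt.2 e8)

end Pool.Agent.H66.GEO
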