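import Pool.Agent.H66.GEO.On
import Pool.Agent.H39.HO.PB
import Pool.Agent.H24.GEO.Ex4

/-!
# GEO, module EX4: the collar of `W` and its lift (think 1848, section 5, case `a = -1`)

`W = φW '' ball 0 1` with the collar `1 - d < ‖x‖ < 1` off `Q`, `W ⊆ Y`, `W` disjoint from `I '' [K tb, x']`, `0 ∈ W`, and a point `t1`, `t1.re = l`, `ψ t1 ∉ W`, such that `ψ t ∈ W` for `t` near `t1`, `t.re < l` (module TP).
PROOF of `ex4a`. `ac (iv γ) z = γ.2 - z` for `γ.1 = -1`. By `n2`, `dj` and `nu_loc`: `nu K l (γ.2 - K t0) = 1` for `t0` near `t1`. Choose `t0` near `t1`, `t0.re < l`, also so that `ψ t0 ∉ φW '' closedBall 0 (1 - d)` (compact subset of `W`,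
`ψ t1 ∉ W`). So `ψ t0 = φW x0`, `1 - d < ‖x0‖ < 1`, `x0 = exp u0`. `LS.ext` gives `G'` lifting `φW ∘ exp` with `G' u0 = K t0`. `LO` of `G'` = `LO` of `K` (`lo_trans`).
The image `M = G' '' St` is preconnected. OFF `L`: `G' u = K t`, `t.re = l`, gives `φW (exp u) = ψ t ∉ Y` (`dis`, `out`), but `φW (exp u) ∈ W ⊆ Y`. OFF `L''`: `G' u = ac γ (K t)` (i.e. `γ.2 - G' u = K t`): the same with `gm_dis`.
OFF `[K tb, x'] + Z`: `G' u + k = y`, `(1, k) ∈ LO` (`on_int`): `φW (exp u) = I y`, but `W` is disjoint from `I '' [K tb, x']`. So `nu K l` is constant `= nu K l (K t0) = 1` (`nu_in`) on `M` (`nu_const`) and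
`nu K l (γ.2 - ·)` is constant `= 1` on `M`.
PROOF of `ex4b`. `gal` and `sub` (`k t = t + 2 π i`): `G' (t + 2 π i) = ac τ (G' t)`, `τ.1 ≠ 0`, `τ ∈ LO` (`loop`, `aff_id`). `|τ.1| = 1` (`lo_scal` with `(1, 1)`). `τ.1 = -1` or `τ = (1, 0)`: `G' (t + 4 π i) = G' t`, so by `typ` (`φ = φW`)
`φW x ≠ 0` on the disc: against `0 ∈ W`. So `τ = (1, b')`, `b' ≠ 0`. Heights: `nu K l (G' u) = 1` gives `min Im L ≤ Im (G' u)` (else `nu_low`), `nu K l (γ.2 - G' u) = 1` gives `Im (G' u) ≤ γ.2.im - min Im L`; `G' (u + 2 π i n) =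
G' u + n b'`, so `b'` is real. `lo_gen` (`t = 1`, `ρ = b'`): `1 = m e`, `b' = n e`: `m b' = n`, `G' (u + 2 π i m) = G' u + n`, `m ≠ 0`, `n ≠ 0`.
-/

set_option autoImplicit false

open Filter Topology Metric Set

namespace Pool.Agent.H66.GEO

/-- the window `W` (result of module TP), without marked point -/
structure WX (Q : Set ℂ) (κ l : ℝ) (ψ : ℂ → ℂ) (Y A W : Set ℂ) (φW : ℂ → ℂ) (d : ℝ) (t1 : ℂ) (ε : ℝ) : Prop where
  d0 : 0 < d
  d1 : d < 1
  dif : DifferentiableOn ℂ φW (ball 0 1)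
  inj : InjOn φW (ball 0 1)
  im : φW '' ball 0 1 = W
  bdd : Bornology.IsBounded W
  sub : W ⊆ Y \ A
  off : ∀ x ∈ ball (0 : ℂ) 1, 1 - d < ‖x‖ → φW x ∉ Q
  tl : t1.re = l
  ε0 : 0 < ε
  bl : ball t1 ε ⊆ St κ 0
  inn : ∀ t ∈ ball t1 ε, t.re < l → ψ t ∈ W

/-- the window `W` (result of module TP) -/
structure WW (Q : Set ℂ) (κ l : ℝ) (ψ : ℂ → ℂ) (Y A W : Set ℂ) (φW : ℂ → ℂ) (d : ℝ) (t1 : ℂ) (ε : ℝ) : Prop
    extends WX Q κ l ψ Y A W φW d t1 ε where
  zer : (0 : ℂ) ∈ W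

variable {Q : Set ℂ} {Lf : Set ℂ → (ℂ → ℂ) → (ℂ → ℂ) → Prop} {κ l : ℝ} {ψ K : ℂ → ℂ} {Y : Set ℂ} {g : ℂ} {ρ : ℝ} {I : ℂ → ℂ}

private theorem inj_der {f : ℂ → ℂ} {A : Set ℂ} (hA : IsOpen A) (hf : DifferentiableOn ℂ f A) (hi : InjOn f A) {z : ℂ} (hz : z ∈ A) :
    deriv f z ≠ 0 := by
  have h1 := Pool.Agent.H39.HO.inj_hol hA hf hi
  have hfz : f z ∈ f '' A := mem_image_of_mem f hz
  have hfAo : IsOpen (f '' A) := Pool.Agent.H39.HO.inj_open hA hf hi subset_rfl hA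
  have hgz : Function.invFunOn f A (f z) = z :=
    hi (Function.invFunOn_mem hfz) hz (Function.invFunOn_eq hfz)
  have hdg : HasDerivAt (Function.invFunOn f A) (deriv (Function.invFunOn f A) (f z)) (f z) :=
    (h1.differentiableAt (hfAo.mem_nhds hfz)).hasDerivAt
  have hdf : HasDerivAt f (deriv f z) (Function.invFunOn f A (f z)) := by
    rw [hgz]
    exact (hf.differentiableAt (hA.mem_nhds hz)).hasDerivAt
  have hcomp := hdf.comp (f z) hdg
  have hid : HasDerivAt (f ∘ Function.invFunOn f A) 1 (f z) := by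
    refine (hasDerivAt_id (f z)).congr_of_eventuallyEq ?_
    filter_upwards [hfAo.mem_nhds hfz] with u hu
    exact Function.invFunOn_eq hu
  have hmul := hcomp.unique hid
  intro h0
  rw [h0, zero_mul] at hmul
  exact zero_ne_one hmul

theorem ex4a (h : ON Q Lf κ l ψ K Y g ρ I) {tb t' x' : ℂ} (hx : XI l ψ K Y g ρ I tb t' x') {γ : ℝ × ℂ}
    (hγ : EG Lf κ l ψ K t' x' γ) (hm : γ.1 = -1) {W : Set ℂ} {φW : ℂ → ℂ} {d : ℝ} {t1 : ℂ} {ε : ℝ}
    (hW : WX Q κ l ψ Y (I '' segment ℝ (K tb) x') W φW d t1 ε) :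
    ∃ G' : ℂ → ℂ, Lf (St (Real.log (1 - d)) 0) (fun t => φW (Complex.exp t)) G' ∧
      LO Lf (St (Real.log (1 - d)) 0) (fun t => φW (Complex.exp t)) G' = LO Lf (St κ 0) ψ K ∧
      ∀ u ∈ St (Real.log (1 - d)) 0, nu K l (G' u) = 1 ∧ nu K l (γ.2 - G' u) = 1 ∧
        (∀ t : ℂ, t.re = l → G' u ≠ K t ∧ γ.2 - G' u ≠ K t) ∧
        ∀ k : ℤ, ∀ y ∈ segment ℝ (K tb) x', G' u + k ≠ y := by
  have hwk := on_wk h
  have hls := h.ls
  have hacg : ∀ z : ℂ, ac γ z = γ.2 - z := by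
    intro z
    simp only [ac, hm]
    push_cast
    ring
  have hiv : ∀ z : ℂ, ac (iv γ) z = γ.2 - z := by
    intro z
    simp only [ac, iv, hm]
    push_cast
    ring
  have h1d : 0 < 1 - d := by linarith [hW.d1]
  -- the point `t0`
  have hKc : ContinuousAt K t1 :=
    (((hls.dG h.lf).1 t1 (hW.bl (mem_ball_self hW.ε0))).differentiableAt
      ((st_open κ 0).mem_nhds (hW.bl (mem_ball_self hW.ε0)))).continuousAt
  have hψc : ContinuousAt ψ t1 :=
    (((hls.dH h.lf).1 t1 (hW.bl (mem_ball_self hW.ε0))).differentiableAt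
      ((st_open κ 0).mem_nhds (hW.bl (mem_ball_self hW.ε0)))).continuousAt
  have hoff1 : ∀ t : ℂ, t.re = l → K t ≠ γ.2 - K t1 := by
    intro t ht he
    apply hγ.dj t1 t hW.tl ht
    rw [hacg, he]
  have hn1 : nu K l (γ.2 - K t1) = 1 := by
    have := hγ.n2 t1 hW.tl
    rwa [hiv] at this
  have hev1 : ∀ᶠ t in 𝓝 t1, nu K l (γ.2 - K t) = 1 := by
    have h3 := nu_loc hwk h.h1 h.h2 hoff1
    rw [hn1] at h3
    have h4 : ContinuousAt (fun t => γ.2 - K t) t1 := continuousAt_const.sub hKc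
    exact h4.eventually h3
  have hcb : closedBall (0 : ℂ) (1 - d) ⊆ ball 0 1 := closedBall_subset_ball (by linarith [hW.d0])
  have hcpt : IsCompact (φW '' closedBall 0 (1 - d)) :=
    (isCompact_closedBall _ _).image_of_continuousOn (hW.dif.continuousOn.mono hcb)
  have hψt1 : ψ t1 ∉ Y := h.out t1 hW.tl.ge (by rw [hW.tl]; exact h.h2)
  have hnot : ψ t1 ∉ φW '' closedBall 0 (1 - d) := by
    intro hmem
    apply hψt1
    have h5 : ψ t1 ∈ W := by
      rw [← hW.im]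
      exact image_mono hcb hmem
    exact (hW.sub h5).1
  have hev2 : ∀ᶠ t in 𝓝 t1, ψ t ∉ φW '' closedBall 0 (1 - d) :=
    hψc.eventually (hcpt.isClosed.isOpen_compl.mem_nhds hnot)
  obtain ⟨δ, hδ, hball⟩ := Metric.eventually_nhds_iff_ball.1 (hev1.and (hev2.and (ball_mem_nhds t1 hW.ε0)))
  set t0 : ℂ := t1 - ((δ / 2 : ℝ) : ℂ) with ht0
  have ht0b : t0 ∈ ball t1 δ := by
    rw [mem_ball, dist_eq_norm, ht0, sub_sub_cancel_left, norm_neg, Complex.norm_real, Real.norm_of_nonneg (by positivity)]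
    linarith
  have ht0re : t0.re < l := by
    rw [ht0, Complex.sub_re, Complex.ofReal_re, hW.tl]
    linarith
  obtain ⟨he1, he2, he3⟩ := hball t0 ht0b
  have ht0m : t0 ∈ St κ 0 := hW.bl he3
  have hψW : ψ t0 ∈ W := hW.inn t0 he3 ht0re
  obtain ⟨x0, hx0, hx0e⟩ : ψ t0 ∈ φW '' ball 0 1 := by rw [hW.im]; exact hψW
  have hx0n : 1 - d < ‖x0‖ := by
    by_contra hle
    push Not at hle
    exact he2 ⟨x0, by rwa [mem_closedBall_zero_iff], hx0e⟩
  have hx0z : x0 ≠ 0 := by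
    intro h0
    rw [h0, norm_zero] at hx0n
    linarith
  have hx01 : ‖x0‖ < 1 := by rwa [mem_ball_zero_iff] at hx0
  set S' : Set ℂ := St (Real.log (1 - d)) 0 with hS'
  have hu0 : Complex.log x0 ∈ S' := by
    refine ⟨?_, ?_⟩
    · rw [Complex.log_re]
      exact Real.log_lt_log h1d hx0n
    · rw [Complex.log_re]
      exact Real.log_neg (norm_pos_iff.2 hx0z) hx01
  have hexp : ∀ u ∈ S', Complex.exp u ∈ ball (0 : ℂ) 1 ∧ 1 - d < ‖Complex.exp u‖ := by
    rintro u ⟨hu1, hu2⟩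
    rw [mem_ball_zero_iff, Complex.norm_exp, ← Real.log_lt_iff_lt_exp h1d]
    exact ⟨Real.exp_lt_one_iff.2 hu2, hu1⟩
  have hHW : ∀ u ∈ S', φW (Complex.exp u) ∈ W := fun u hu => by
    rw [← hW.im]
    exact mem_image_of_mem _ (hexp u hu).1
  have hdH : DifferentiableOn ℂ (fun t => φW (Complex.exp t)) S' := by
    refine hW.dif.comp Complex.differentiable_exp.differentiableOn ?_
    intro u hu
    exact (hexp u hu).1
  obtain ⟨G', hG', hG0⟩ := hls.ext h.lf S' (fun t => φW (Complex.exp t)) t0 (Complex.log x0) (st_open _ _) (st_conv _ _)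
    hdH (by
      intro v hv
      refine ⟨hW.off _ (hexp v hv).1 (hexp v hv).2, ?_⟩
      have h6 : HasDerivAt φW (deriv φW (Complex.exp v)) (Complex.exp v) :=
        (hW.dif.differentiableAt (isOpen_ball.mem_nhds (hexp v hv).1)).hasDerivAt
      have h7 := h6.comp v (Complex.hasDerivAt_exp v)
      have h8 : deriv (fun t => φW (Complex.exp t)) v = deriv φW (Complex.exp v) * Complex.exp v := h7.deriv
      rw [h8]
      exact mul_ne_zero (inj_der isOpen_ball hW.dif hW.inj (hexp v hv).1) (Complex.exp_ne_zero _))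
    ht0m hu0 (by rw [Complex.exp_log hx0z, hx0e])
  have hLO : LO Lf S' (fun t => φW (Complex.exp t)) G' = LO Lf (St κ 0) ψ K := lo_trans hls hG' h.lf hu0 ht0m hG0
  -- off the two curves and the segment
  have hoffL : ∀ u ∈ S', ∀ t : ℂ, t.re = l → G' u ≠ K t ∧ γ.2 - G' u ≠ K t := by
    intro u hu t ht
    have htm : t ∈ St κ 0 := ⟨by rw [ht]; exact h.h1, by rw [ht]; exact h.h2⟩
    have htY : ψ t ∉ Y := h.out t ht.ge (by rw [ht]; exact h.h2)
    refine ⟨fun he => ?_, fun he => ?_⟩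
    · have h9 := (hls.dis hG' h.lf u hu t htm he).1
      exact htY (h9 ▸ (hW.sub (hHW u hu)).1)
    · have h9 := gm_dis hls hG' (lo_gm hls h.lf hγ.lo) htm hu (by rw [hacg, ← he]; ring)
      exact htY (h9 ▸ (hW.sub (hHW u hu)).1)
  have hseg : ∀ u ∈ S', ∀ k : ℤ, ∀ y ∈ segment ℝ (K tb) x', G' u + k ≠ y := by
    intro u hu k y hy he
    have hyb : y ∈ ball g (3 * ρ) := (convex_ball g (3 * ρ)).segment_subset hx.mb hx.mx hy
    have h10 : ((1, ((-k : ℤ) : ℂ)) : ℝ × ℂ) ∈ LO Lf (ball g (3 * ρ)) I (fun x => x) := by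
      rw [on_lo h]
      exact on_int h (-k)
    have h11 := gm_dis hls hG' (lo_gm hls h.li h10) hyb hu (by
      simp only [ac]
      push_cast
      rw [← he]
      ring)
    apply (hW.sub (hHW u hu)).2
    exact ⟨y, hy, h11⟩
  have hGc : ContinuousOn G' S' := (hls.dG hG').1.continuousOn
  have hpre : IsPreconnected S' := (st_conv _ _).isPreconnected
  refine ⟨G', hG', hLO, fun u hu => ⟨?_, ?_, hoffL u hu, hseg u hu⟩⟩
  · have h12 : nu K l (G' u) = nu K l (G' (Complex.log x0)) := by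
      refine nu_const hwk h.h1 h.h2 (hpre.image G' hGc) ?_ (mem_image_of_mem _ hu) (mem_image_of_mem _ hu0)
      rintro _ ⟨v, hv, rfl⟩ t ht
      exact ((hoffL v hv t ht).1).symm
    rw [h12, hG0]
    exact nu_in hwk h.h1 h.h2 ht0m.1 ht0re
  · have h13 : nu K l (γ.2 - G' u) = nu K l (γ.2 - G' (Complex.log x0)) := by
      refine nu_const hwk h.h1 h.h2 (hpre.image (fun v => γ.2 - G' v) (continuousOn_const.sub hGc)) ?_
        (mem_image_of_mem (fun v => γ.2 - G' v) hu) (mem_image_of_mem (fun v => γ.2 - G' v) hu0)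
      rintro _ ⟨v, hv, rfl⟩ t ht
      exact ((hoffL v hv t ht).2).symm
    rw [h13, hG0]
    exact he1

theorem ex4b (h : ON Q Lf κ l ψ K Y g ρ I) {A W : Set ℂ} {φW : ℂ → ℂ} {d : ℝ} {t1 : ℂ} {ε : ℝ}
    (hW : WW Q κ l ψ Y A W φW d t1 ε) {G' : ℂ → ℂ}
    (hG : Lf (St (Real.log (1 - d)) 0) (fun t => φW (Complex.exp t)) G')
    (hL : LO Lf (St (Real.log (1 - d)) 0) (fun t => φW (Complex.exp t)) G' = LO Lf (St κ 0) ψ K) {c : ℂ}
    (hn : ∀ u ∈ St (Real.log (1 - d)) 0, nu K l (G' u) = 1 ∧ nu K l (c - G' u) = 1) :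
    ∃ m p : ℤ, p ≠ 0 ∧ ∀ u ∈ St (Real.log (1 - d)) 0, G' (u + 2 * Real.pi * Complex.I * m) = G' u + p := by
  have hwk := on_wk h
  obtain ⟨t0, -, hlow⟩ := line_low hwk h.h1 h.h2
  have hnl : ∀ x : ℂ, nu K l x = 1 → (K t0).im ≤ x.im := by
    intro x hx
    by_contra hlt
    push Not at hlt
    have h3 := nu_low hwk h.h1 h.h2 (x := x) fun t ht => hlt.trans_le (hlow t ht)
    rw [h3] at hx
    exact zero_ne_one hx
  obtain ⟨p, q, hp, -, -, hq, -⟩ := ex4 h.ls (C := |(K t0).im| + |c.im - (K t0).im|) hW.d0 hW.d1 hW.dif hW.inj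
    (by rw [hW.im]; exact hW.bdd) (by rw [hW.im]; exact hW.zer) hG (by rw [hL]; exact on_one h) fun u hu => by
      have h3 := hnl _ (hn u hu).1
      have h4 := hnl _ (hn u hu).2
      rw [Complex.sub_im] at h4
      rw [abs_le]
      have h5 := neg_abs_le (K t0).im
      have h6 := le_abs_self (c.im - (K t0).im)
      have h7 := abs_nonneg (K t0).im
      have h8 := abs_nonneg (c.im - (K t0).im)
      constructor <;> linarith
  exact ⟨q, p, hp, fun u hu => by exact_mod_cast hq u hu⟩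

end Pool.Agent.H66.GEO
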