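import Pool.Agent.H66.GEO.SC
import Pool.Agent.H28.GEO.GLd

/-!
# GEO, module GL: the lifts `G s` of the strip maps

PROOFS. `gg_ex` (in `H28/GEO/GLd`): `XS.ex` gives a lift at the point `φ 0 x`, `th < ‖x‖ < 1`; `x = exp t0`; `LS.ext` to `Ss th 0`, `ψ 0` gives `G 0` (`PS.der`, `ps_off`). For `s + 1`: `XS.cr s` gives `x, y`;
`x = exp t`, `t.re = log r`; `PS.sur` gives `t'` with `ψ (s+1) t' = φ (s+1) y`; `PS.lev` and `iφ`: `BB (s+1) y = exp (2^(s+1) t')`, so `2^(s+1) t'.re = log r`; `LS.ext` from `Ss th 0` at `t` to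
`Ss th (s+1)` at `t'` gives `G (s+1)`.
`ab` by induction on `s`: `a = 1`, `b = 0` for `s = 0`. If `G 0 (2^s t) = a G s t + b`: on `Ss th (s+1)` the function `t ↦ G s (2 t)` lifts `t ↦ ψ s (2 t) = F s (ψ (s+1) t)` (`LS.sub` with `k t = 2 t`,
`PS.stp`), `G (s+1)` lifts `ψ (s+1)`, so by `XS.pb` `G s (2 t) = a' G (s+1) t + b'`, and `G 0 (2^(s+1) t) = a (a' G (s+1) t + b') + b`.
`ss_ne`, `gg_lo`, `gg_gm` are in `SC`.
`gg_wd` (going round): `hol_s` (in `SC`) gives a loop `g'` with the same values, `g = g'` by `aff_id`. `gg_dis`: `gm_dis`.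
-/

set_option autoImplicit false

open Filter Topology Metric Set

namespace Pool.Agent.H66.GEO

variable {Q : Set ℂ} {Lf : Set ℂ → (ℂ → ℂ) → (ℂ → ℂ) → Prop} {th r : ℝ} {φ F : ℕ → ℂ → ℂ} {ω α : ℕ → ℂ} {ψ G : ℕ → ℂ → ℂ}

/-- going round -/
theorem gg_wd (h : LS Q Lf) (hX : XS Q Lf th r φ F ω α) (hP : PS th φ F ω α ψ) (hG : GG Lf th r ψ G) (s : ℕ) {g : ℝ × ℂ}
    (hg : ∀ t ∈ Ss th s, G s (t + 2 * Real.pi * Complex.I) = ac g (G s t)) : g ∈ LO Lf (Ss th s) (ψ s) (G s) := by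
  obtain ⟨g', hg', hgt⟩ := hol_s h hX hP hG s
  obtain ⟨u, hu⟩ := ss_ne hX.th0 (hX.thr.trans hX.r1) s
  have he : g = g' := by
    refine aff_id (st_open _ _) (h.dG (hG.lf s)).1 hu ((h.dG (hG.lf s)).2 u hu) ?_
    filter_upwards [(st_open (Real.log th / 2 ^ s) 0).mem_nhds hu] with v hv
    rw [← hg v hv, ← hgt v hv]
  rw [he, gg_lo h hG s]
  exact hg'

/-- disjointness of the values: equal values of lifts (up to words) of the strip maps -/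
theorem gg_dis (h : LS Q Lf) (hG : GG Lf th r ψ G) {s s' : ℕ} {g : ℝ × ℂ} (hg : g ∈ LO Lf (Ss th 0) (ψ 0) (G 0)) {t t' : ℂ}
    (ht : t ∈ Ss th s) (ht' : t' ∈ Ss th s') (he : G s t = ac g (G s' t')) : ψ s t = ψ s' t' := by
  rw [← gg_lo h hG s'] at hg
  exact (gm_dis h (hG.lf s) (lo_gm h (hG.lf s') hg) ht' ht he.symm).symm

end Pool.Agent.H66.GEO
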