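import Pool.Agent.H66.GEO.WN
import Pool.Agent.H66.GEO.Bas
import Pool.Agent.H40.GE.Wd

/-!
# GEO, module LW: LEMMA W (think 1848, section 1) in the strip form

`E` holomorphic on the strip `St a b`, `2 π i` periodic, without zeros, injective modulo `2 π i`. `Γ_c y = E (c + 2 π i y)`.
(i) JUMP (`lw_jump`): for `t' ∈ St a b`, `a < c < t'.re < c' < b`: `wn Γ_c' (E t') - wn Γ_c (E t') = 1`. Proof: `E'/(E - E t')` is holomorphic on
the strip except simple poles with residue `1` at the points `t' + 2 π i k` (`E' ≠ 0` because `E` is locally injective); the rectangle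
`[c, c'] × [y0, y0 + 2 π]` with `t'` inside: by periodicity the horizontal sides cancel. (Without residues: `E'/(E - E t') - 1/(t - t') - ..`: subtract
`(1/2) coth ((t - t')/2)`, i.e. `deriv (exp) / (exp t - exp t')` = `exp t / (exp t - exp t')`, which is `2 π i` periodic with the same poles: the
difference is holomorphic on the strip (removable singularities), its integral over the vertical line of height `2 π` does not depend on the line
(Cauchy for rectangles, periodicity), and `∫_0^1 2 π i exp(t)/(exp(t) - exp(t')) dy` on `re t = c` is `2 π i` for `c > t'.re` and `0` for `c < t'.re`.)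
(ii) for fixed `c` the function `t' ↦ wn Γ_c (E t')` is constant on `a < t'.re < c` (value `i`) and on `c < t'.re < b` (value `o`) (`wn_const`; images of
convex sets under the continuous `E`, disjoint from the curve by injectivity). (iii) `i`, `o` do not depend on `c` (compare `c < c'` at a point `t'` with
`t'.re < c`: between `c` and `c'` the integrand has no pole in the rectangle `[c,c']`; same as (i) without jump), `i - o = 1`.
(iv) Let `‖Γ_c y0‖` be maximal. `E` is open: there is `t'` near `c + 2 π i y0` with `‖E t'‖ > max ‖Γ_c‖`; `wn_far` gives `0`; `t'.re ≠ c`. So `i = 0` or `o = 0`.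
(v) Let `‖Γ_c y0‖` be minimal (`> 0`). There is `t'` near with `‖E t'‖ < min`, `wn_near`: `wn Γ_c 0 = wn Γ_c (E t')` is `i` or `o`. So `wn Γ_c 0 ∈ {1, 0}` or `{0, -1}`,
and if it is `1` then `i = 1`, `o = 0`.
IN LEAN: all this is proved in the annulus `exp (a - b) < ‖u‖ < 1` for `an E b u = E (log u + b)` (H65/UB/Wnn, H40/GE/Wd) and transferred by `wn_nn`.
-/

set_option autoImplicit false

open Filter Topology Metric Set

namespace Pool.Agent.H66.GEO

/-- the hypothesis of LEMMA W -/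
structure WE (a b : ℝ) (E : ℂ → ℂ) : Prop where
  dif : DifferentiableOn ℂ E (St a b)
  per : ∀ t ∈ St a b, E (t + 2 * Real.pi * Complex.I) = E t
  nz : ∀ t ∈ St a b, E t ≠ 0
  inj : ∀ t ∈ St a b, ∀ t' ∈ St a b, E t = E t' → ∃ k : ℤ, t' = t + 2 * Real.pi * Complex.I * k

open Pool.Agent.H65.UB Pool.Agent.H40.GE

section ann

variable {a b c : ℝ} {E : ℂ → ℂ}

theorem we_pern (h : WE a b E) {t : ℂ} (ht : t ∈ St a b) (n : ℕ) : E (t + 2 * Real.pi * Complex.I * n) = E t := by
  induction n with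
  | zero => simp
  | succ n ih =>
    rw [← ih, ← h.per (t + 2 * Real.pi * Complex.I * n)]
    · congr 1
      push_cast
      ring
    · have h1 : (t + 2 * Real.pi * Complex.I * n : ℂ).re = t.re := by simp
      exact ⟨by rw [h1]; exact ht.1, by rw [h1]; exact ht.2⟩

theorem we_perz (h : WE a b E) {t : ℂ} (ht : t ∈ St a b) (k : ℤ) : E (t + 2 * Real.pi * Complex.I * k) = E t := by
  have hr : (t + 2 * Real.pi * Complex.I * k : ℂ).re = t.re := by simp
  obtain ⟨n, rfl | rfl⟩ := k.eq_nat_or_neg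
  · exact_mod_cast we_pern h ht n
  · have h1 := we_pern h (t := t + 2 * Real.pi * Complex.I * ((-(n : ℤ) : ℤ) : ℂ))
      ⟨by rw [hr]; exact ht.1, by rw [hr]; exact ht.2⟩ n
    rw [← h1]
    congr 1
    push_cast
    ring

/-- the function on the annulus -/
noncomputable def an (E : ℂ → ℂ) (b : ℝ) (u : ℂ) : ℂ := E (Complex.log u + b)

theorem an_exp (h : WE a b E) {z : ℂ} (h1 : a - b < z.re) (h2 : z.re < 0) : an E b (Complex.exp z) = E (z + b) := by
  unfold an
  obtain ⟨k, hk⟩ : ∃ k : ℤ, Complex.log (Complex.exp z) = z + k * (2 * Real.pi * Complex.I) :=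
    Complex.exp_eq_exp_iff_exists_int.1 (Complex.exp_log (Complex.exp_ne_zero z))
  rw [hk]
  have h3 : (z + b : ℂ) ∈ St a b := by
    have h4 : (z + b : ℂ).re = z.re + b := by simp
    exact ⟨by rw [h4]; linarith, by rw [h4]; linarith⟩
  rw [← we_perz h h3 k]
  congr 1
  ring

theorem an_ptw {t : ℂ} (ht : t ∈ St a b) (h : WE a b E) : E t = an E b (Complex.exp (t - b)) := by
  have h4 : (t - b : ℂ).re = t.re - b := by simp
  rw [an_exp h (z := t - b) (by rw [h4]; linarith [ht.1]) (by rw [h4]; linarith [ht.2]), sub_add_cancel]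

theorem an_nrm (t : ℂ) (b : ℝ) : ‖Complex.exp (t - b)‖ = Real.exp (t.re - b) := by
  rw [Complex.norm_exp]
  simp

theorem an_log {u : ℂ} (h1 : Real.exp (a - b) < ‖u‖) (h2 : ‖u‖ < 1) :
    a - b < (Complex.log u).re ∧ (Complex.log u).re < 0 ∧ u ≠ 0 := by
  have h0 : 0 < ‖u‖ := (Real.exp_pos _).trans h1
  rw [Complex.log_re]
  exact ⟨(Real.lt_log_iff_exp_lt h0).2 h1, Real.log_neg h0 h2, norm_pos_iff.1 h0⟩

theorem an_dif (h : WE a b E) : DifferentiableOn ℂ (an E b) {u | Real.exp (a - b) < ‖u‖ ∧ ‖u‖ < 1} := by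
  rintro u ⟨h1, h2⟩
  obtain ⟨h3, h4, h5⟩ := an_log h1 h2
  refine DifferentiableAt.differentiableWithinAt ?_
  have hE : ∀ z : ℂ, a - b < z.re → z.re < 0 → DifferentiableAt ℂ E (z + b) := by
    intro z k1 k2
    have k3 : (z + b : ℂ).re = z.re + b := by simp
    exact h.dif.differentiableAt ((st_open a b).mem_nhds ⟨by rw [k3]; linarith, by rw [k3]; linarith⟩)
  by_cases hs : u ∈ Complex.slitPlane
  · have k1 : DifferentiableAt ℂ (fun u => Complex.log u + b) u := (Complex.differentiableAt_log hs).add_const _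
    exact DifferentiableAt.comp u (hE _ h3 h4) k1
  · have hs' : -u ∈ Complex.slitPlane := by
      rw [Complex.mem_slitPlane_iff] at hs ⊢
      push Not at hs
      left
      have k1 : u.re ≠ 0 := fun k => h5 (Complex.ext k hs.2)
      rw [Complex.neg_re]
      have := lt_of_le_of_ne hs.1 k1
      linarith
    have k2 : ∀ v : ℂ, Real.exp (a - b) < ‖v‖ → ‖v‖ < 1 →
        an E b v = E (Complex.log (-v) + Real.pi * Complex.I + b) := by
      intro v k3 k4
      have k5 := an_log (a := a) (b := b) (u := -v) (by rw [norm_neg]; exact k3) (by rw [norm_neg]; exact k4)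
      have k6 : (Complex.log (-v) + Real.pi * Complex.I : ℂ).re = (Complex.log (-v)).re := by simp
      rw [← an_exp h (z := Complex.log (-v) + Real.pi * Complex.I) (by rw [k6]; exact k5.1) (by rw [k6]; exact k5.2.1),
        Complex.exp_add, Complex.exp_log k5.2.2, Complex.exp_pi_mul_I]
      congr 1
      ring
    have k3 : DifferentiableAt ℂ (fun u => Complex.log (-u) + Real.pi * Complex.I + b) u :=
      (((Complex.differentiableAt_log hs').comp u differentiable_neg.differentiableAt).add_const _).add_const _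
    have k5 := an_log (a := a) (b := b) (u := -u) (by rw [norm_neg]; exact h1) (by rw [norm_neg]; exact h2)
    have k6 : (Complex.log (-u) + Real.pi * Complex.I : ℂ).re = (Complex.log (-u)).re := by simp
    have k7 : DifferentiableAt ℂ (fun u => E (Complex.log (-u) + Real.pi * Complex.I + b)) u :=
      DifferentiableAt.comp u (hE _ (by rw [k6]; exact k5.1) (by rw [k6]; exact k5.2.1)) k3
    refine k7.congr_of_eventuallyEq ?_
    have k8 : {u : ℂ | Real.exp (a - b) < ‖u‖ ∧ ‖u‖ < 1} ∈ 𝓝 u := (an_open _).mem_nhds ⟨h1, h2⟩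
    filter_upwards [k8] with v hv
    exact k2 v hv.1 hv.2

theorem an_inj (h : WE a b E) : InjOn (an E b) {u | Real.exp (a - b) < ‖u‖ ∧ ‖u‖ < 1} := by
  rintro u ⟨h1, h2⟩ u' ⟨h1', h2'⟩ he
  obtain ⟨h3, h4, h5⟩ := an_log h1 h2
  obtain ⟨h3', h4', h5'⟩ := an_log h1' h2'
  have hm : ∀ z : ℂ, a - b < z.re → z.re < 0 → (z + b : ℂ) ∈ St a b := by
    intro z k1 k2
    have k3 : (z + b : ℂ).re = z.re + b := by simp
    exact ⟨by rw [k3]; linarith, by rw [k3]; linarith⟩
  obtain ⟨k, hk⟩ := h.inj _ (hm _ h3 h4) _ (hm _ h3' h4') he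
  have h6 : Complex.log u' = Complex.log u + k * (2 * Real.pi * Complex.I) := by linear_combination hk
  have h7 := congrArg Complex.exp h6
  rw [Complex.exp_log h5', Complex.exp_add, Complex.exp_log h5, Complex.exp_int_mul_two_pi_mul_I, mul_one] at h7
  exact h7.symm

theorem an_nz (h : WE a b E) : ∀ u : ℂ, Real.exp (a - b) < ‖u‖ → ‖u‖ < 1 → an E b u ≠ 0 := by
  intro u h1 h2
  obtain ⟨h3, h4, h5⟩ := an_log h1 h2
  refine h.nz _ ?_
  have k3 : (Complex.log u + b : ℂ).re = (Complex.log u).re + b := by simp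
  exact ⟨by rw [k3]; linarith, by rw [k3]; linarith⟩

/-- the two winding numbers -/
theorem wn_nn (h : WE a b E) (hc : a < c) (hcb : c < b) (p : ℂ) :
    wn (fun y : ℝ => E (c + 2 * Real.pi * Complex.I * y)) p = (2 * Real.pi * Complex.I)⁻¹ * nn (an E b) (Real.exp (c - b)) p := by
  unfold wn nn circleIntegral
  congr 1
  have e1 : ∀ y : ℝ, circleMap 0 (Real.exp (c - b)) (2 * Real.pi * y) = Complex.exp ((c - b : ℝ) + 2 * Real.pi * Complex.I * y) := by
    intro y
    rw [circleMap_zero, Complex.ofReal_exp, ← Complex.exp_add]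
    congr 1
    push_cast
    ring
  have e2 : ∀ y : ℝ, E (c + 2 * Real.pi * Complex.I * y) = an E b (circleMap 0 (Real.exp (c - b)) (2 * Real.pi * y)) := by
    intro y
    have h1 : (((c - b : ℝ) : ℂ) + 2 * Real.pi * Complex.I * y : ℂ).re = c - b := by simp
    rw [e1, an_exp h (by rw [h1]; linarith) (by rw [h1]; linarith)]
    congr 1
    push_cast
    ring
  have e3 : ∀ y : ℝ, deriv (fun y : ℝ => E (c + 2 * Real.pi * Complex.I * y)) y =
      (2 * Real.pi : ℝ) • (deriv (circleMap 0 (Real.exp (c - b))) (2 * Real.pi * y) *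
        deriv (an E b) (circleMap 0 (Real.exp (c - b)) (2 * Real.pi * y))) := by
    intro y
    have h1 : circleMap 0 (Real.exp (c - b)) (2 * Real.pi * y) ∈ {u : ℂ | Real.exp (a - b) < ‖u‖ ∧ ‖u‖ < 1} := by
      have h2 : ‖circleMap 0 (Real.exp (c - b)) (2 * Real.pi * y)‖ = Real.exp (c - b) := by
        rw [norm_circleMap_zero, abs_of_pos (Real.exp_pos _)]
      rw [mem_setOf_eq, h2]
      exact ⟨Real.exp_lt_exp.2 (by linarith), by rw [Real.exp_lt_one_iff]; linarith⟩
    have h2 := ((an_dif h).differentiableAt ((an_open _).mem_nhds h1)).hasDerivAt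
    have h3 : HasDerivAt (fun y : ℝ => 2 * Real.pi * y) (2 * Real.pi) y := by
      simpa using (hasDerivAt_id y).const_mul (2 * Real.pi)
    have h4 := (differentiable_circleMap (0 : ℂ) (Real.exp (c - b)) (2 * Real.pi * y)).hasDerivAt
    have h5 : HasDerivAt (fun y : ℝ => circleMap 0 (Real.exp (c - b)) (2 * Real.pi * y))
        ((2 * Real.pi : ℝ) • deriv (circleMap 0 (Real.exp (c - b))) (2 * Real.pi * y)) y := h4.scomp y h3
    have h6 := h2.comp y h5
    have h7 : (fun y : ℝ => E (c + 2 * Real.pi * Complex.I * y)) =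
        fun y : ℝ => an E b (circleMap 0 (Real.exp (c - b)) (2 * Real.pi * y)) := funext e2
    rw [h7]
    refine h6.deriv.trans ?_
    simp only [Complex.real_smul]
    ring
  have e4 := intervalIntegral.smul_integral_comp_mul_left (a := (0 : ℝ)) (b := 1)
    (fun θ : ℝ => deriv (circleMap 0 (Real.exp (c - b))) θ • (deriv (an E b) (circleMap 0 (Real.exp (c - b)) θ) /
      (an E b (circleMap 0 (Real.exp (c - b)) θ) - p))) (2 * Real.pi)
  rw [mul_zero, mul_one] at e4
  rw [← e4, ← intervalIntegral.integral_smul]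
  refine intervalIntegral.integral_congr fun y _ => ?_
  show deriv (fun y : ℝ => E (c + 2 * Real.pi * Complex.I * y)) y / (E (c + 2 * Real.pi * Complex.I * y) - p) = _
  rw [e3, e2]
  simp only [smul_eq_mul, Complex.real_smul]
  ring

end ann

/-- (i), (iii): the winding number about `E t'` as a function of the line -/
theorem lw_same {a b : ℝ} {E : ℂ → ℂ} (h : WE a b E) {c c' : ℝ} (hc : a < c) (hcc : c < c') (hc' : c' < b) {t' : ℂ} (ht' : t' ∈ St a b)
    (h1 : t'.re < c ∨ c' < t'.re) :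
    wn (fun y : ℝ => E (c' + 2 * Real.pi * Complex.I * y)) (E t') = wn (fun y : ℝ => E (c + 2 * Real.pi * Complex.I * y)) (E t') := by
  rw [wn_nn h hc (hcc.trans hc'), wn_nn h (hc.trans hcc) hc']
  congr 1
  refine nn_rad (Real.exp_pos (a - b)) (an_dif h) (Real.exp_lt_exp.2 (by linarith)) (Real.exp_le_exp.2 (by linarith))
    (by rw [Real.exp_lt_one_iff]; linarith) fun u k1 k2 k3 => ?_
  rw [an_ptw ht' h] at k3
  have k4 := an_inj h (show u ∈ {u : ℂ | Real.exp (a - b) < ‖u‖ ∧ ‖u‖ < 1} from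
    ⟨(Real.exp_lt_exp.2 (by linarith)).trans_le k1, k2.trans_lt (by rw [Real.exp_lt_one_iff]; linarith)⟩)
    (show Complex.exp (t' - b) ∈ {u : ℂ | Real.exp (a - b) < ‖u‖ ∧ ‖u‖ < 1} from by
      rw [mem_setOf_eq, an_nrm]
      exact ⟨Real.exp_lt_exp.2 (by linarith [ht'.1]), by rw [Real.exp_lt_one_iff]; linarith [ht'.2]⟩) k3
  rw [k4, an_nrm, Real.exp_le_exp] at k1 k2
  rcases h1 with h1 | h1 <;> linarith

theorem lw_jump {a b : ℝ} {E : ℂ → ℂ} (h : WE a b E) {c c' : ℝ} (hc : a < c) (hc' : c' < b) {t' : ℂ} (ht' : t' ∈ St a b)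
    (h1 : c < t'.re) (h2 : t'.re < c') :
    wn (fun y : ℝ => E (c' + 2 * Real.pi * Complex.I * y)) (E t') - wn (fun y : ℝ => E (c + 2 * Real.pi * Complex.I * y)) (E t') = 1 := by
  have hcc : c < c' := h1.trans h2
  have hp : (2 * Real.pi * Complex.I : ℂ) ≠ 0 := by simp [Real.pi_ne_zero]
  obtain ⟨e, he1, he2⟩ := exists_between hc
  -- a point on the inner side of both lines
  have hv : (e : ℂ) ∈ St a b := ⟨by rw [Complex.ofReal_re]; exact he1, by rw [Complex.ofReal_re]; linarith⟩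
  have k1 : wn (fun y : ℝ => E (c' + 2 * Real.pi * Complex.I * y)) (E (e : ℂ)) =
      wn (fun y : ℝ => E (c + 2 * Real.pi * Complex.I * y)) (E (e : ℂ)) :=
    lw_same h hc hcc hc' hv (Or.inl (by rw [Complex.ofReal_re]; exact he2))
  have hexp : ∀ t ∈ St a b, Complex.exp (t - b) ∈ {u : ℂ | Real.exp (a - b) < ‖u‖ ∧ ‖u‖ < 1} := by
    intro t ht
    rw [mem_setOf_eq, an_nrm]
    exact ⟨Real.exp_lt_exp.2 (by linarith [ht.1]), by rw [Real.exp_lt_one_iff]; linarith [ht.2]⟩
  obtain ⟨i, o, -, -, -, hI, -⟩ := lem_io (E := an E b) (Real.exp_pos (a - b)) (an_dif h) (an_inj h) (an_nz h)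
    (ρ := Real.exp (c' - b)) (Real.exp_lt_exp.2 (by linarith)) (by rw [Real.exp_lt_one_iff]; linarith)
  have k2 : wn (fun y : ℝ => E (c' + 2 * Real.pi * Complex.I * y)) (E t') =
      wn (fun y : ℝ => E (c' + 2 * Real.pi * Complex.I * y)) (E (e : ℂ)) := by
    rw [wn_nn h (hc.trans hcc) hc', wn_nn h (hc.trans hcc) hc', an_ptw ht' h, an_ptw hv h,
      hI _ (hexp t' ht').1 (by rw [an_nrm]; exact Real.exp_lt_exp.2 (by linarith)),
      hI _ (hexp _ hv).1 (by rw [an_nrm, Complex.ofReal_re]; exact Real.exp_lt_exp.2 (by linarith))]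
  rw [k2, k1, wn_nn h hc (hcc.trans hc'), wn_nn h hc (hcc.trans hc'), ← mul_sub, an_ptw ht' h, an_ptw hv h,
    nn_jump (Real.exp_pos (a - b)) (an_dif h) (an_inj h) (hexp _ hv).1
      (by rw [an_nrm, Complex.ofReal_re]; exact Real.exp_lt_exp.2 (by linarith))
      (by rw [an_nrm]; exact Real.exp_lt_exp.2 (by linarith)) (hexp t' ht').2]
  exact inv_mul_cancel₀ hp

/-- LEMMA W -/
theorem lemW {a b : ℝ} {E : ℂ → ℂ} (h : WE a b E) {c : ℝ} (hc : a < c) (hcb : c < b) :
    (wn (fun y : ℝ => E (c + 2 * Real.pi * Complex.I * y)) 0 = 1 ∨ wn (fun y : ℝ => E (c + 2 * Real.pi * Complex.I * y)) 0 = 0 ∨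
      wn (fun y : ℝ => E (c + 2 * Real.pi * Complex.I * y)) 0 = -1) ∧
    (wn (fun y : ℝ => E (c + 2 * Real.pi * Complex.I * y)) 0 = 1 → ∀ t' ∈ St a b,
      (t'.re < c → wn (fun y : ℝ => E (c + 2 * Real.pi * Complex.I * y)) (E t') = 1) ∧
      (c < t'.re → wn (fun y : ℝ => E (c + 2 * Real.pi * Complex.I * y)) (E t') = 0)) := by
  have hp : (2 * Real.pi * Complex.I : ℂ) ≠ 0 := by simp [Real.pi_ne_zero]
  obtain ⟨w, hw, hn, h1, -⟩ := lem_w (E := an E b) (Real.exp_pos (a - b)) (an_dif h) (an_inj h) (an_nz h)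
    (ρ := Real.exp (c - b)) (Real.exp_lt_exp.2 (by linarith)) (by rw [Real.exp_lt_one_iff]; linarith)
  have h0 : wn (fun y : ℝ => E (c + 2 * Real.pi * Complex.I * y)) 0 = w := by
    rw [wn_nn h hc hcb, hn]
    field_simp
  have hexp : ∀ t ∈ St a b, Complex.exp (t - b) ∈ {u : ℂ | Real.exp (a - b) < ‖u‖ ∧ ‖u‖ < 1} := by
    intro t ht
    rw [mem_setOf_eq, an_nrm]
    exact ⟨Real.exp_lt_exp.2 (by linarith [ht.1]), by rw [Real.exp_lt_one_iff]; linarith [ht.2]⟩
  refine ⟨?_, fun h2 t' ht' => ⟨fun h3 => ?_, fun h3 => ?_⟩⟩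
  · rw [h0]
    rcases hw with rfl | rfl | rfl
    · right
      right
      norm_num
    · right
      left
      norm_num
    · left
      norm_num
  · rw [h0] at h2
    have h4 : w = 1 := by exact_mod_cast h2
    rw [wn_nn h hc hcb, an_ptw ht' h, (h1 h4).1 _ (hexp t' ht').1 (by rw [an_nrm]; exact Real.exp_lt_exp.2 (by linarith))]
    exact inv_mul_cancel₀ hp
  · rw [h0] at h2
    have h4 : w = 1 := by exact_mod_cast h2
    rw [wn_nn h hc hcb, an_ptw ht' h, (h1 h4).2 _ (by rw [an_nrm]; exact Real.exp_lt_exp.2 (by linarith)) (hexp t' ht').2,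
      mul_zero]

end Pool.Agent.H66.GEO
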