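import Pool.Agent.H66.GEO.SC
import Pool.Agent.H66.GEO.LW

/-!
# GEO, module NO (think 1848, section 4): the normal form of the holonomies

`no_inj`: `(1, e)` a loop at `ψ s`, `K` a lift of `ψ s` with `K (t + 2 π i) = K t + m e`: then `m ∈ {1, 0, -1}` (LEMMA W for `exp (2 π i K / e)`,
which is injective modulo `2 π i` by discreteness).
`no_all`: there is `c ≠ 0` with: `(1, c)` is a loop; `G 0 (t + π i) = G 0 t + c / 2`; all loops have `|a| = 1`; the real translations among them are the integer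
multiples of `c`; `G 0 (2 ^ s t) = ε 2 ^ s G s t + b`, `ε = ± 1`, and the periods of `G s`.
PROOF. `lo_gen` for `t = c` and `ρ c`: a generator `e`, `c = m e`, `ρ c = n e`; `m = ± 1` by `no_inj` for `G 0`. If `G 0 (2 ^ s t) = a G s t + b`, then
`G s (t + 2 π i) = G s t + (2 ^ s / a) c`, `(1, (2 ^ s / a) c)` is a loop, so `2 ^ s / a` is an integer, `± 1` by `no_inj` for `G s` and `e = c`.
-/

set_option autoImplicit false

open Filter Topology Metric Set

namespace Pool.Agent.H66.GEO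

/-- integer powers of a translation -/
theorem lo_int {Lf : Set ℂ → (ℂ → ℂ) → (ℂ → ℂ) → Prop} {S : Set ℂ} {H G : ℂ → ℂ} {e : ℂ}
    (he : ((1, e) : ℝ × ℂ) ∈ LO Lf S H G) (k : ℤ) : ((1, k * e) : ℝ × ℂ) ∈ LO Lf S H G := by
  have h1 : ∀ n : ℕ, ((1, n * e) : ℝ × ℂ) ∈ LO Lf S H G := by
    intro n
    induction n with
    | zero =>
      have h2 : ((1, ((0 : ℕ) : ℂ) * e) : ℝ × ℂ) = (1, 0) := by
        rw [Nat.cast_zero, zero_mul]
      rw [h2]
      exact lo_one
    | succ n ih =>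
      have h2 : ((1, ((n + 1 : ℕ) : ℂ) * e) : ℝ × ℂ) = mu (1, n * e) (1, e) := by
        refine Prod.ext ?_ ?_
        · simp [mu]
        · simp only [mu]
          push_cast
          ring
      rw [h2]
      exact lo_mul ih he
  obtain ⟨n, rfl | rfl⟩ := k.eq_nat_or_neg
  · have := h1 n
    exact_mod_cast this
  · have h2 : ((1, ((-(n : ℤ) : ℤ) : ℂ) * e) : ℝ × ℂ) = iv (1, n * e) := by
      refine Prod.ext ?_ ?_
      · simp [iv]
      · simp only [iv]
        push_cast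
        simp
    rw [h2]
    exact lo_inv (h1 n)

theorem no_inj {Q : Set ℂ} {Lf : Set ℂ → (ℂ → ℂ) → (ℂ → ℂ) → Prop} (h : LS Q Lf) {th r : ℝ} {φ F : ℕ → ℂ → ℂ}
    {ω α : ℕ → ℂ} (hX : XS Q Lf th r φ F ω α) {ψ : ℕ → ℂ → ℂ} (hP : PS th φ F ω α ψ) {s : ℕ} {K : ℂ → ℂ}
    (hK : Lf (Ss th s) (ψ s) K) {e : ℂ} (he0 : e ≠ 0) (he : ((1, e) : ℝ × ℂ) ∈ LO Lf (Ss th s) (ψ s) K) {m : ℤ}
    (hm : ∀ t ∈ Ss th s, K (t + 2 * Real.pi * Complex.I) = K t + m * e) : m = 1 ∨ m = 0 ∨ m = -1 := by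
  have hth1 : th < 1 := hX.thr.trans hX.r1
  have hlog : Real.log th / 2 ^ s < 0 := div_neg_of_neg_of_pos (Real.log_neg hX.th0 hth1) (by positivity)
  have h2pi : (2 * Real.pi * Complex.I : ℂ) ≠ 0 := Complex.two_pi_I_ne_zero
  have hKe : DifferentiableOn ℂ (fun t => K t / e) (Ss th s) := (h.dG hK).1.div_const e
  have hW : WE (Real.log th / 2 ^ s) 0 (fun t => Complex.exp (2 * Real.pi * Complex.I * (K t / e))) := by
    refine ⟨(hKe.const_mul _).cexp, ?_, fun t _ => Complex.exp_ne_zero _, ?_⟩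
    · intro t ht
      rw [hm t ht, Complex.exp_eq_exp_iff_exists_int]
      refine ⟨m, ?_⟩
      field_simp
    · intro t ht t' ht' hE
      obtain ⟨k, hk⟩ := Complex.exp_eq_exp_iff_exists_int.1 hE
      have h1 : K t = K t' + k * e := by
        have h2 : K t / e = K t' / e + k := by
          apply mul_left_cancel₀ h2pi
          rw [hk]
          ring
        field_simp at h2
        rw [h2]
        ring
      have h3 : ac (1, k * e) (K t') = K t := by
        rw [h1]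
        simp [ac]
      have h4 := gm_dis h hK (lo_gm h hK (lo_int he k)) ht' ht h3
      exact hP.inj s t ht t' ht' h4.symm
  have hc1 : Real.log th / 2 ^ s < Real.log th / 2 ^ s / 2 := by linarith
  have hc2 : Real.log th / 2 ^ s / 2 < 0 := by linarith
  have h1 := (lemW hW hc1 hc2).1
  have hq := line_smooth hc1 hc2 hKe
  have hmem : ∀ y : ℝ, ((Real.log th / 2 ^ s / 2 : ℝ) : ℂ) + 2 * Real.pi * Complex.I * y ∈ Ss th s := by
    intro y
    have hre : (((Real.log th / 2 ^ s / 2 : ℝ) : ℂ) + 2 * Real.pi * Complex.I * y).re = Real.log th / 2 ^ s / 2 := by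
      simp only [Complex.add_re, Complex.ofReal_re, Complex.mul_re, Complex.mul_im, Complex.re_ofNat, Complex.im_ofNat,
        Complex.ofReal_im, Complex.I_re, Complex.I_im]
      ring
    exact ⟨by rw [hre]; exact hc1, by rw [hre]; exact hc2⟩
  have h2 := (wn_exp hq (n := m) (by
    intro y
    have h3 : ((Real.log th / 2 ^ s / 2 : ℝ) : ℂ) + 2 * Real.pi * Complex.I * ((y + 1 : ℝ) : ℂ) =
        (((Real.log th / 2 ^ s / 2 : ℝ) : ℂ) + 2 * Real.pi * Complex.I * y) + 2 * Real.pi * Complex.I := by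
      push_cast
      ring
    rw [h3, hm _ (hmem y)]
    field_simp)).2
  rw [h2] at h1
  rcases h1 with h3 | h3 | h3
  · left
    exact_mod_cast h3
  · right
    left
    exact_mod_cast h3
  · right
    right
    exact_mod_cast h3

theorem no_all {Q : Set ℂ} {Lf : Set ℂ → (ℂ → ℂ) → (ℂ → ℂ) → Prop} (h : LS Q Lf) {th r : ℝ} {φ F : ℕ → ℂ → ℂ}
    {ω α : ℕ → ℂ} (hX : XS Q Lf th r φ F ω α) {ψ : ℕ → ℂ → ℂ} (hP : PS th φ F ω α ψ) {G : ℕ → ℂ → ℂ}
    (hG : GG Lf th r ψ G) : ∃ c : ℂ, c ≠ 0 ∧ ((1, c) : ℝ × ℂ) ∈ LO Lf (Ss th 0) (ψ 0) (G 0) ∧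
      (∀ t ∈ Ss th 0, G 0 (t + Real.pi * Complex.I) = G 0 t + c / 2) ∧
      (∀ g ∈ LO Lf (Ss th 0) (ψ 0) (G 0), |g.1| = 1) ∧
      (∀ ρ : ℝ, ((1, ρ * c) : ℝ × ℂ) ∈ LO Lf (Ss th 0) (ψ 0) (G 0) → ∃ m : ℤ, ρ = m) ∧
      ∀ s, ∃ (ε : ℝ) (b : ℂ), (ε = 1 ∨ ε = -1) ∧ (∀ t ∈ Ss th s, G 0 (2 ^ s * t) = ε * 2 ^ s * G s t + b) ∧
        (∀ t ∈ Ss th s, G s (t + 2 * Real.pi * Complex.I) = G s t + ε * c) ∧
        (∀ t ∈ Ss th s, G s (t + 2 * Real.pi * Complex.I / 2 ^ s) = G s t + ε * c / 2 ^ s) ∧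
        (∀ t ∈ Ss th s, G s (t + Real.pi * Complex.I / 2 ^ s) = G s t + ε * c / 2 ^ (s + 1)) := by
  obtain ⟨c, hc0, hc, hhalf⟩ := sc h hX hP hG
  have hth1 : th < 1 := hX.thr.trans hX.r1
  have hper : ∀ t ∈ Ss th 0, G 0 (t + 2 * Real.pi * Complex.I) = G 0 t + c := by
    intro t ht
    have h1 : t + 2 * Real.pi * Complex.I = (t + Real.pi * Complex.I) + Real.pi * Complex.I := by ring
    rw [h1, hhalf _ (ss_add pi_re ht), hhalf t ht]
    ring
  have hpern : ∀ n : ℕ, ∀ t ∈ Ss th 0, G 0 (t + n * (2 * Real.pi * Complex.I)) = G 0 t + n * c := by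
    intro n
    induction n with
    | zero =>
      intro t _
      simp
    | succ n ih =>
      intro t ht
      have h1 : t + ((n + 1 : ℕ) : ℂ) * (2 * Real.pi * Complex.I) =
          (t + n * (2 * Real.pi * Complex.I)) + 2 * Real.pi * Complex.I := by
        push_cast
        ring
      rw [h1, hper _ (ss_add (by simp) ht), ih t ht]
      push_cast
      ring
  have habs : ∀ g ∈ LO Lf (Ss th 0) (ψ 0) (G 0), |g.1| = 1 := by
    intro g hg
    by_contra hne
    exact hc0 (lo_scal h (hG.lf 0) (ss_ne hX.th0 hth1 0) hg hne hc)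
  have hreal : ∀ ρ : ℝ, ((1, ρ * c) : ℝ × ℂ) ∈ LO Lf (Ss th 0) (ψ 0) (G 0) → ∃ m : ℤ, ρ = m := by
    intro ρ hρ
    obtain ⟨e, m, n, he0, he, hme, hne⟩ := lo_gen h (hG.lf 0) (ss_ne hX.th0 hth1 0) hc0 hc hρ
    have hm : m = 1 ∨ m = 0 ∨ m = -1 := by
      refine no_inj h hX hP (hG.lf 0) he0 he fun t ht => ?_
      rw [hper t ht, hme]
    have hcast : ∀ k : ℤ, (ρ : ℂ) = (k : ℂ) → ρ = k := fun k hk => by exact_mod_cast hk
    rcases hm with hm | hm | hm
    · refine ⟨n, hcast n ?_⟩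
      rw [hm] at hme
      apply mul_right_cancel₀ he0
      rw [← hne, hme]
      push_cast
      ring
    · exact absurd (by rw [hme, hm]; simp) hc0
    · refine ⟨-n, hcast (-n) ?_⟩
      rw [hm] at hme
      apply mul_right_cancel₀ he0
      have h1 : (ρ : ℂ) * e = -(ρ * c) := by
        rw [hme]
        push_cast
        ring
      rw [h1, hne]
      push_cast
      ring
  refine ⟨c, hc0, hc, hhalf, habs, hreal, fun s => ?_⟩
  obtain ⟨a, b, ha, hab⟩ := hG.ab s
  have ha' : (a : ℂ) ≠ 0 := by exact_mod_cast ha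
  have h2s : ((2 : ℂ) ^ s) ≠ 0 := pow_ne_zero _ two_ne_zero
  -- small periods
  have hs1 : ∀ t ∈ Ss th s, G s (t + 2 * Real.pi * Complex.I / 2 ^ s) = G s t + c / a := by
    intro t ht
    have hre : (2 * Real.pi * Complex.I / 2 ^ s : ℂ).re = 0 := by
      have : (2 * Real.pi * Complex.I / 2 ^ s : ℂ) = ((2 * Real.pi / 2 ^ s : ℝ) : ℂ) * Complex.I := by
        push_cast
        ring
      rw [this, Complex.re_ofReal_mul, Complex.I_re, mul_zero]
    have h1 := hab t ht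
    have h2 := hab _ (ss_add hre ht)
    have h3 : (2 : ℂ) ^ s * (t + 2 * Real.pi * Complex.I / 2 ^ s) = 2 ^ s * t + 2 * Real.pi * Complex.I := by
      field_simp
    rw [h3, hper _ (ss_two ht), h1] at h2
    have h4 : (a : ℂ) * G s (t + 2 * Real.pi * Complex.I / 2 ^ s) = a * G s t + c := by linear_combination -h2
    apply mul_left_cancel₀ ha'
    rw [h4]
    field_simp
  have hs2 : ∀ t ∈ Ss th s, G s (t + Real.pi * Complex.I / 2 ^ s) = G s t + c / 2 / a := by
    intro t ht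
    have hre : (Real.pi * Complex.I / 2 ^ s : ℂ).re = 0 := by
      have : (Real.pi * Complex.I / 2 ^ s : ℂ) = ((Real.pi / 2 ^ s : ℝ) : ℂ) * Complex.I := by
        push_cast
        ring
      rw [this, Complex.re_ofReal_mul, Complex.I_re, mul_zero]
    have h1 := hab t ht
    have h2 := hab _ (ss_add hre ht)
    have h3 : (2 : ℂ) ^ s * (t + Real.pi * Complex.I / 2 ^ s) = 2 ^ s * t + Real.pi * Complex.I := by
      field_simp
    rw [h3, hhalf _ (ss_two ht), h1] at h2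
    have h4 : (a : ℂ) * G s (t + Real.pi * Complex.I / 2 ^ s) = a * G s t + c / 2 := by linear_combination -h2
    apply mul_left_cancel₀ ha'
    rw [h4]
    field_simp
  have hs3 : ∀ t ∈ Ss th s, G s (t + 2 * Real.pi * Complex.I) = G s t + ((2 ^ s / a : ℝ) : ℂ) * c := by
    intro t ht
    have h1 := hab t ht
    have h2 := hab _ (ss_add (p := 2 * Real.pi * Complex.I) (by simp) ht)
    have h3 : (2 : ℂ) ^ s * (t + 2 * Real.pi * Complex.I) = 2 ^ s * t + ((2 ^ s : ℕ) : ℂ) * (2 * Real.pi * Complex.I) := by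
      push_cast
      ring
    rw [h3, hpern _ _ (ss_two ht), h1] at h2
    push_cast at h2
    have h4 : (a : ℂ) * G s (t + 2 * Real.pi * Complex.I) = a * G s t + 2 ^ s * c := by linear_combination -h2
    apply mul_left_cancel₀ ha'
    rw [h4]
    push_cast
    field_simp
  obtain ⟨m, hm⟩ : ∃ m : ℤ, (2 ^ s / a : ℝ) = m := by
    refine hreal _ ?_
    obtain ⟨g, hg, hgt⟩ := hol_s h hX hP hG s
    have hgs : ((1, ((2 ^ s / a : ℝ) : ℂ) * c) : ℝ × ℂ) = g := by
      obtain ⟨u, hu⟩ := ss_ne hX.th0 hth1 s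
      have hop : IsOpen (Ss th s) := (h.op (hG.lf s)).1
      refine aff_id hop (h.dG (hG.lf s)).1 hu ((h.dG (hG.lf s)).2 u hu) ?_
      filter_upwards [hop.mem_nhds hu] with v hv
      rw [← hgt v hv, hs3 v hv]
      simp [ac]
    rw [hgs]
    exact hg
  have hms : m = 1 ∨ m = 0 ∨ m = -1 := by
    refine no_inj h hX hP (hG.lf s) hc0 ?_ fun t ht => ?_
    · rw [gg_lo h hG s]
      exact hc
    · rw [hs3 t ht, hm]
      push_cast
      ring
  have h2a : (2 : ℝ) ^ s = m * a := by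
    rw [← hm]
    field_simp
  have hfin : ∀ ε : ℝ, (ε = 1 ∨ ε = -1) → a = ε * 2 ^ s → ∃ (ε : ℝ) (b : ℂ), (ε = 1 ∨ ε = -1) ∧
      (∀ t ∈ Ss th s, G 0 (2 ^ s * t) = ε * 2 ^ s * G s t + b) ∧
        (∀ t ∈ Ss th s, G s (t + 2 * Real.pi * Complex.I) = G s t + ε * c) ∧
        (∀ t ∈ Ss th s, G s (t + 2 * Real.pi * Complex.I / 2 ^ s) = G s t + ε * c / 2 ^ s) ∧
        (∀ t ∈ Ss th s, G s (t + Real.pi * Complex.I / 2 ^ s) = G s t + ε * c / 2 ^ (s + 1)) := by
    intro ε hε hεa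
    have hac : (a : ℂ) = ε * 2 ^ s := by
      rw [hεa]
      push_cast
      ring
    have hεε : (ε : ℂ) * ε = 1 := by
      rcases hε with hε | hε
      · rw [hε]
        simp
      · rw [hε]
        simp
    have hε0 : (ε : ℂ) ≠ 0 := by
      intro h0
      rw [h0] at hεε
      simp at hεε
    refine ⟨ε, b, hε, ?_, ?_, ?_, ?_⟩
    · intro t ht
      rw [hab t ht, hac]
    · intro t ht
      rw [hs3 t ht]
      push_cast
      rw [hac]
      field_simp
      linear_combination -(c * hεε)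
    · intro t ht
      rw [hs1 t ht, hac]
      field_simp
      linear_combination -(c * hεε)
    · intro t ht
      rw [hs2 t ht, hac, pow_succ]
      field_simp
      linear_combination -(c * hεε)
  rcases hms with hms | hms | hms
  · rw [hms] at h2a
    exact hfin 1 (Or.inl rfl) (by push_cast at h2a; linarith)
  · rw [hms] at h2a
    have : (0 : ℝ) < 2 ^ s := by positivity
    push_cast at h2a
    linarith
  · rw [hms] at h2a
    exact hfin (-1) (Or.inr rfl) (by push_cast at h2a; linarith)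

end Pool.Agent.H66.GEO
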