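import Pool.Agent.H66.GEO.LW
import Pool.Agent.H66.GEO.Bas

/-!
# GEO, module NU: the winding numbers `nu K l x` of the cylinder curve `L = K (re t = l)`

PROOFS. `we_wk`: `E = exp (2 π i K)`; `E t = E t'` iff `K t' = K t + k`. `cc_nu`: `cc_line` for `E`. `wn_nu0`: `wn_exp` with `n = 1`.
`nu_per`: `exp (2 π i (x + k)) = exp (2 π i x)`. `nu_const`: `wn_const` for the image of `A` under `x ↦ exp (2 π i x)`; `exp (2 π i K t) = exp (2 π i x)` means `x = K t + k = K (t + 2 π i k)` (`wk_per`), and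
`(t + 2 π i k).re = l`. `nu_low`: `‖exp (2 π i x)‖ = exp (- 2 π im x)`; `wn_far`. `nu_high`: `wn_near` and `wn_nu0`. `nu_in`, `nu_out`: `lemW`.
`line_low`, `line_top`: `y ↦ im K (l + 2 π i y)` is continuous and has period `1`. `line_hit`: `y ↦ re K (l + 2 π i y)` is continuous and `f (y + 1) = f y + 1`: intermediate value theorem; the set of solutions of
`f y = c` is compact (`f y - y` is bounded), so `im K` has a maximum on it.
-/

set_option autoImplicit false

open Filter Topology Metric Set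

namespace Pool.Agent.H66.GEO

/-- cylinder maps: `K` is injective modulo the periods -/
structure WK (κ : ℝ) (K : ℂ → ℂ) : Prop where
  dif : DifferentiableOn ℂ K (St κ 0)
  one : ∀ t ∈ St κ 0, K (t + 2 * Real.pi * Complex.I) = K t + 1
  inj : ∀ t ∈ St κ 0, ∀ t' ∈ St κ 0, ∀ k : ℤ, K t' = K t + k → ∃ m : ℤ, t' = t + 2 * Real.pi * Complex.I * m

variable {κ l : ℝ} {K : ℂ → ℂ}

private theorem two_pi_I_ne : (2 * Real.pi * Complex.I : ℂ) ≠ 0 := by simp [Real.pi_ne_zero]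

private theorem ee_eq {x y : ℂ} (h : Complex.exp (2 * Real.pi * Complex.I * x) = Complex.exp (2 * Real.pi * Complex.I * y)) :
    ∃ n : ℤ, x = y + n := by
  obtain ⟨n, hn⟩ := Complex.exp_eq_exp_iff_exists_int.1 h
  refine ⟨n, mul_left_cancel₀ two_pi_I_ne ?_⟩
  rw [hn]
  ring

private theorem ee_int (x : ℂ) (n : ℤ) : Complex.exp (2 * Real.pi * Complex.I * (x + n)) =
    Complex.exp (2 * Real.pi * Complex.I * x) := by
  rw [mul_add, Complex.exp_add, show 2 * Real.pi * Complex.I * (n : ℂ) = n * (2 * Real.pi * Complex.I) by ring,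
    Complex.exp_int_mul_two_pi_mul_I, mul_one]

private theorem ee_norm (x : ℂ) : ‖Complex.exp (2 * Real.pi * Complex.I * x)‖ = Real.exp (-(2 * Real.pi * x.im)) := by
  rw [Complex.norm_exp]
  congr 1
  simp

private theorem ln_re (l : ℝ) (y : ℝ) : (l + 2 * Real.pi * Complex.I * y : ℂ).re = l := by
  simp

private theorem ln_ex {l : ℝ} {t : ℂ} (h : t.re = l) : ∃ y : ℝ, t = (l + 2 * Real.pi * Complex.I * y : ℂ) := by
  refine ⟨t.im / (2 * Real.pi), ?_⟩
  have hpi : (2 * Real.pi : ℝ) ≠ 0 := by positivity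
  have hpc : (2 * Real.pi : ℂ) ≠ 0 := by exact_mod_cast hpi
  have h1 : (l + 2 * Real.pi * Complex.I * ((t.im / (2 * Real.pi) : ℝ) : ℂ) : ℂ) = l + t.im * Complex.I := by
    push_cast
    field_simp
  rw [h1]
  apply Complex.ext
  · simp [h]
  · simp

theorem we_wk (h : WK κ K) : WE κ 0 (fun t => Complex.exp (2 * Real.pi * Complex.I * K t)) where
  dif := (h.dif.const_mul _).cexp
  per t ht := by
    have := ee_int (K t) 1
    rw [h.one t ht]
    exact_mod_cast this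
  nz _ _ := Complex.exp_ne_zero _
  inj t ht t' ht' he := by
    obtain ⟨n, hn⟩ := ee_eq he.symm
    exact h.inj t ht t' ht' n hn

private theorem wk_pern (h : WK κ K) {t : ℂ} (ht : t ∈ St κ 0) (n : ℕ) :
    K (t + 2 * Real.pi * Complex.I * n) = K t + n := by
  induction n with
  | zero => simp
  | succ n ih =>
    have h1 : t + 2 * Real.pi * Complex.I * ((n + 1 : ℕ) : ℂ) =
        (t + 2 * Real.pi * Complex.I * (n : ℂ)) + 2 * Real.pi * Complex.I := by
      push_cast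
      ring
    have h2 : t + 2 * Real.pi * Complex.I * (n : ℂ) ∈ St κ 0 :=
      (st_tr (c := 2 * Real.pi * Complex.I * (n : ℂ)) (by simp)).2 ht
    rw [h1, h.one _ h2, ih]
    push_cast
    ring

theorem wk_per (h : WK κ K) {t : ℂ} (ht : t ∈ St κ 0) (k : ℤ) : K (t + 2 * Real.pi * Complex.I * k) = K t + k := by
  rcases Int.eq_nat_or_neg k with ⟨n, rfl | rfl⟩
  · exact_mod_cast wk_pern h ht n
  · have h1 := wk_pern h (t := t + 2 * Real.pi * Complex.I * ((-(n : ℤ) : ℤ) : ℂ)) ((st_per _).2 ht) n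
    have h2 : t + 2 * Real.pi * Complex.I * ((-(n : ℤ) : ℤ) : ℂ) + 2 * Real.pi * Complex.I * (n : ℂ) = t := by
      push_cast
      ring
    rw [h2] at h1
    rw [h1]
    push_cast
    ring

theorem nu_per (K : ℂ → ℂ) (l : ℝ) (x : ℂ) (k : ℤ) : nu K l (x + k) = nu K l x := by
  unfold nu
  rw [ee_int]

private theorem ln_mem (h1 : κ < l) (h2 : l < 0) {t : ℂ} (ht : t.re = l) : t ∈ St κ 0 :=
  ⟨by rw [ht]; exact h1, by rw [ht]; exact h2⟩

private theorem cc_nu (h : WK κ K) (h1 : κ < l) (h2 : l < 0) :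
    CC (fun y : ℝ => Complex.exp (2 * Real.pi * Complex.I * K (l + 2 * Real.pi * Complex.I * y))) :=
  cc_line h1 h2 (we_wk h).dif (we_wk h).per

/-- a point off the line is off the curve -/
private theorem off_curve (h : WK κ K) (h1 : κ < l) (h2 : l < 0) {x : ℂ} (hx : ∀ t : ℂ, t.re = l → K t ≠ x) (y : ℝ) :
    Complex.exp (2 * Real.pi * Complex.I * K (l + 2 * Real.pi * Complex.I * y)) ≠
      Complex.exp (2 * Real.pi * Complex.I * x) := by
  intro he
  obtain ⟨n, hn⟩ := ee_eq he.symm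
  have hr := ln_re l y
  refine hx ((l + 2 * Real.pi * Complex.I * y : ℂ) + 2 * Real.pi * Complex.I * n) ?_ ?_
  · rw [Complex.add_re, hr]
    simp
  · rw [wk_per h (ln_mem h1 h2 hr), hn]

theorem nu_const (h : WK κ K) (h1 : κ < l) (h2 : l < 0) {A : Set ℂ} (hA : IsPreconnected A)
    (hd : ∀ x ∈ A, ∀ t : ℂ, t.re = l → K t ≠ x) {p q : ℂ} (hp : p ∈ A) (hq : q ∈ A) : nu K l p = nu K l q := by
  have hA' : IsPreconnected ((fun x : ℂ => Complex.exp (2 * Real.pi * Complex.I * x)) '' A) :=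
    hA.image _ (by fun_prop)
  refine wn_const (cc_nu h h1 h2) hA' ?_ (mem_image_of_mem _ hp) (mem_image_of_mem _ hq)
  rintro _ ⟨x, hx, rfl⟩ y
  exact off_curve h h1 h2 (hd x hx) y

/-- locally constant -/
theorem nu_loc (h : WK κ K) (h1 : κ < l) (h2 : l < 0) {p : ℂ} (hd : ∀ t : ℂ, t.re = l → K t ≠ p) :
    ∀ᶠ q in 𝓝 p, nu K l q = nu K l p := by
  obtain ⟨m, hm, hm'⟩ := cc_min (cc_nu h h1 h2) (off_curve h h1 h2 hd)
  have hc : Continuous fun x : ℂ => Complex.exp (2 * Real.pi * Complex.I * x) := by fun_prop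
  have hev : ∀ᶠ q in 𝓝 p, Complex.exp (2 * Real.pi * Complex.I * q) ∈ ball (Complex.exp (2 * Real.pi * Complex.I * p)) m :=
    hc.continuousAt.eventually_mem (ball_mem_nhds _ hm)
  filter_upwards [hev] with q hq
  unfold nu
  refine (wn_loc (cc_nu h h1 h2) fun t => ?_).symm
  rw [norm_sub_rev]
  exact (mem_ball_iff_norm.1 hq).trans_le (hm' t)

theorem nu_low (h : WK κ K) (h1 : κ < l) (h2 : l < 0) {x : ℂ} (hx : ∀ t : ℂ, t.re = l → x.im < (K t).im) : nu K l x = 0 := by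
  refine wn_far (cc_nu h h1 h2) fun y => ?_
  rw [ee_norm, ee_norm]
  have := hx _ (ln_re l y)
  apply Real.exp_lt_exp.2
  have hpi := Real.pi_pos
  nlinarith

private theorem wn_nu0 (h : WK κ K) (h1 : κ < l) (h2 : l < 0) :
    wn (fun y : ℝ => Complex.exp (2 * Real.pi * Complex.I * K (l + 2 * Real.pi * Complex.I * y))) 0 = 1 := by
  have h3 := (wn_exp (q := fun y : ℝ => K (l + 2 * Real.pi * Complex.I * y)) (n := 1) (line_smooth h1 h2 h.dif) ?_).2
  · exact_mod_cast h3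
  · intro y
    have h4 := h.one _ (ln_mem h1 h2 (ln_re l y))
    push_cast
    rw [← h4]
    congr 1
    ring

theorem nu_high (h : WK κ K) (h1 : κ < l) (h2 : l < 0) {x : ℂ} (hx : ∀ t : ℂ, t.re = l → (K t).im < x.im) : nu K l x = 1 := by
  unfold nu
  rw [wn_near (cc_nu h h1 h2), wn_nu0 h h1 h2]
  intro y
  rw [ee_norm, ee_norm]
  have := hx _ (ln_re l y)
  apply Real.exp_lt_exp.2
  have hpi := Real.pi_pos
  nlinarith

theorem nu_in (h : WK κ K) (h1 : κ < l) (h2 : l < 0) {t : ℂ} (ht : κ < t.re) (htl : t.re < l) : nu K l (K t) = 1 :=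
  (((lemW (we_wk h) h1 h2).2 (wn_nu0 h h1 h2)) t ⟨ht, htl.trans h2⟩).1 htl

theorem nu_out (h : WK κ K) (h1 : κ < l) (h2 : l < 0) {t : ℂ} (ht : t.re < 0) (htl : l < t.re) : nu K l (K t) = 0 :=
  (((lemW (we_wk h) h1 h2).2 (wn_nu0 h h1 h2)) t ⟨h1.trans htl, ht⟩).2 htl

theorem line_conn (h : WK κ K) (h1 : κ < l) (h2 : l < 0) : IsPreconnected (K '' {t | t.re = l}) := by
  have hc : Convex ℝ {t : ℂ | t.re = l} := convex_hyperplane (Complex.reLm.isLinear) l
  exact hc.isPreconnected.image _ (h.dif.continuousOn.mono fun t ht => ln_mem h1 h2 ht)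

private theorem ln_cont (h : WK κ K) (h1 : κ < l) (h2 : l < 0) :
    Continuous fun y : ℝ => K (l + 2 * Real.pi * Complex.I * y) := (line_smooth h1 h2 h.dif).continuous

private theorem ln_one (h : WK κ K) (h1 : κ < l) (h2 : l < 0) (y : ℝ) :
    K (l + 2 * Real.pi * Complex.I * ((y + 1 : ℝ) : ℂ)) = K (l + 2 * Real.pi * Complex.I * y) + 1 := by
  rw [← h.one _ (ln_mem h1 h2 (ln_re l y))]
  congr 1
  push_cast
  ring

private theorem ln_im_per (h : WK κ K) (h1 : κ < l) (h2 : l < 0) :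
    Function.Periodic (fun y : ℝ => (K (l + 2 * Real.pi * Complex.I * y)).im) 1 := by
  intro y
  change (K (l + 2 * Real.pi * Complex.I * ((y + 1 : ℝ) : ℂ))).im = _
  rw [ln_one h h1 h2]
  simp

theorem line_low (h : WK κ K) (h1 : κ < l) (h2 : l < 0) : ∃ t : ℂ, t.re = l ∧ ∀ t' : ℂ, t'.re = l → (K t).im ≤ (K t').im := by
  have hc : Continuous fun y : ℝ => (K (l + 2 * Real.pi * Complex.I * y)).im :=
    Complex.continuous_im.comp (ln_cont h h1 h2)
  obtain ⟨y0, _, hmin⟩ := (isCompact_Icc (a := (0 : ℝ)) (b := 1)).exists_isMinOn (nonempty_Icc.2 zero_le_one) hc.continuousOn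
  refine ⟨l + 2 * Real.pi * Complex.I * y0, ln_re l y0, fun t' ht' => ?_⟩
  obtain ⟨y, rfl⟩ := ln_ex ht'
  obtain ⟨y', hy', e⟩ := (ln_im_per h h1 h2).exists_mem_Ico₀ one_pos y
  have h3 := isMinOn_iff.1 hmin y' ⟨hy'.1, hy'.2.le⟩
  exact h3.trans e.ge

theorem line_top (h : WK κ K) (h1 : κ < l) (h2 : l < 0) : ∃ t : ℂ, t.re = l ∧ ∀ t' : ℂ, t'.re = l → (K t').im ≤ (K t).im := by
  have hc : Continuous fun y : ℝ => (K (l + 2 * Real.pi * Complex.I * y)).im :=
    Complex.continuous_im.comp (ln_cont h h1 h2)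
  obtain ⟨y0, _, hmax⟩ := (isCompact_Icc (a := (0 : ℝ)) (b := 1)).exists_isMaxOn (nonempty_Icc.2 zero_le_one) hc.continuousOn
  refine ⟨l + 2 * Real.pi * Complex.I * y0, ln_re l y0, fun t' ht' => ?_⟩
  obtain ⟨y, rfl⟩ := ln_ex ht'
  obtain ⟨y', hy', e⟩ := (ln_im_per h h1 h2).exists_mem_Ico₀ one_pos y
  have h3 := isMaxOn_iff.1 hmax y' ⟨hy'.1, hy'.2.le⟩
  exact e.le.trans h3

/-- the highest point of `L` on a vertical line -/
theorem line_hit (h : WK κ K) (h1 : κ < l) (h2 : l < 0) (c : ℝ) :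
    ∃ t : ℂ, t.re = l ∧ (K t).re = c ∧ ∀ t' : ℂ, t'.re = l → (K t').re = c → (K t').im ≤ (K t).im := by
  set f : ℝ → ℝ := fun y => (K (l + 2 * Real.pi * Complex.I * y)).re with hf
  have hfc : Continuous f := Complex.continuous_re.comp (ln_cont h h1 h2)
  have hf1 : ∀ y, f (y + 1) = f y + 1 := by
    intro y
    simp only [hf]
    rw [ln_one h h1 h2]
    simp
  have hgp : Function.Periodic (fun y => f y - y) 1 := by
    intro y
    simp only [hf1]
    ring
  obtain ⟨M, hM⟩ : ∃ M, ∀ y, |f y - y| ≤ M := by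
    obtain ⟨M, hM⟩ := (isCompact_Icc (a := (0 : ℝ)) (b := 1)).exists_bound_of_continuousOn
      (f := fun y => f y - y) (by fun_prop)
    refine ⟨M, fun y => ?_⟩
    obtain ⟨y', hy', e⟩ := hgp.exists_mem_Ico₀ one_pos y
    have e' : f y - y = f y' - y' := e
    rw [e']
    exact hM y' ⟨hy'.1, hy'.2.le⟩
  have hhi : c ≤ f (c + M) := by
    have := (abs_le.1 (hM (c + M))).1
    linarith
  have hlo : f (c - M) ≤ c := by
    have := (abs_le.1 (hM (c - M))).2
    linarith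
  have hM0 : 0 ≤ M := (abs_nonneg _).trans (hM 0)
  obtain ⟨y1, _, hy1⟩ := intermediate_value_Icc (show c - M ≤ c + M by linarith) hfc.continuousOn ⟨hlo, hhi⟩
  have hcomp : IsCompact {y | f y = c} := by
    refine isCompact_Icc.of_isClosed_subset (isClosed_eq hfc continuous_const) (?_ : _ ⊆ Icc (c - M) (c + M))
    intro y hy
    have h3 := abs_le.1 (hM y)
    rw [mem_ofPred_eq] at hy
    rw [hy] at h3
    exact ⟨by linarith [h3.2], by linarith [h3.1]⟩
  have hic : Continuous fun y : ℝ => (K (l + 2 * Real.pi * Complex.I * y)).im :=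
    Complex.continuous_im.comp (ln_cont h h1 h2)
  obtain ⟨y0, hy0, hmax⟩ := hcomp.exists_isMaxOn ⟨y1, hy1⟩ hic.continuousOn
  refine ⟨l + 2 * Real.pi * Complex.I * y0, ln_re l y0, hy0, fun t' ht' hc' => ?_⟩
  obtain ⟨y, rfl⟩ := ln_ex ht'
  exact isMaxOn_iff.1 hmax y hc'

/-- above the highest point -/
theorem nu_above (h : WK κ K) (h1 : κ < l) (h2 : l < 0) {t : ℂ} (ht : ∀ t' : ℂ, t'.re = l → (K t').re = (K t).re → (K t').im ≤ (K t).im)
    {x : ℂ} (hx : x.re = (K t).re) (hi : (K t).im < x.im) : nu K l x = 1 := by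
  obtain ⟨tt, _, htop⟩ := line_top h h1 h2
  set A : Set ℂ := {z | z.re = (K t).re} ∩ {z | (K t).im < z.im} with hA
  have hAc : Convex ℝ A := (convex_hyperplane (Complex.reLm.isLinear) (K t).re).inter (convex_halfSpace_im_gt _)
  set z0 : ℂ := ⟨(K t).re, max (x.im) ((K tt).im + 1)⟩ with hz0
  have hz0A : z0 ∈ A := ⟨rfl, lt_of_lt_of_le hi (le_max_left _ _)⟩
  have h3 : nu K l x = nu K l z0 := by
    refine nu_const h h1 h2 hAc.isPreconnected ?_ ⟨hx, hi⟩ hz0A
    rintro z ⟨hz1, hz2⟩ t' ht' he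
    rw [mem_ofPred_eq] at hz1 hz2
    have h4 := ht t' ht' (by rw [he, hz1])
    rw [he] at h4
    linarith
  rw [h3]
  refine nu_high h h1 h2 fun t' ht' => ?_
  have h5 := htop t' ht'
  have h6 : (K tt).im + 1 ≤ z0.im := le_max_right _ _
  linarith

end Pool.Agent.H66.GEO
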