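import Pool.Agent.H66.GEO.WD1

/-!
# GEO, module WD2: discreteness of the words

PROOFS. `gm_dis`: `dis` for the lifts `ac g ∘ G` and `G'`.
`gm_small`: fix `u ∈ S`. `G` is open at `u` (`deriv G u ≠ 0`): there is `ε > 0` such that every `x` with `‖x - G u‖ < ε` is `G v`, `v` near `u`, where `H` is injective
(`deriv H u ≠ 0`). If `(1, b) ∈ GM`, `0 < ‖b‖ < ε`: `G u + b = G v` for such a `v`, so `H u = H v` (`gm_dis`), `v = u`, `b = 0`.
`lo_scal`: `(a, b) ∈ LO`, `|a| ≠ 1`, `(1, t) ∈ LO`: `g^n (1, t) g^(-n) = (1, a^n t) ∈ LO` for all `n : ℤ` (induction with `lo_mul`, `lo_inv`); `|a|^n → 0` for `n → ∞` or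
`n → -∞`: contradiction to `gm_small` unless `t = 0`.
`lo_comm`: `g k g⁻¹ k⁻¹ = (1, t) ∈ LO`, so `t = 0`.
`lo_gen`: the set `T = {x : ℝ | (1, x t) ∈ LO}` is an additive subgroup of `ℝ` (`lo_mul`, `lo_inv`), it contains `1` and `ρ`, and by `gm_small` it is not dense
(`t ≠ 0`): `AddSubgroup.dense_or_cyclic` (or `AddSubgroup.cyclic_of_isolated_zero`): `T` is generated by some `x0`; `e = x0 t`.
-/

set_option autoImplicit false

open Filter Topology Metric Set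

namespace Pool.Agent.H66.GEO

theorem gm_dis {Q : Set ℂ} {Lf : Set ℂ → (ℂ → ℂ) → (ℂ → ℂ) → Prop} (h : LS Q Lf) {S S' : Set ℂ} {H G H' G' : ℂ → ℂ}
    (hG' : Lf S' H' G') {g : ℝ × ℂ} (hg : g ∈ GM Lf S H G) {u u' : ℂ} (hu : u ∈ S) (hu' : u' ∈ S')
    (he : ac g (G u) = G' u') : H u = H' u' :=
  (h.dis hg.2 hG' u hu u' hu' he).1

theorem gm_small {Q : Set ℂ} {Lf : Set ℂ → (ℂ → ℂ) → (ℂ → ℂ) → Prop} (h : LS Q Lf) {S : Set ℂ} {H G : ℂ → ℂ}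
    (hG : Lf S H G) (hS : S.Nonempty) :
    ∃ ε : ℝ, 0 < ε ∧ ∀ b : ℂ, ((1, b) : ℝ × ℂ) ∈ GM Lf S H G → b ≠ 0 → ε ≤ ‖b‖ := by
  obtain ⟨u, hu⟩ := hS
  have hn : S ∈ 𝓝 u := (h.op hG).1.mem_nhds hu
  -- `H` is injective near `u`
  have hH : HasStrictDerivAt H (deriv H u) u := ((h.dH hG).1.analyticAt hn).hasStrictDerivAt
  have hG1 : HasStrictDerivAt G (deriv G u) u := ((h.dG hG).1.analyticAt hn).hasStrictDerivAt
  obtain ⟨A, hA, hAi⟩ : ∃ A ∈ 𝓝 u, InjOn H A := by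
    have h1 := hH.hasStrictFDerivAt_equiv ((h.dH hG).2 u hu).2
    exact ⟨_, (h1.toOpenPartialHomeomorph H).open_source.mem_nhds h1.mem_toOpenPartialHomeomorph_source,
      (h1.toOpenPartialHomeomorph H).injOn⟩
  have h2 : G '' (A ∩ S) ∈ 𝓝 (G u) := by
    rw [← hG1.map_nhds_eq ((h.dG hG).2 u hu)]
    exact image_mem_map (inter_mem hA hn)
  obtain ⟨ε, hε, h3⟩ := Metric.mem_nhds_iff.1 h2
  refine ⟨ε, hε, fun b hb hb0 => ?_⟩
  by_contra hlt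
  push Not at hlt
  obtain ⟨v, ⟨hvA, hvS⟩, hv⟩ := h3 (show G u + b ∈ ball (G u) ε by
    rw [mem_ball, dist_eq_norm, add_sub_cancel_left]
    exact hlt)
  have h4 : H u = H v := gm_dis h hG hb hu hvS (by rw [hv]; simp [ac])
  have h5 : u = v := hAi (mem_of_mem_nhds hA) hvA h4
  rw [← h5] at hv
  exact hb0 (left_eq_add.1 hv)

theorem lo_scal {Q : Set ℂ} {Lf : Set ℂ → (ℂ → ℂ) → (ℂ → ℂ) → Prop} (h : LS Q Lf) {S : Set ℂ} {H G : ℂ → ℂ}
    (hG : Lf S H G) (hS : S.Nonempty) {g : ℝ × ℂ} (hg : g ∈ LO Lf S H G) (ha : |g.1| ≠ 1) {t : ℂ}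
    (ht : ((1, t) : ℝ × ℂ) ∈ LO Lf S H G) : t = 0 := by
  by_contra ht0
  obtain ⟨ε, hε, hsm⟩ := gm_small h hG hS
  have key : ∀ k ∈ LO Lf S H G, |k.1| < 1 → False := by
    intro k hk hk1
    have h1 : ∀ n : ℕ, ((1, (k.1 : ℂ) ^ n * t) : ℝ × ℂ) ∈ LO Lf S H G := by
      intro n
      induction n with
      | zero => simpa using ht
      | succ n ih =>
        have h2 := lo_mul (lo_mul hk ih) (lo_inv hk)
        have h3 : mu (mu k (1, (k.1 : ℂ) ^ n * t)) (iv k) = (1, (k.1 : ℂ) ^ (n + 1) * t) := by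
          have h4 : (k.1 : ℂ) ≠ 0 := Complex.ofReal_ne_zero.2 hk.1
          ext1
          · simp [mu, iv, hk.1]
          · simp only [mu, iv, Complex.ofReal_one, mul_one]
            field_simp
            ring
        rwa [h3] at h2
    have h5 : Tendsto (fun n : ℕ => |k.1| ^ n * ‖t‖) atTop (𝓝 (0 * ‖t‖)) :=
      (tendsto_pow_atTop_nhds_zero_of_lt_one (abs_nonneg _) hk1).mul_const _
    rw [zero_mul] at h5
    obtain ⟨n, hn⟩ := (h5.eventually (gt_mem_nhds hε)).exists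
    have h6 := hsm _ (lo_gm h hG (h1 n)) (mul_ne_zero (pow_ne_zero _ (Complex.ofReal_ne_zero.2 hk.1)) ht0)
    rw [norm_mul, norm_pow, Complex.norm_real, Real.norm_eq_abs] at h6
    exact absurd hn (not_lt.2 h6)
  rcases lt_or_gt_of_ne ha with h1 | h1
  · exact key g hg h1
  · refine key (iv g) (lo_inv hg) ?_
    show |g.1⁻¹| < 1
    rw [abs_inv]
    exact inv_lt_one_of_one_lt₀ h1

theorem lo_comm {Q : Set ℂ} {Lf : Set ℂ → (ℂ → ℂ) → (ℂ → ℂ) → Prop} (h : LS Q Lf) {S : Set ℂ} {H G : ℂ → ℂ}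
    (hG : Lf S H G) (hS : S.Nonempty) {g k : ℝ × ℂ} (hg : g ∈ LO Lf S H G) (hk : k ∈ LO Lf S H G) (ha : |g.1| ≠ 1) :
    mu g k = mu k g := by
  have h1 : mu (mu g k) (mu (iv g) (iv k)) ∈ LO Lf S H G := lo_mul (lo_mul hg hk) (lo_mul (lo_inv hg) (lo_inv hk))
  have hg1 : (g.1 : ℂ) ≠ 0 := Complex.ofReal_ne_zero.2 hg.1
  have hk1 : (k.1 : ℂ) ≠ 0 := Complex.ofReal_ne_zero.2 hk.1
  have h2 : (mu (mu g k) (mu (iv g) (iv k))).1 = 1 := by
    have e1 := hg.1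
    have e2 := hk.1
    simp only [mu, iv]
    field_simp
  have h3 : (mu (mu g k) (mu (iv g) (iv k))).2 = g.1 * k.2 + g.2 - k.2 - k.1 * g.2 := by
    simp only [mu, iv, Complex.ofReal_mul, Complex.ofReal_inv]
    field_simp
    ring
  have h4 : mu (mu g k) (mu (iv g) (iv k)) = (1, g.1 * k.2 + g.2 - k.2 - k.1 * g.2) := Prod.ext h2 h3
  rw [h4] at h1
  have h5 := lo_scal h hG hS hg ha h1
  refine Prod.ext (mul_comm _ _) ?_
  show (g.1 : ℂ) * k.2 + g.2 = k.1 * g.2 + k.2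
  linear_combination h5

theorem lo_gen {Q : Set ℂ} {Lf : Set ℂ → (ℂ → ℂ) → (ℂ → ℂ) → Prop} (h : LS Q Lf) {S : Set ℂ} {H G : ℂ → ℂ}
    (hG : Lf S H G) (hS : S.Nonempty) {t : ℂ} (ht : t ≠ 0) (h1 : ((1, t) : ℝ × ℂ) ∈ LO Lf S H G) {ρ : ℝ}
    (h2 : ((1, ρ * t) : ℝ × ℂ) ∈ LO Lf S H G) :
    ∃ (e : ℂ) (m n : ℤ), e ≠ 0 ∧ ((1, e) : ℝ × ℂ) ∈ LO Lf S H G ∧ t = m * e ∧ ρ * t = n * e := by
  obtain ⟨ε, hε, hsm⟩ := gm_small h hG hS
  have hmul : ∀ x y : ℂ, ((1, x) : ℝ × ℂ) ∈ LO Lf S H G → ((1, y) : ℝ × ℂ) ∈ LO Lf S H G →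
      ((1, x + y) : ℝ × ℂ) ∈ LO Lf S H G := by
    intro x y hx hy
    have e1 := lo_mul hx hy
    have e2 : mu ((1, x) : ℝ × ℂ) (1, y) = (1, x + y) := by
      ext1
      · simp [mu]
      · simp [mu, add_comm]
    rwa [e2] at e1
  have hneg : ∀ x : ℂ, ((1, x) : ℝ × ℂ) ∈ LO Lf S H G → ((1, -x) : ℝ × ℂ) ∈ LO Lf S H G := by
    intro x hx
    have e1 := lo_inv hx
    have e2 : iv ((1, x) : ℝ × ℂ) = (1, -x) := by
      ext1
      · simp [iv]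
      · simp [iv]
    rwa [e2] at e1
  let T : AddSubgroup ℝ :=
    { carrier := {x : ℝ | ((1, (x : ℂ) * t) : ℝ × ℂ) ∈ LO Lf S H G}
      add_mem' := by
        intro x y hx hy
        show ((1, ((x + y : ℝ) : ℂ) * t) : ℝ × ℂ) ∈ LO Lf S H G
        rw [Complex.ofReal_add, add_mul]
        exact hmul _ _ hx hy
      zero_mem' := by
        show ((1, ((0 : ℝ) : ℂ) * t) : ℝ × ℂ) ∈ LO Lf S H G
        rw [Complex.ofReal_zero, zero_mul]
        exact lo_one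
      neg_mem' := by
        intro x hx
        show ((1, ((-x : ℝ) : ℂ) * t) : ℝ × ℂ) ∈ LO Lf S H G
        rw [Complex.ofReal_neg, neg_mul]
        exact hneg _ hx }
  have hT : ∀ x : ℝ, x ∈ T ↔ ((1, (x : ℂ) * t) : ℝ × ℂ) ∈ LO Lf S H G := fun x => Iff.rfl
  have htn : 0 < ‖t‖ := norm_pos_iff.2 ht
  obtain ⟨x0, hx0⟩ := AddSubgroup.cyclic_of_isolated_zero (H := T) (a := ε / ‖t‖) (div_pos hε htn) (by
    rw [Set.disjoint_left]
    rintro x hx ⟨h3, h4⟩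
    have h5 := hsm _ (lo_gm h hG ((hT x).1 hx)) (mul_ne_zero (Complex.ofReal_ne_zero.2 h3.ne') ht)
    rw [norm_mul, Complex.norm_real, Real.norm_eq_abs, abs_of_pos h3] at h5
    rw [lt_div_iff₀ htn] at h4
    exact absurd h4 (not_lt.2 h5))
  have m1 : (1 : ℝ) ∈ T := by
    rw [hT, Complex.ofReal_one, one_mul]
    exact h1
  have m2 : ρ ∈ T := h2
  have m3 : x0 ∈ T := by
    rw [hx0]
    exact AddSubgroup.mem_closure_singleton_self x0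
  rw [hx0, AddSubgroup.mem_closure_singleton] at m1 m2
  obtain ⟨m, hm⟩ := m1
  obtain ⟨n, hn⟩ := m2
  rw [zsmul_eq_mul] at hm hn
  have hm' : (m : ℂ) * (x0 : ℂ) = 1 := by exact_mod_cast congrArg (fun x : ℝ => (x : ℂ)) hm
  have hn' : (n : ℂ) * (x0 : ℂ) = ρ := by exact_mod_cast congrArg (fun x : ℝ => (x : ℂ)) hn
  have hx00 : (x0 : ℂ) ≠ 0 := by
    intro h0
    rw [h0, mul_zero] at hm'
    exact zero_ne_one hm'
  refine ⟨x0 * t, m, n, mul_ne_zero hx00 ht, (hT x0).1 m3, ?_, ?_⟩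
  · rw [← mul_assoc, hm', one_mul]
  · rw [← mul_assoc, hn']

end Pool.Agent.H66.GEO
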