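import Pool.Agent.H66.GEO.Bas
import Pool.Agent.H66.GEO.NU
import Pool.Agent.H66.GEO.WD2

/-!
# GEO, module On: the situation of section 5 (think 1848) for one fixed `s`

`ON`: `ψ` = the strip map of `X_s`, `K = ± G_s` its lift, `K (t + 2 π i) = K t + 1`, `l = log r / 2^s`, `Y = X_s^r`, `I` = the inverse of `± G_0` near `p` (a lift with `G = id`), the disc `ball g (3 ρ)`,
the link (a point `K t ∈ ball g ρ`, `t.re = l`, `p_s`), the heights. `XI`: the exit data: `K tb` = the highest point of `L` on the vertical line of `x'`, `x'` = the first exit point.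
`EG`: the affine map `γ` at the exit point.
-/

set_option autoImplicit false

open Filter Topology Metric Set

namespace Pool.Agent.H66.GEO

/-- the situation of section 5 -/
structure ON (Q : Set ℂ) (Lf : Set ℂ → (ℂ → ℂ) → (ℂ → ℂ) → Prop) (κ l : ℝ) (ψ K : ℂ → ℂ) (Y : Set ℂ) (g : ℂ) (ρ : ℝ) (I : ℂ → ℂ) : Prop where
  ls : LS Q Lf
  h1 : κ < l
  h2 : l < 0
  lf : Lf (St κ 0) ψ K
  one : ∀ t ∈ St κ 0, K (t + 2 * Real.pi * Complex.I) = K t + 1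
  per : ∀ t ∈ St κ 0, ψ (t + 2 * Real.pi * Complex.I) = ψ t
  inj : ∀ t ∈ St κ 0, ∀ t' ∈ St κ 0, ψ t = ψ t' → ∃ k : ℤ, t' = t + 2 * Real.pi * Complex.I * k
  Yo : IsOpen Y
  fr : frontier Y = ψ '' {t | t.re = l}
  ins : ∀ t : ℂ, κ < t.re → t.re < l → ψ t ∈ Y
  out : ∀ t : ℂ, l ≤ t.re → t.re < 0 → ψ t ∉ Y
  ρ0 : 0 < ρ
  li : Lf (ball g (3 * ρ)) I (fun x => x)
  iI : InjOn I (ball g (3 * ρ))
  lk : ∃ t : ℂ, t.re = l ∧ K t ∈ ball g ρ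
  ht : ∀ t : ℂ, t.re = l → |(K t).im - g.im| ≤ ρ / 2

/-- the exit data -/
structure XI (l : ℝ) (ψ K : ℂ → ℂ) (Y : Set ℂ) (g : ℂ) (ρ : ℝ) (I : ℂ → ℂ) (tb t' x' : ℂ) : Prop where
  b : tb.re = l
  e : t'.re = l
  re : (K tb).re = x'.re
  im : (K tb).im < x'.im
  top : ∀ t : ℂ, t.re = l → (K t).re = x'.re → (K t).im ≤ (K tb).im
  mb : K tb ∈ ball g (3 * ρ)
  mx : x' ∈ ball g (3 * ρ)
  ins : ∀ x : ℂ, x.re = x'.re → (K tb).im < x.im → x.im < x'.im → I x ∈ Y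
  hx : I x' = ψ t'

/-- the affine map at the exit point -/
structure EG (Lf : Set ℂ → (ℂ → ℂ) → (ℂ → ℂ) → Prop) (κ l : ℝ) (ψ K : ℂ → ℂ) (t' x' : ℂ) (γ : ℝ × ℂ) : Prop where
  lo : γ ∈ LO Lf (St κ 0) ψ K
  pm : γ.1 = 1 ∨ γ.1 = -1
  hx : x' = ac γ (K t')
  dj : ∀ t1 t2 : ℂ, t1.re = l → t2.re = l → ac γ (K t1) ≠ K t2
  n1 : ∀ t : ℂ, t.re = l → nu K l (ac γ (K t)) = 1
  n2 : ∀ t : ℂ, t.re = l → nu K l (ac (iv γ) (K t)) = 1

variable {Q : Set ℂ} {Lf : Set ℂ → (ℂ → ℂ) → (ℂ → ℂ) → Prop} {κ l : ℝ} {ψ K : ℂ → ℂ} {Y : Set ℂ} {g : ℂ} {ρ : ℝ} {I : ℂ → ℂ}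

/-- `(1, 1)` is a loop: `loop` at `t`, `t + 2 π i`, and `aff_id` (as in `gg_wd`) -/
theorem on_one (h : ON Q Lf κ l ψ K Y g ρ I) : ((1, 1) : ℝ × ℂ) ∈ LO Lf (St κ 0) ψ K := by
  obtain ⟨t, ht, -⟩ := h.lk
  have hm : t ∈ St κ 0 := ⟨by rw [ht]; exact h.h1, by rw [ht]; exact h.h2⟩
  have htr : ∀ v : ℂ, v ∈ St κ 0 → v + 2 * Real.pi * Complex.I ∈ St κ 0 := fun v hv =>
    (st_tr (by simp)).2 hv
  obtain ⟨γ, h1, -, ε, h3, h4⟩ := loop h.ls h.lf hm (htr t hm) (h.per t hm).symm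
  have h5 : γ = (1, 1) := by
    refine aff_id (st_open κ 0) (h.ls.dG h.lf).1 hm ((h.ls.dG h.lf).2 t hm) ?_
    filter_upwards [(st_open κ 0).mem_nhds hm, ball_mem_nhds t h3] with v v1 v2
    rw [mem_ball, dist_eq_norm] at v2
    rw [← h4 v v1 (v + 2 * Real.pi * Complex.I) (htr v v1) v2 (by rwa [add_sub_add_right_eq_sub]) (h.per v v1).symm,
      h.one v v1]
    simp [ac]
  rwa [h5] at h1

/-- integer translations are loops -/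
theorem on_int (h : ON Q Lf κ l ψ K Y g ρ I) (k : ℤ) : ((1, (k : ℂ)) : ℝ × ℂ) ∈ LO Lf (St κ 0) ψ K := by
  have hn : ∀ n : ℕ, ((1, (n : ℂ)) : ℝ × ℂ) ∈ LO Lf (St κ 0) ψ K := by
    intro n
    induction n with
    | zero => simpa using (lo_one : ((1, 0) : ℝ × ℂ) ∈ LO Lf (St κ 0) ψ K)
    | succ n ih =>
      have e1 := lo_mul (on_one h) ih
      have e2 : mu ((1, 1) : ℝ × ℂ) (1, (n : ℂ)) = (1, ((n + 1 : ℕ) : ℂ)) := by
        ext1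
        · simp [mu]
        · simp [mu]
      rwa [e2] at e1
  obtain ⟨n, rfl | rfl⟩ := k.eq_nat_or_neg
  · exact_mod_cast hn n
  · have e1 := lo_inv (hn n)
    have e2 : iv ((1, (n : ℂ)) : ℝ × ℂ) = (1, ((-(n : ℤ) : ℤ) : ℂ)) := by
      ext1
      · simp [iv]
      · simp [iv]
    rwa [e2] at e1

/-- `K t' = K t + k`: `(1, k) ∈ GM`, `gm_dis` gives `ψ t' = ψ t`, `inj` -/
theorem on_wk (h : ON Q Lf κ l ψ K Y g ρ I) : WK κ K := by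
  refine ⟨(h.ls.dG h.lf).1, h.one, fun t ht t' ht' k hk => h.inj t ht t' ht' ?_⟩
  refine gm_dis h.ls h.lf (lo_gm h.ls h.lf (on_int h k)) ht ht' ?_
  rw [hk]
  simp [ac]

/-- the two lifts have the same loops (`lo_trans` at the link) -/
theorem on_lo (h : ON Q Lf κ l ψ K Y g ρ I) : LO Lf (ball g (3 * ρ)) I (fun x => x) = LO Lf (St κ 0) ψ K := by
  obtain ⟨t, ht, ht'⟩ := h.lk
  have hm : t ∈ St κ 0 := ⟨by rw [ht]; exact h.h1, by rw [ht]; exact h.h2⟩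
  exact lo_trans h.ls h.li h.lf (u := K t) (ball_subset_ball (by linarith [h.ρ0]) ht') hm rfl

/-- equal values up to a word -/
theorem on_dis (h : ON Q Lf κ l ψ K Y g ρ I) {γ : ℝ × ℂ} (hγ : γ ∈ LO Lf (St κ 0) ψ K) {x t : ℂ} (hx : x ∈ ball g (3 * ρ))
    (ht : t ∈ St κ 0) (he : x = ac γ (K t)) : I x = ψ t :=
  (gm_dis h.ls h.li (lo_gm h.ls h.lf hγ) ht hx he.symm).symm

end Pool.Agent.H66.GEO
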