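import Pool.Agent.H66.GEO.WD2

/-!
# GEO, module SC (think 1848, section 3): holonomies; NO SCALING

`hol`: the holonomy of a lift along a period is a loop. `hsym`: along a half period. `gg_lo`: the loops of all levels are the same.
`sc`: the half period of `G 0` is a translation.
PROOF of `sc` (helper85's short cut). `G 0 (t + π i) = a G 0 t + b`, `g = (a², a b + b)` is a loop. Suppose `|a| ≠ 1`. `G 0 (2 t) = A (G 1 t)`, so
`G 1 (t + π i) = k (G 1 t)`, `k = A⁻¹ g A`, and `k²` is a loop (`hol`, level 1), it commutes with `g` (`lo_comm`): computation gives `k = g`. So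
`g ∘ G 1` lifts `ψ 1` and takes at `t` the value `G 1 (t + π i)`: `ψ 1 t = ψ 1 (t + π i) = - ψ 1 t` (`gm_dis`), `ψ 1 t = 0 ∈ Q`: contradiction.
`a = -1`, or `a = 1`, `b = 0`: then `G 0` has period `2 π i`, and `typ` says `0 ∉ φ 0 '' ball 0 1`, but `φ 0 0 = 0`.
-/

set_option autoImplicit false

open Filter Topology Metric Set

namespace Pool.Agent.H66.GEO

private theorem st_op (a b : ℝ) : IsOpen (St a b) :=
  (isOpen_lt continuous_const Complex.continuous_re).inter (isOpen_lt Complex.continuous_re continuous_const)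

private theorem st_cv (a b : ℝ) : Convex ℝ (St a b) :=
  (convex_halfSpace_re_gt a).inter (convex_halfSpace_re_lt b)

theorem ss_add {th : ℝ} {s : ℕ} {t p : ℂ} (hp : p.re = 0) (ht : t ∈ Ss th s) : t + p ∈ Ss th s := by
  have h1 : (t + p).re = t.re := by rw [Complex.add_re, hp, add_zero]
  exact ⟨by rw [h1]; exact ht.1, by rw [h1]; exact ht.2⟩

theorem ss_two {th : ℝ} {s : ℕ} {t : ℂ} (ht : t ∈ Ss th s) : 2 ^ s * t ∈ Ss th 0 := by
  have h1 : ((2 : ℂ) ^ s * t).re = 2 ^ s * t.re := by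
    have : ((2 : ℂ) ^ s) = (((2 : ℝ) ^ s : ℝ) : ℂ) := by push_cast; rfl
    rw [this, Complex.re_ofReal_mul]
  have h2 : (0 : ℝ) < 2 ^ s := by positivity
  obtain ⟨h3, h4⟩ := ht
  refine ⟨?_, ?_⟩
  · rw [h1, pow_zero, div_one]
    rw [div_lt_iff₀ h2] at h3
    linarith
  · rw [h1]
    exact mul_neg_of_pos_of_neg h2 h4

theorem ss_ne {th : ℝ} (h0 : 0 < th) (h1 : th < 1) (s : ℕ) : (Ss th s).Nonempty := by
  refine ⟨((Real.log th / 2 ^ s / 2 : ℝ) : ℂ), ?_⟩
  have h2 : Real.log th / 2 ^ s < 0 := div_neg_of_neg_of_pos (Real.log_neg h0 h1) (by positivity)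
  refine ⟨?_, ?_⟩
  · rw [Complex.ofReal_re]
    linarith
  · rw [Complex.ofReal_re]
    linarith

/-- the holonomy of a lift along a period is a loop -/
theorem hol {Q : Set ℂ} {Lf : Set ℂ → (ℂ → ℂ) → (ℂ → ℂ) → Prop} (h : LS Q Lf) {S : Set ℂ} {H K : ℂ → ℂ}
    (hK : Lf S H K) {p : ℂ} (hne : S.Nonempty) (hS : ∀ t ∈ S, t + p ∈ S) (hper : ∀ t ∈ S, H (t + p) = H t) :
    ∃ g ∈ LO Lf S H K, ∀ t ∈ S, K (t + p) = ac g (K t) := by
  obtain ⟨u, hu⟩ := hne
  obtain ⟨g, hg, -, ε, hε, hnear⟩ := loop h hK hu (hS u hu) (hper u hu).symm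
  have hop := (h.op hK).1
  have hder : ∀ x : ℂ, deriv (fun v : ℂ => v + p) x ≠ 0 := by
    intro x
    rw [deriv_add_const, deriv_id'']
    exact one_ne_zero
  have h1 : Lf S H (fun t => K (t + p)) := by
    refine h.sub hK S (fun v => v + p) H _ hop (h.op hK).2 ((differentiable_id.add_const p).differentiableOn) ?_
    intro v hv
    exact ⟨hS v hv, hder v, (hper v hv).symm, rfl⟩
  obtain ⟨a, b, ha, hab⟩ := h.gal hK h1
  have h2 : ((a, b) : ℝ × ℂ) = g := by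
    refine aff_id hop (h.dG hK).1 hu ((h.dG hK).2 u hu) ?_
    filter_upwards [hop.mem_nhds hu, ball_mem_nhds u hε] with v hv hvb
    have h3 := hnear v hv (v + p) (hS v hv) (by rw [← dist_eq_norm]; exact hvb)
      (by rw [add_sub_add_right_eq_sub, ← dist_eq_norm]; exact hvb) (hper v hv).symm
    rw [← h3, hab v hv]
    rfl
  refine ⟨g, hg, fun t ht => ?_⟩
  rw [hab t ht, ← h2]
  rfl

/-- half periods -/
theorem hsym {Q : Set ℂ} {Lf : Set ℂ → (ℂ → ℂ) → (ℂ → ℂ) → Prop} (h : LS Q Lf) {S : Set ℂ} {H K : ℂ → ℂ}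
    (hK : Lf S H K) {p : ℂ} (hS : ∀ t ∈ S, t + p ∈ S) (hanti : ∀ t ∈ S, H (t + p) = - H t) :
    ∃ (a : ℝ) (b : ℂ), a ≠ 0 ∧ ∀ t ∈ S, K (t + p) = a * K t + b := by
  have hder : ∀ x : ℂ, deriv (fun v : ℂ => v + p) x ≠ 0 := by
    intro x
    rw [deriv_add_const, deriv_id'']
    exact one_ne_zero
  have h1 : Lf S (fun t => - H t) (fun t => K (t + p)) := by
    refine h.sub hK S (fun v => v + p) _ _ (h.op hK).1 (h.op hK).2 ((differentiable_id.add_const p).differentiableOn) ?_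
    intro v hv
    exact ⟨hS v hv, hder v, (hanti v hv).symm, rfl⟩
  exact h.sym hK h1

/-- the groups of all levels are the same -/
theorem gg_gm {Q : Set ℂ} {Lf : Set ℂ → (ℂ → ℂ) → (ℂ → ℂ) → Prop} (h : LS Q Lf) {th r : ℝ} {ψ G : ℕ → ℂ → ℂ}
    (hG : GG Lf th r ψ G) (s : ℕ) : GM Lf (Ss th s) (ψ s) (G s) = GM Lf (Ss th 0) (ψ 0) (G 0) := by
  rcases s with _ | s
  · rfl
  obtain ⟨t, ht, t', ht', -, -, -, he⟩ := hG.lk s
  exact trans h (hG.lf (s + 1)) (hG.lf 0) ht' ht he.symm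

theorem gg_lo {Q : Set ℂ} {Lf : Set ℂ → (ℂ → ℂ) → (ℂ → ℂ) → Prop} (h : LS Q Lf) {th r : ℝ} {ψ G : ℕ → ℂ → ℂ}
    (hG : GG Lf th r ψ G) (s : ℕ) : LO Lf (Ss th s) (ψ s) (G s) = LO Lf (Ss th 0) (ψ 0) (G 0) := by
  rcases s with _ | s
  · rfl
  obtain ⟨t, ht, t', ht', -, -, -, he⟩ := hG.lk s
  exact lo_trans h (hG.lf (s + 1)) (hG.lf 0) ht' ht he.symm

theorem pi_re : ((Real.pi : ℂ) * Complex.I).re = 0 := by simp

theorem ps_per1 {th : ℝ} {φ F : ℕ → ℂ → ℂ} {ω α : ℕ → ℂ} {ψ : ℕ → ℂ → ℂ} (hP : PS th φ F ω α ψ) (s : ℕ) :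
    ∀ t ∈ Ss th s, ψ s (t + 2 * Real.pi * Complex.I) = ψ s t := by
  intro t ht
  have h1 := hP.per s t ht
  have h2 := hP.per s (t + Real.pi * Complex.I) (ss_add pi_re ht)
  rw [h1, neg_neg] at h2
  rw [← h2]
  congr 1
  ring

/-- the holonomies of the lifts `G s` -/
theorem hol_s {Q : Set ℂ} {Lf : Set ℂ → (ℂ → ℂ) → (ℂ → ℂ) → Prop} (h : LS Q Lf) {th r : ℝ} {φ F : ℕ → ℂ → ℂ}
    {ω α : ℕ → ℂ} (hX : XS Q Lf th r φ F ω α) {ψ : ℕ → ℂ → ℂ} (hP : PS th φ F ω α ψ) {G : ℕ → ℂ → ℂ}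
    (hG : GG Lf th r ψ G) (s : ℕ) : ∃ g ∈ LO Lf (Ss th 0) (ψ 0) (G 0), ∀ t ∈ Ss th s,
      G s (t + 2 * Real.pi * Complex.I) = ac g (G s t) := by
  obtain ⟨g, hg, h1⟩ := hol h (hG.lf s) (p := 2 * Real.pi * Complex.I) (ss_ne hX.th0 (hX.thr.trans hX.r1) s)
    (fun t ht => ss_add (by simp) ht) (ps_per1 hP s)
  rw [gg_lo h hG s] at hg
  exact ⟨g, hg, h1⟩

/-- **no scaling**: the half period is a translation -/
theorem sc {Q : Set ℂ} {Lf : Set ℂ → (ℂ → ℂ) → (ℂ → ℂ) → Prop} (h : LS Q Lf) {th r : ℝ} {φ F : ℕ → ℂ → ℂ}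
    {ω α : ℕ → ℂ} (hX : XS Q Lf th r φ F ω α) {ψ : ℕ → ℂ → ℂ} (hP : PS th φ F ω α ψ) {G : ℕ → ℂ → ℂ}
    (hG : GG Lf th r ψ G) : ∃ c : ℂ, c ≠ 0 ∧ ((1, c) : ℝ × ℂ) ∈ LO Lf (Ss th 0) (ψ 0) (G 0) ∧
      ∀ t ∈ Ss th 0, G 0 (t + Real.pi * Complex.I) = G 0 t + c / 2 := by
  have hth1 : th < 1 := hX.thr.trans hX.r1
  have hop : ∀ s, IsOpen (Ss th s) := fun s => st_op _ _
  have hpi : ∀ s, ∀ t ∈ Ss th s, t + Real.pi * Complex.I ∈ Ss th s := fun s t ht => ss_add pi_re ht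
  obtain ⟨a, b, ha, hab⟩ := hsym h (hG.lf 0) (hpi 0) (hP.per 0)
  obtain ⟨g, hg, hgt⟩ := hol_s h hX hP hG 0
  have h2pi : ∀ t : ℂ, t + 2 * Real.pi * Complex.I = (t + Real.pi * Complex.I) + Real.pi * Complex.I := by
    intro t
    ring
  have hgab : g = (a * a, a * b + b) := by
    obtain ⟨u, hu⟩ := ss_ne hX.th0 hth1 0
    refine aff_id (hop 0) (h.dG (hG.lf 0)).1 hu ((h.dG (hG.lf 0)).2 u hu) ?_
    filter_upwards [(hop 0).mem_nhds hu] with v hv
    rw [← hgt v hv, h2pi, hab _ (hpi 0 v hv), hab v hv]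
    simp only [ac]
    push_cast
    ring
  -- period `2 π i` is impossible
  have hnp : ¬ ∀ t ∈ Ss th 0, G 0 (t + 2 * Real.pi * Complex.I) = G 0 t := by
    intro hp
    have hψ : ψ 0 = fun t => φ 0 (Complex.exp t) := funext hP.zer
    have hSs : Ss th 0 = St (Real.log (1 - (1 - th))) 0 := by
      unfold Ss
      rw [pow_zero, div_one, sub_sub_cancel]
    have hL := hG.lf 0
    rw [hψ, hSs] at hL
    have h4 : ∀ t ∈ St (Real.log (1 - (1 - th))) 0, G 0 (t + 4 * Real.pi * Complex.I) = G 0 t := by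
      intro t ht
      rw [← hSs] at ht
      have h5 : t + 4 * Real.pi * Complex.I = (t + 2 * Real.pi * Complex.I) + 2 * Real.pi * Complex.I := by ring
      rw [h5, hp _ (ss_add (by simp) ht), hp t ht]
    refine h.typ (φ 0) (G 0) (1 - th) (by linarith) (by linarith [hX.th0]) (hX.dφ 0) (hX.iφ 0) hX.bφ
      ⟨0, mem_ball_self one_pos, ?_⟩ hL h4
    have h7 := hX.oφ 0 0 (mem_ball_self one_pos)
    rw [neg_zero] at h7
    have h8 : (2 : ℂ) * φ 0 0 = 0 := by linear_combination h7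
    simpa using h8
  have habs : a * a = 1 := by
    by_contra hne
    have hg1 : |g.1| ≠ 1 := by
      rw [hgab]
      show |a * a| ≠ 1
      rw [abs_mul_self]
      exact hne
    obtain ⟨g1, hg1m, hg1t⟩ := hol_s h hX hP hG 1
    have hcomm := lo_comm h (hG.lf 0) (ss_ne hX.th0 hth1 0) hg hg1m hg1
    obtain ⟨A, B, hA, hAB⟩ := hG.ab 1
    have hA' : (A : ℂ) ≠ 0 := by exact_mod_cast hA
    -- the half period of `G 1`
    have hk : ∀ t ∈ Ss th 1, G 1 (t + Real.pi * Complex.I) = (a * a : ℝ) * G 1 t + (g.1 * B + g.2 - B) / A := by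
      intro t ht
      have h3 := hAB t ht
      have h4 := hAB _ (hpi 1 t ht)
      have h5 : (2 : ℂ) ^ 1 * (t + Real.pi * Complex.I) = 2 ^ 1 * t + 2 * Real.pi * Complex.I := by ring
      rw [h5, hgt _ (ss_two ht), h3] at h4
      have h6 : (A : ℂ) * G 1 (t + Real.pi * Complex.I) = (g.1 * (A * G 1 t + B) + g.2) - B := by
        simp only [ac] at h4
        linear_combination -h4
      have h7 : (g.1 : ℂ) = ((a * a : ℝ) : ℂ) := by rw [hgab]
      rw [← h7]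
      field_simp
      linear_combination h6
    set D : ℂ := (g.1 * B + g.2 - B) / A with hD
    have hg1' : g1 = ((a * a) * (a * a), (a * a : ℝ) * D + D) := by
      obtain ⟨u, hu⟩ := ss_ne hX.th0 hth1 1
      refine aff_id (hop 1) (h.dG (hG.lf 1)).1 hu ((h.dG (hG.lf 1)).2 u hu) ?_
      filter_upwards [(hop 1).mem_nhds hu] with v hv
      rw [← hg1t v hv, h2pi, hk _ (hpi 1 v hv), hk v hv]
      simp only [ac]
      push_cast
      ring
    have hDg : D = g.2 := by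
      rw [hg1'] at hcomm
      have h3 := congrArg Prod.snd hcomm
      rw [hgab] at h3
      simp only [mu] at h3
      have h4 : g.2 = a * b + b := by rw [hgab]
      rw [h4]
      have h5 : (((a * a) * (a * a) - 1 : ℝ) : ℂ) * (D - (a * b + b)) = 0 := by
        push_cast
        push_cast at h3
        linear_combination h3
      have h6 : ((a * a) * (a * a) - 1 : ℝ) ≠ 0 := by
        intro h7
        have h8 : (a * a - 1) * (a * a + 1) = 0 := by linarith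
        rcases mul_eq_zero.1 h8 with h9 | h9
        · exact hne (by linarith)
        · nlinarith [mul_self_nonneg a]
      have h7 : (((a * a) * (a * a) - 1 : ℝ) : ℂ) ≠ 0 := by exact_mod_cast h6
      exact sub_eq_zero.1 ((mul_eq_zero.1 h5).resolve_left h7)
    obtain ⟨u, hu⟩ := ss_ne hX.th0 hth1 1
    have hgm : g ∈ GM Lf (Ss th 1) (ψ 1) (G 1) := by
      rw [gg_gm h hG 1]
      exact lo_gm h (hG.lf 0) hg
    have h3 : ac g (G 1 u) = G 1 (u + Real.pi * Complex.I) := by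
      rw [hk u hu, hDg, hgab]
      rfl
    have h4 := gm_dis h (hG.lf 1) hgm hu (hpi 1 u hu) h3
    rw [hP.per 1 u hu] at h4
    have h5 : (2 : ℂ) * ψ 1 u = 0 := by linear_combination h4
    have h6 : ψ 1 u = 0 := by simpa using h5
    have h7 := ((h.dH (hG.lf 1)).2 u hu).1
    rw [h6] at h7
    exact h7 h.Q0
  have ha1 : a = 1 ∨ a = -1 := by
    have h3 : (a - 1) * (a + 1) = 0 := by linarith
    rcases mul_eq_zero.1 h3 with h4 | h4
    · left
      linarith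
    · right
      linarith
  rcases ha1 with ha1 | ha1
  · refine ⟨2 * b, ?_, ?_, ?_⟩
    · intro h3
      have hb : b = 0 := by simpa using h3
      apply hnp
      intro t ht
      rw [h2pi, hab _ (hpi 0 t ht), hab t ht, ha1, hb]
      push_cast
      ring
    · have h3 : ((1, 2 * b) : ℝ × ℂ) = g := by
        rw [hgab, ha1]
        refine Prod.ext ?_ ?_
        · simp
        · simp only
          push_cast
          ring
      rw [h3]
      exact hg
    · intro t ht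
      rw [hab t ht, ha1]
      push_cast
      ring
  · exfalso
    apply hnp
    intro t ht
    rw [h2pi, hab _ (hpi 0 t ht), hab t ht, ha1]
    push_cast
    ring

end Pool.Agent.H66.GEO
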