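import Pool.Agent.H66.GEO.STR1
import Pool.Agent.H66.GEO.Bas

/-!
# GEO, module STR2: the next annulus

`cv`: the critical value `ω s * α s = B s 0` lies in the core `‖BB s‖ ≤ th`.
PROOFS. `xx_sqrt`: `t ↦ mm (x (2 t))` is holomorphic without zeros on the convex strip `Ss th (s+1)` (`2 t ∈ Ss th s`; `x (2 t) ≠ ω s * α s` by `lev` and `cv`), so it has a
holomorphic square root (`H81/RW/Lgf`: `sqrt_full` / `log_full`, or integrate the logarithmic derivative on a convex set).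
`xx_sign`: `y (t + π i)² = mm (x (2 t + 2 π i)) = y t ²` (`x` has period `2 π i` by `per` twice), so `y (t + π i) = ± y t` with a constant sign (continuous, no zeros, `Ss` convex).
Suppose the sign is `+`. Then `y t` depends only on `x (2 t)`: if `x (2 t) = x (2 t')`, then `2 t' = 2 t + 2 π i k`, `t' = t + π i k`, `y t' = y t`. By `sur` there is
`σ` on the annulus `{w | ‖w‖ < 1, th < ‖BB s w‖}` with `σ (x (2 t)) = y t`; `σ` is continuous because `t ↦ x (2 t)` is open (`der`) and onto. Take `ρ` from `bb_near`,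
`ρ ≥ ‖α s‖`. On `St (log ρ) 0`: `u ↦ σ (exp u)` and `q u` (`log_mm`) are continuous square roots of `mm (exp u)`, without zeros, so their quotient is continuous with values
`± 1`, constant; but `σ (exp (u + 2 π i)) = σ (exp u)` and `q (u + 2 π i) = - q u`. Contradiction.
`xx_succ`: `mm_bl`; `der`: differentiate `B (y t) = x (2 t)`; `inj`: `y t = y t'` gives `x (2 t) = x (2 t')`, `t' = t + π i k`, `y t' = (-1)^k y t`, so `k` is even;
`sur`: `w = B y0` lies in the annulus of level `s`, `w = x (2 t)`, `y0 ^ 2 = y t ^ 2`, so `y0 = y t` or `y0 = y (t + π i)`.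
-/

set_option autoImplicit false

open Filter Topology Metric Set

namespace Pool.Agent.H66.GEO

private theorem simp_conn {S : Set ℂ} (hS : Convex ℝ S) (hn : S.Nonempty) : IsSimplyConnected S := by
  haveI : ContractibleSpace S := hS.contractibleSpace hn
  show SimplyConnectedSpace S
  infer_instance

/-- a continuous square root of a holomorphic function without zeros is holomorphic -/
private theorem sq_dif {S : Set ℂ} (hS : IsOpen S) {y h : ℂ → ℂ} (hy : ContinuousOn y S) (hh : DifferentiableOn ℂ h S)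
    (he : ∀ t ∈ S, y t ^ 2 = h t) (hn : ∀ t ∈ S, y t ≠ 0) : DifferentiableOn ℂ y S := by
  intro a ha
  have hya : ContinuousAt y a := hy.continuousAt (hS.mem_nhds ha)
  have hha : HasDerivAt h (deriv h a) a := (hh.differentiableAt (hS.mem_nhds ha)).hasDerivAt
  have h2 : y a + y a ≠ 0 := by
    rw [← two_mul]; exact mul_ne_zero two_ne_zero (hn a ha)
  apply DifferentiableAt.differentiableWithinAt
  refine HasDerivAt.differentiableAt (f' := deriv h a / (y a + y a)) ?_
  rw [hasDerivAt_iff_tendsto_slope] at hha ⊢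
  have hc : Tendsto (fun t => y t + y a) (𝓝[≠] a) (𝓝 (y a + y a)) :=
    (hya.tendsto.add tendsto_const_nhds).mono_left nhdsWithin_le_nhds
  have hq := hha.div hc h2
  refine hq.congr' ?_
  have e1 : ∀ᶠ t in 𝓝[≠] a, t ∈ S := nhdsWithin_le_nhds (hS.mem_nhds ha)
  have e2 : ∀ᶠ t in 𝓝[≠] a, y t + y a ≠ 0 := hc.eventually_ne h2
  filter_upwards [e1, e2, self_mem_nhdsWithin] with t ht1 ht2 ht3
  have ht4 : t - a ≠ 0 := sub_ne_zero.mpr ht3
  show slope h a t / (y t + y a) = slope y a t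
  rw [slope_def_field, slope_def_field, ← he t ht1, ← he a ha]
  field_simp
  ring

private theorem ss_open (th : ℝ) (s : ℕ) : IsOpen (Ss th s) := st_open _ _

private theorem ss_conv (th : ℝ) (s : ℕ) : Convex ℝ (Ss th s) := st_conv _ _

private theorem st_ne {a b : ℝ} (h : a < b) : (St a b).Nonempty := by
  refine ⟨(((a + b) / 2 : ℝ) : ℂ), ?_, ?_⟩
  · rw [Complex.ofReal_re]; linarith
  · rw [Complex.ofReal_re]; linarith

private theorem ss_ne {th : ℝ} (h0 : 0 < th) (h1 : th < 1) (s : ℕ) : (Ss th s).Nonempty :=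
  st_ne (div_neg_of_neg_of_pos (Real.log_neg h0 h1) (by positivity))

private theorem mm_ne {th : ℝ} (h0 : 0 < th) {ω α : ℕ → ℂ} (hω : ∀ s, ‖ω s‖ = 1) (hα : ∀ s, ‖α s‖ < 1) {s : ℕ} {x : ℂ → ℂ}
    (hx : XX th ω α s x) (cv : ‖BB ω α s (ω s * α s)‖ ≤ th) {t : ℂ} (ht : t ∈ Ss th (s + 1)) :
    mm (ω s) (α s) (x (2 * t)) ≠ 0 := by
  have h2 := ss_half.mp ht
  intro h
  rw [mm_zero (hω s) (hα s) (hx.bal _ h2)] at h
  have h3 := hx.lev _ h2
  rw [h] at h3
  have h4 := ((ss_norm h0).mp h2).1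
  rw [← h3] at h4
  linarith

theorem xx_sqrt {th : ℝ} (h0 : 0 < th) (h1 : th < 1) {ω α : ℕ → ℂ} (hω : ∀ s, ‖ω s‖ = 1) (hα : ∀ s, ‖α s‖ < 1) {s : ℕ} {x : ℂ → ℂ}
    (hx : XX th ω α s x) (cv : ‖BB ω α s (ω s * α s)‖ ≤ th) :
    ∃ y : ℂ → ℂ, DifferentiableOn ℂ y (Ss th (s + 1)) ∧ ∀ t ∈ Ss th (s + 1), y t ^ 2 = mm (ω s) (α s) (x (2 * t)) ∧ y t ≠ 0 := by
  have hS := ss_open th (s + 1)
  have hh : DifferentiableOn ℂ (fun t => mm (ω s) (α s) (x (2 * t))) (Ss th (s + 1)) := by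
    apply (mm_dif (hω s) (hα s)).comp (f := fun t => x (2 * t))
    · apply hx.dif.comp (f := fun t : ℂ => 2 * t)
      · fun_prop
      · intro t ht; exact ss_half.mp ht
    · intro t ht
      have := hx.bal _ (ss_half.mp ht)
      simpa using this
  obtain ⟨y, hy1, hy2⟩ := Complex.exists_continuousOn_pow_eq (simp_conn (ss_conv th (s + 1)) (ss_ne h0 h1 (s + 1))) hS
    hh.continuousOn (by
      rintro ⟨t, ht, h⟩
      exact mm_ne h0 hω hα hx cv ht h) two_ne_zero
  have hne : ∀ t ∈ Ss th (s + 1), y t ≠ 0 := by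
    intro t ht h
    have h3 := hy2 t
    rw [h] at h3
    exact mm_ne h0 hω hα hx cv ht (by rw [← h3]; norm_num)
  refine ⟨y, sq_dif hS hy1 hh (fun t _ => hy2 t) hne, fun t ht => ⟨hy2 t, hne t ht⟩⟩

theorem xx_sign {th : ℝ} (h0 : 0 < th) (h1 : th < 1) {ω α : ℕ → ℂ} (hω : ∀ s, ‖ω s‖ = 1) (hα : ∀ s, ‖α s‖ < 1) {s : ℕ} {x : ℂ → ℂ}
    (hx : XX th ω α s x) {y : ℂ → ℂ} (hy : ContinuousOn y (Ss th (s + 1)))
    (hyx : ∀ t ∈ Ss th (s + 1), y t ^ 2 = mm (ω s) (α s) (x (2 * t)) ∧ y t ≠ 0) :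
    ∀ t ∈ Ss th (s + 1), y (t + Real.pi * Complex.I) = - y t := by
  classical
  have hS := ss_open th (s + 1)
  have hpc : IsPreconnected (Ss th (s + 1)) := (ss_conv th (s + 1)).isPreconnected
  have hmem : ∀ t, t ∈ Ss th (s + 1) → t + Real.pi * Complex.I ∈ Ss th (s + 1) := fun t ht => st_pi.mpr ht
  have hper : ∀ t ∈ Ss th s, x (t + 2 * Real.pi * Complex.I) = x t := by
    intro t ht
    have e : t + 2 * Real.pi * Complex.I = (t + Real.pi * Complex.I) + Real.pi * Complex.I := by ring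
    rw [e, hx.per _ (st_pi.mpr ht), hx.per _ ht, neg_neg]
  have hcomp : ContinuousOn (fun t => y (t + Real.pi * Complex.I)) (Ss th (s + 1)) := by
    apply hy.comp (f := fun t : ℂ => t + Real.pi * Complex.I)
    · fun_prop
    · intro t ht; exact hmem t ht
  have hsq : EqOn ((fun t => y (t + Real.pi * Complex.I)) ^ 2) (y ^ 2) (Ss th (s + 1)) := by
    intro t ht
    show y (t + Real.pi * Complex.I) ^ 2 = y t ^ 2
    rw [(hyx _ (hmem t ht)).1, (hyx t ht).1]
    have e : 2 * (t + Real.pi * Complex.I) = 2 * t + 2 * Real.pi * Complex.I := by ring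
    rw [e, hper _ (ss_half.mp ht)]
  rcases hpc.eq_or_eq_neg_of_sq_eq hcomp hy hsq (fun {t} ht => (hyx t ht).2) with hplus | hminus
  · exfalso
    have hplus' : ∀ t ∈ Ss th (s + 1), y (t + Real.pi * Complex.I) = y t := fun t ht => hplus ht
    -- the extension by zero is periodic
    have hpY : Function.Periodic (fun t => if t ∈ Ss th (s + 1) then y t else 0) ((Real.pi : ℂ) * Complex.I) := by
      intro t
      by_cases ht : t ∈ Ss th (s + 1)
      · have ht2 := hmem t ht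
        simp only [ht, ht2, if_true]
        exact hplus' t ht
      · have ht2 : t + Real.pi * Complex.I ∉ Ss th (s + 1) := fun h => ht (st_pi.mp h)
        simp only [ht, ht2, if_false]
    have hwd : ∀ t ∈ Ss th (s + 1), ∀ t' ∈ Ss th (s + 1), x (2 * t) = x (2 * t') → y t = y t' := by
      intro t ht t' ht' he
      obtain ⟨k, hk⟩ := hx.inj _ (ss_half.mp ht) _ (ss_half.mp ht') he
      have e1 : t' = t + k * (Real.pi * Complex.I) := by
        have h2 : (2 : ℂ) ≠ 0 := two_ne_zero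
        apply mul_left_cancel₀ h2
        rw [hk]; ring
      have h3 := hpY.int_mul k t
      have h4 : (if t + (k : ℂ) * (Real.pi * Complex.I) ∈ Ss th (s + 1) then y (t + (k : ℂ) * (Real.pi * Complex.I)) else 0) =
        (if t ∈ Ss th (s + 1) then y t else 0) := h3
      rw [← e1, if_pos ht', if_pos ht] at h4
      exact h4.symm
    obtain ⟨ρ1, hρ10, hρ11, hρ1⟩ := bb_near hω hα s h1
    set ρ := max ρ1 ‖α s‖ with hρ
    have hρ0 : 0 < ρ := lt_of_lt_of_le hρ10 (le_max_left _ _)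
    have hρlt : ρ < 1 := max_lt hρ11 (hα s)
    obtain ⟨q, hq1, hq2⟩ := log_mm (hω s) (hα s) (ρ := ρ) (le_max_right _ _) hρ0
    have hexp : ∀ u ∈ St (Real.log ρ) 0, ‖Complex.exp u‖ < 1 ∧ ∃ t ∈ Ss th (s + 1), x (2 * t) = Complex.exp u := by
      intro u hu
      have h2 : ρ < ‖Complex.exp u‖ := by
        rw [Complex.norm_exp, ← Real.log_lt_iff_lt_exp hρ0]; exact hu.1
      have h3 : ‖Complex.exp u‖ < 1 := by
        rw [Complex.norm_exp, Real.exp_lt_one_iff]; exact hu.2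
      obtain ⟨t', ht', he⟩ := hx.sur (Complex.exp u) h3 (hρ1 _ (lt_of_le_of_lt (le_max_left _ _) h2) h3)
      refine ⟨h3, t' / 2, ?_, ?_⟩
      · rw [ss_half]
        rw [mul_div_cancel₀ t' (two_ne_zero)]
        exact ht'
      · rw [mul_div_cancel₀ t' (two_ne_zero)]
        exact he
    choose! T hT using fun (u : ℂ) (hu : u ∈ St (Real.log ρ) 0) => (hexp u hu).2
    have hTc : ContinuousOn (fun u => y (T u)) (St (Real.log ρ) 0) := by
      intro u0 hu0
      apply ContinuousAt.continuousWithinAt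
      obtain ⟨ht0, hx0⟩ := hT u0 hu0
      set t0 := T u0 with ht0def
      have hst := st_open (Real.log ρ) 0
      have hyc : ContinuousAt y t0 := hy.continuousAt (hS.mem_nhds ht0)
      -- the map t ↦ x (2 t) is open at t0
      have hd : HasStrictDerivAt (fun t => x (2 * t)) (deriv x (2 * t0) * 2) t0 := by
        have d1 : HasStrictDerivAt x (deriv x (2 * t0)) (2 * t0) :=
          (hx.dif.analyticAt ((ss_open th s).mem_nhds (ss_half.mp ht0))).hasStrictDerivAt
        have d2 : HasStrictDerivAt (fun t : ℂ => 2 * t) 2 t0 := by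
          simpa using (hasStrictDerivAt_id t0).const_mul (2 : ℂ)
        exact HasStrictDerivAt.comp t0 d1 d2
      have hopen := hd.map_nhds_eq (mul_ne_zero (hx.der _ (ss_half.mp ht0)) two_ne_zero)
      rw [ContinuousAt, Metric.tendsto_nhds]
      intro ε hε
      have h5 : ∀ᶠ t in 𝓝 t0, dist (y t) (y t0) < ε ∧ t ∈ Ss th (s + 1) :=
        (Metric.tendsto_nhds.mp hyc ε hε).and (hS.mem_nhds ht0)
      have h6 : (fun t => x (2 * t)) '' {t | dist (y t) (y t0) < ε ∧ t ∈ Ss th (s + 1)} ∈ 𝓝 (x (2 * t0)) := by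
        rw [← hopen]; exact image_mem_map h5
      have hce : ContinuousAt Complex.exp u0 := Complex.continuous_exp.continuousAt
      have h7 : ∀ᶠ u in 𝓝 u0, Complex.exp u ∈ (fun t => x (2 * t)) '' {t | dist (y t) (y t0) < ε ∧ t ∈ Ss th (s + 1)} := by
        apply hce.eventually
        rw [← hx0]; exact h6
      filter_upwards [h7, hst.mem_nhds hu0] with u hu1 hu2
      obtain ⟨t, ⟨ht1, ht2⟩, ht3⟩ := hu1
      obtain ⟨hTu, hxu⟩ := hT u hu2
      have h8 : y (T u) = y t := hwd _ hTu _ ht2 (by rw [hxu]; exact ht3.symm)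
      rw [h8]
      exact ht1
    have hsq2 : EqOn ((fun u => y (T u)) ^ 2) (q ^ 2) (St (Real.log ρ) 0) := by
      intro u hu
      show y (T u) ^ 2 = q u ^ 2
      obtain ⟨hTu, hxu⟩ := hT u hu
      rw [(hyx _ hTu).1, hxu, (hq2 u hu).1]
    have hpc2 : IsPreconnected (St (Real.log ρ) 0) := (st_conv _ _).isPreconnected
    obtain ⟨u, hu⟩ := st_ne (Real.log_neg hρ0 hρlt)
    have hu' : u + 2 * Real.pi * Complex.I ∈ St (Real.log ρ) 0 := by
      have := (st_per (a := Real.log ρ) (b := 0) (t := u) 1).mpr hu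
      simpa using this
    obtain ⟨hTu, hxu⟩ := hT u hu
    obtain ⟨hTu', hxu'⟩ := hT _ hu'
    have hsame : y (T (u + 2 * Real.pi * Complex.I)) = y (T u) := by
      apply hwd _ hTu' _ hTu
      rw [hxu, hxu', Complex.exp_add, Complex.exp_two_pi_mul_I, mul_one]
    have hqn := (hq2 u hu).2.2
    have hqs := (hq2 u hu).2.1
    rcases hpc2.eq_or_eq_neg_of_sq_eq hTc hq1 hsq2 (fun {v} hv => (hq2 v hv).2.2) with h9 | h9
    · have a1 : y (T u) = q u := h9 hu
      have a2 : y (T (u + 2 * Real.pi * Complex.I)) = q (u + 2 * Real.pi * Complex.I) := h9 hu'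
      rw [hsame, a1, hqs] at a2
      exact hqn (self_eq_neg.mp a2)
    · have a1 : y (T u) = - q u := h9 hu
      have a2 : y (T (u + 2 * Real.pi * Complex.I)) = - q (u + 2 * Real.pi * Complex.I) := h9 hu'
      rw [hsame, a1, hqs, neg_neg] at a2
      exact hqn (neg_eq_self.mp a2)
  · intro t ht
    exact hminus ht

theorem xx_succ {th : ℝ} (h0 : 0 < th) (h1 : th < 1) {ω α : ℕ → ℂ} (hω : ∀ s, ‖ω s‖ = 1) (hα : ∀ s, ‖α s‖ < 1) {s : ℕ} {x : ℂ → ℂ}
    (hx : XX th ω α s x) (cv : ‖BB ω α s (ω s * α s)‖ ≤ th) :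
    ∃ y : ℂ → ℂ, XX th ω α (s + 1) y ∧ ∀ t ∈ Ss th (s + 1), Bl (ω s) (α s) (y t) = x (2 * t) := by
  classical
  obtain ⟨y, hyd, hyx⟩ := xx_sqrt h0 h1 hω hα hx cv
  have hS := ss_open th (s + 1)
  have hsg := xx_sign h0 h1 hω hα hx hyd.continuousOn hyx
  have hbal : ∀ t ∈ Ss th (s + 1), ‖y t‖ < 1 := by
    intro t ht
    have h2 := mm_ball (hω s) (hα s) (hx.bal _ (ss_half.mp ht))
    rw [← (hyx t ht).1, norm_pow] at h2
    by_contra h3
    push Not at h3
    have := one_le_pow₀ h3 (n := 2)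
    linarith
  have hB : ∀ t ∈ Ss th (s + 1), Bl (ω s) (α s) (y t) = x (2 * t) := by
    intro t ht
    exact (mm_bl (hω s) (hα s) (hbal t ht) (hx.bal _ (ss_half.mp ht))).mpr (hyx t ht).1
  refine ⟨y, ⟨hyd, ?_, hbal, ?_, ?_, ?_, hsg⟩, hB⟩
  · intro t ht h
    have d1 : HasDerivAt y 0 t := by
      rw [← h]; exact (hyd.differentiableAt (hS.mem_nhds ht)).hasDerivAt
    have hmb : y t ∈ ball (0 : ℂ) 1 := by simpa using hbal t ht
    have d2 : HasDerivAt (Bl (ω s) (α s)) (deriv (Bl (ω s) (α s)) (y t)) (y t) :=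
      ((bl_dif (hα s)).differentiableAt (isOpen_ball.mem_nhds hmb)).hasDerivAt
    have d3 : HasDerivAt (fun t => Bl (ω s) (α s) (y t)) (deriv (Bl (ω s) (α s)) (y t) * 0) t :=
      HasDerivAt.comp t d2 d1
    have d4 : HasDerivAt (fun t => x (2 * t)) (deriv x (2 * t) * 2) t := by
      have d5 : HasDerivAt x (deriv x (2 * t)) (2 * t) :=
        (hx.dif.differentiableAt ((ss_open th s).mem_nhds (ss_half.mp ht))).hasDerivAt
      have d6 : HasDerivAt (fun t : ℂ => 2 * t) 2 t := by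
        simpa using (hasDerivAt_id t).const_mul (2 : ℂ)
      exact HasDerivAt.comp t d5 d6
    have hev : (fun t => x (2 * t)) =ᶠ[𝓝 t] (fun t => Bl (ω s) (α s) (y t)) := by
      filter_upwards [hS.mem_nhds ht] with v hv
      exact (hB v hv).symm
    have d7 := d3.congr_of_eventuallyEq hev
    have d8 := d4.unique d7
    rw [mul_zero] at d8
    exact (mul_ne_zero (hx.der _ (ss_half.mp ht)) two_ne_zero) d8
  · intro t ht
    show BB ω α s (Bl (ω s) (α s) (y t)) = _
    rw [hB t ht, hx.lev _ (ss_half.mp ht)]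
    congr 1
    ring
  · intro t ht t' ht' he
    have hx2 : x (2 * t) = x (2 * t') := by rw [← hB t ht, ← hB t' ht', he]
    obtain ⟨k, hk⟩ := hx.inj _ (ss_half.mp ht) _ (ss_half.mp ht') hx2
    have e1 : t' = t + k * (Real.pi * Complex.I) := by
      have h2 : (2 : ℂ) ≠ 0 := two_ne_zero
      apply mul_left_cancel₀ h2
      rw [hk]; ring
    have hpY : Function.Antiperiodic (fun t => if t ∈ Ss th (s + 1) then y t else 0) ((Real.pi : ℂ) * Complex.I) := by
      intro t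
      by_cases ht : t ∈ Ss th (s + 1)
      · have ht2 : t + Real.pi * Complex.I ∈ Ss th (s + 1) := st_pi.mpr ht
        simp only [ht, ht2, if_true]
        exact hsg t ht
      · have ht2 : t + Real.pi * Complex.I ∉ Ss th (s + 1) := fun h => ht (st_pi.mp h)
        simp only [ht, ht2, if_false, neg_zero]
    rcases Int.even_or_odd' k with ⟨m, hm | hm⟩
    · refine ⟨m, ?_⟩
      rw [e1, hm]; push_cast; ring
    · exfalso
      have h3 := hpY.int_odd_mul_antiperiodic m t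
      have e2 : t + ((m : ℂ) * (2 * (Real.pi * Complex.I)) + Real.pi * Complex.I) = t' := by
        rw [e1, hm]; push_cast; ring
      have h4 : (if t + ((m : ℂ) * (2 * (Real.pi * Complex.I)) + Real.pi * Complex.I) ∈ Ss th (s + 1) then
        y (t + ((m : ℂ) * (2 * (Real.pi * Complex.I)) + Real.pi * Complex.I)) else 0) =
        - (if t ∈ Ss th (s + 1) then y t else 0) := h3
      rw [e2, if_pos ht', if_pos ht, ← he] at h4
      exact (hyx t ht).2 (self_eq_neg.mp h4)
  · intro y0 hy0 hy1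
    have hy1' : th < ‖BB ω α s (Bl (ω s) (α s) y0)‖ := hy1
    have hb := bl_ball (hω s) (hα s) hy0
    obtain ⟨t1, ht1, he⟩ := hx.sur _ hb hy1'
    have ht2 : t1 / 2 ∈ Ss th (s + 1) := by
      rw [ss_half, mul_div_cancel₀ t1 (two_ne_zero)]; exact ht1
    have h3 : y0 ^ 2 = y (t1 / 2) ^ 2 := by
      rw [(hyx _ ht2).1, mul_div_cancel₀ t1 (two_ne_zero), he]
      exact (mm_bl (hω s) (hα s) hy0 hb).mp rfl
    rcases sq_eq_sq_iff_eq_or_eq_neg.mp h3 with h4 | h4
    · exact ⟨t1 / 2, ht2, h4.symm⟩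
    · refine ⟨t1 / 2 + Real.pi * Complex.I, st_pi.mpr ht2, ?_⟩
      rw [hsg _ ht2, h4]

/-- the parametrisations of all levels -/
theorem xx_all {th : ℝ} (h0 : 0 < th) (h1 : th < 1) {ω α : ℕ → ℂ} (hω : ∀ s, ‖ω s‖ = 1) (hα : ∀ s, ‖α s‖ < 1)
    (cv : ∀ s, ‖BB ω α s (ω s * α s)‖ ≤ th) :
    ∃ x : ℕ → ℂ → ℂ, x 0 = Complex.exp ∧ (∀ s, XX th ω α s (x s)) ∧
      ∀ s, ∀ t ∈ Ss th (s + 1), Bl (ω s) (α s) (x (s + 1) t) = x s (2 * t) := by
  classical
  let P : (s : ℕ) → {x : ℂ → ℂ // XX th ω α s x} := fun s =>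
    Nat.rec ⟨Complex.exp, xx_zero h0 h1⟩
      (fun s p => ⟨(xx_succ h0 h1 hω hα p.2 (cv s)).choose, (xx_succ h0 h1 hω hα p.2 (cv s)).choose_spec.1⟩) s
  refine ⟨fun s => (P s).1, rfl, fun s => (P s).2, ?_⟩
  intro s t ht
  exact (xx_succ h0 h1 hω hα (P s).2 (cv s)).choose_spec.2 t ht

end Pool.Agent.H66.GEO
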