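import Pool.Agent.H66.GEO.Defs

/-!
# GEO, module WD1: affine maps, transport and loops

PROOFS. Algebra: `ac_mu`, `ac_iv`, `mu_assoc` by computation.
`aff_id`: `S` open, `G` holomorphic with `deriv G ≠ 0`, `ac g (G v) = ac h (G v)` for `v ∈ S` near `u`: `G` takes two different values near `u`, so `g = h`.
`trans`: `g ∈ GM Lf S H G`. `ext` of the lift `ac g ∘ G` of `H` to `S'`, `H'`, `u'` : `G''` lifts `H'`, `G'' u' = ac g (G u) = ac g (G' u')`. `gal`: `G'' = ac k ∘ G'` on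
`S'` (`k` from `gal`). By `dis` (for `ac g ∘ G` and `G''`, and for `G` and `G'`): for `v ∈ S` near `u`, `v' ∈ S'` near `u'` with `H v = H' v'`: `G'' v' = ac g (G v)` and
`G v = G' v'`. Such `v` exists for every `v'` near `u'` (`H` is open at `u`: `deriv H u ≠ 0`, local inverse). So `ac k (G' v') = ac g (G' v')` for all `v'` near `u'`: `k = g`,
`G'' = ac g ∘ G'` on `S'` and `g ∈ GM Lf S' H' G'` (use `sub` with `k = id` to replace `G''` by the equal function).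
`lo_mul`, `lo_inv`, `lo_one`, `lo_gm`: formal. `lo_trans`: from `trans` the sets `GM` are equal.
`loop`: `ext` of `G` (at the point `u'`!) to `S`, `H`, `u`: `G1` lifts `H`, `G1 u = G u'`; `gal`: `G1 = ac g ∘ G`, so `G u' = ac g (G u)`; `dis` (for `G` at `u'` and `G1` at `u`): for `v` near `u`,
`v'` near `u'`, `H v = H v'` : `G v' = G1 v = ac g (G v)`. `g ∈ LO`: let `k ∈ GM` : `ac k ∘ G` lifts `H`; `ext` at `u'` to `u`: `G2 u = ac k (G u')`, `G2 = ac l ∘ G`; germs: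
`G2 v = ac k (G v') = ac k (ac g (G v))` near `u`, so `l = mu k g`. The inverse: exchange `u` and `u'`.
-/

set_option autoImplicit false

open Filter Topology Metric Set

namespace Pool.Agent.H66.GEO

theorem ac_mu (g h : ℝ × ℂ) (z : ℂ) : ac (mu g h) z = ac g (ac h z) := by
  simp only [ac, mu, Complex.ofReal_mul]
  ring

theorem ac_iv {g : ℝ × ℂ} (hg : g.1 ≠ 0) (z : ℂ) : ac (iv g) (ac g z) = z ∧ ac g (ac (iv g) z) = z := by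
  have h : (g.1 : ℂ) ≠ 0 := Complex.ofReal_ne_zero.2 hg
  simp only [ac, iv, Complex.ofReal_inv]
  constructor
  · field_simp
    ring
  · field_simp
    ring

theorem mu_assoc (g h k : ℝ × ℂ) : mu (mu g h) k = mu g (mu h k) := by
  ext1
  · simp [mu, mul_assoc]
  · simp only [mu, Complex.ofReal_mul]
    ring

theorem mu_iv {g : ℝ × ℂ} (hg : g.1 ≠ 0) : mu g (iv g) = (1, 0) ∧ mu (iv g) g = (1, 0) := by
  have h : (g.1 : ℂ) ≠ 0 := Complex.ofReal_ne_zero.2 hg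
  constructor
  · ext1
    · simp [mu, iv, hg]
    · simp only [mu, iv]
      field_simp
      ring
  · ext1
    · simp [mu, iv, hg]
    · simp only [mu, iv, Complex.ofReal_inv]
      ring

theorem mu_one (g : ℝ × ℂ) : mu g (1, 0) = g ∧ mu (1, 0) g = g := by
  constructor <;> ext1 <;> simp [mu]

private theorem iv_mul (g k : ℝ × ℂ) (hg : g.1 ≠ 0) (hk : k.1 ≠ 0) : iv (mu g k) = mu (iv k) (iv g) := by
  have h1 : (g.1 : ℂ) ≠ 0 := Complex.ofReal_ne_zero.2 hg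
  have h2 : (k.1 : ℂ) ≠ 0 := Complex.ofReal_ne_zero.2 hk
  ext1
  · simp [mu, iv, mul_comm]
  · simp only [mu, iv, Complex.ofReal_mul, Complex.ofReal_inv]
    field_simp
    ring

private theorem iv_iv (g : ℝ × ℂ) (hg : g.1 ≠ 0) : iv (iv g) = g := by
  have h1 : (g.1 : ℂ) ≠ 0 := Complex.ofReal_ne_zero.2 hg
  ext1
  · simp [iv]
  · simp only [iv, Complex.ofReal_inv]
    field_simp

private theorem ac_inj (g h : ℝ × ℂ) (z w : ℂ) (hzw : z ≠ w) (h1 : ac g z = ac h z) (h2 : ac g w = ac h w) :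
    g = h := by
  simp only [ac] at h1 h2
  have h3 : ((g.1 : ℂ) - h.1) * (z - w) = 0 := by linear_combination h1 - h2
  rcases mul_eq_zero.1 h3 with h4 | h4
  · have h5 : (g.1 : ℂ) = h.1 := sub_eq_zero.1 h4
    ext1
    · exact_mod_cast h5
    · rw [h5] at h1
      exact add_left_cancel h1
  · exact absurd (sub_eq_zero.1 h4) hzw

/-- two affine maps which agree on the values of `G` near `u` -/
theorem aff_id {S : Set ℂ} (hS : IsOpen S) {G : ℂ → ℂ} (hG : DifferentiableOn ℂ G S) {u : ℂ} (hu : u ∈ S) (hd : deriv G u ≠ 0)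
    {g h : ℝ × ℂ} (he : ∀ᶠ v in 𝓝 u, ac g (G v) = ac h (G v)) : g = h := by
  have e1 : ∀ᶠ v in 𝓝[≠] u, G v ≠ G u :=
    ((hG.differentiableAt (hS.mem_nhds hu)).hasDerivAt).eventually_ne hd
  obtain ⟨v, v1, v2⟩ := ((he.filter_mono nhdsWithin_le_nhds).and e1).exists
  exact ac_inj g h (G v) (G u) v2 v1 he.self_of_nhds

private theorem lf_congr {Q : Set ℂ} {Lf : Set ℂ → (ℂ → ℂ) → (ℂ → ℂ) → Prop} (h : LS Q Lf) {S : Set ℂ}
    {H G G' : ℂ → ℂ} (hL : Lf S H G) (hG : ∀ u ∈ S, G' u = G u) : Lf S H G' :=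
  h.sub hL S id H G' (h.op hL).1 (h.op hL).2 differentiableOn_id
    (fun u hu => ⟨hu, by simp, rfl, hG u hu⟩)

private theorem near_pair {Q : Set ℂ} {Lf : Set ℂ → (ℂ → ℂ) → (ℂ → ℂ) → Prop} (h : LS Q Lf) {S S' : Set ℂ}
    {H G H' G' : ℂ → ℂ} (hL : Lf S H G) (hL' : Lf S' H' G') {w w' : ℂ} (hw : w ∈ S) (hw' : w' ∈ S')
    (he : H w = H' w') {ε : ℝ} (hε : 0 < ε) :
    ∀ᶠ v' in 𝓝 w', ∃ v ∈ S, ‖v - w‖ < ε ∧ ‖v' - w'‖ < ε ∧ v' ∈ S' ∧ H v = H' v' := by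
  have h0 : map H (𝓝 w) = 𝓝 (H w) := by
    have h1 : HasStrictDerivAt H (deriv H w) w :=
      ((h.dH hL).1.analyticAt ((h.op hL).1.mem_nhds hw)).hasStrictDerivAt
    exact h1.map_nhds_eq ((h.dH hL).2 w hw).2
  have e1 : ∀ᶠ z in 𝓝 (H w), ∃ v ∈ S, ‖v - w‖ < ε ∧ H v = z := by
    rw [← h0, eventually_map]
    filter_upwards [ball_mem_nhds w hε, (h.op hL).1.mem_nhds hw] with v v1 v2
    rw [mem_ball, dist_eq_norm] at v1
    exact ⟨v, v2, v1, rfl⟩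
  have e4 : Tendsto H' (𝓝 w') (𝓝 (H w)) := by
    rw [he]
    exact ((h.dH hL').1.differentiableAt ((h.op hL').1.mem_nhds hw')).continuousAt
  filter_upwards [e4.eventually e1, ball_mem_nhds w' hε, (h.op hL').1.mem_nhds hw'] with v' f1 f2 f3
  rw [mem_ball, dist_eq_norm] at f2
  obtain ⟨v, v1, v2, v3⟩ := f1
  exact ⟨v, v1, v2, f2, f3, v3⟩

theorem one_gm {Q : Set ℂ} {Lf : Set ℂ → (ℂ → ℂ) → (ℂ → ℂ) → Prop} (h : LS Q Lf) {S : Set ℂ} {H G : ℂ → ℂ} (hG : Lf S H G) :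
    ((1, 0) : ℝ × ℂ) ∈ GM Lf S H G := by
  refine ⟨one_ne_zero, lf_congr h hG fun u _ => ?_⟩
  simp [ac]

private theorem trans_sub {Q : Set ℂ} {Lf : Set ℂ → (ℂ → ℂ) → (ℂ → ℂ) → Prop} (h : LS Q Lf) {S S' : Set ℂ}
    {H G H' G' : ℂ → ℂ} (hG : Lf S H G) (hG' : Lf S' H' G') {u u' : ℂ} (hu : u ∈ S) (hu' : u' ∈ S')
    (he : G u = G' u') : GM Lf S H G ⊆ GM Lf S' H' G' := by
  rintro g ⟨hg0, hg⟩
  obtain ⟨hH, δ, hδ, h4⟩ := h.dis hG hG' u hu u' hu' he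
  obtain ⟨G'', h1, h2⟩ := h.ext hg S' H' u u' (h.op hG').1 (h.op hG').2 (h.dH hG').1 (h.dH hG').2 hu hu' hH.symm
  obtain ⟨a, b, ha, hab⟩ := h.gal hG' h1
  obtain ⟨-, ε, hε, h3⟩ := h.dis hg h1 u hu u' hu' h2.symm
  have h7 : g = (a, b) := by
    refine aff_id (h.op hG').1 (h.dG hG').1 hu' ((h.dG hG').2 u' hu') ?_
    filter_upwards [near_pair h hG hG' hu hu' hH (lt_min hε hδ)] with v' hv'
    obtain ⟨v, v1, v2, v3, v4, v5⟩ := hv'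
    have f5 := h3 v v1 v' v4 (v2.trans_le (min_le_left _ _)) (v3.trans_le (min_le_left _ _)) v5
    have f6 := h4 v v1 v' v4 (v2.trans_le (min_le_right _ _)) (v3.trans_le (min_le_right _ _)) v5
    rw [← f6, f5, hab v' v4, ← f6]
    rfl
  refine ⟨hg0, lf_congr h h1 fun v hv => ?_⟩
  rw [hab v hv, h7]
  rfl

/-- transport -/
theorem trans {Q : Set ℂ} {Lf : Set ℂ → (ℂ → ℂ) → (ℂ → ℂ) → Prop} (h : LS Q Lf) {S S' : Set ℂ} {H G H' G' : ℂ → ℂ}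
    (hG : Lf S H G) (hG' : Lf S' H' G') {u u' : ℂ} (hu : u ∈ S) (hu' : u' ∈ S') (he : G u = G' u') :
    GM Lf S H G = GM Lf S' H' G' :=
  (trans_sub h hG hG' hu hu' he).antisymm (trans_sub h hG' hG hu' hu he.symm)

theorem lo_trans {Q : Set ℂ} {Lf : Set ℂ → (ℂ → ℂ) → (ℂ → ℂ) → Prop} (h : LS Q Lf) {S S' : Set ℂ} {H G H' G' : ℂ → ℂ}
    (hG : Lf S H G) (hG' : Lf S' H' G') {u u' : ℂ} (hu : u ∈ S) (hu' : u' ∈ S') (he : G u = G' u') :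
    LO Lf S H G = LO Lf S' H' G' := by
  unfold LO
  rw [trans h hG hG' hu hu' he]

theorem lo_one {Lf : Set ℂ → (ℂ → ℂ) → (ℂ → ℂ) → Prop} {S : Set ℂ} {H G : ℂ → ℂ} : ((1, 0) : ℝ × ℂ) ∈ LO Lf S H G := by
  refine ⟨one_ne_zero, fun k hk => ?_⟩
  have h1 : iv ((1, 0) : ℝ × ℂ) = (1, 0) := by simp [iv]
  rw [h1, (mu_one k).1]
  exact ⟨hk, hk⟩

theorem lo_mul {Lf : Set ℂ → (ℂ → ℂ) → (ℂ → ℂ) → Prop} {S : Set ℂ} {H G : ℂ → ℂ} {g k : ℝ × ℂ} (hg : g ∈ LO Lf S H G)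
    (hk : k ∈ LO Lf S H G) : mu g k ∈ LO Lf S H G := by
  refine ⟨mul_ne_zero hg.1 hk.1, fun l hl => ⟨?_, ?_⟩⟩
  · rw [← mu_assoc]
    exact (hk.2 _ (hg.2 l hl).1).1
  · rw [iv_mul g k hg.1 hk.1, ← mu_assoc]
    exact (hg.2 _ (hk.2 l hl).2).2

theorem lo_inv {Lf : Set ℂ → (ℂ → ℂ) → (ℂ → ℂ) → Prop} {S : Set ℂ} {H G : ℂ → ℂ} {g : ℝ × ℂ} (hg : g ∈ LO Lf S H G) :
    iv g ∈ LO Lf S H G := by
  refine ⟨inv_ne_zero hg.1, fun l hl => ⟨(hg.2 l hl).2, ?_⟩⟩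
  rw [iv_iv g hg.1]
  exact (hg.2 l hl).1

theorem lo_gm {Q : Set ℂ} {Lf : Set ℂ → (ℂ → ℂ) → (ℂ → ℂ) → Prop} (h : LS Q Lf) {S : Set ℂ} {H G : ℂ → ℂ} (hG : Lf S H G)
    {g : ℝ × ℂ} (hg : g ∈ LO Lf S H G) : g ∈ GM Lf S H G := by
  have h1 := (hg.2 _ (one_gm h hG)).1
  rwa [(mu_one g).2] at h1

private theorem loop_aux {Q : Set ℂ} {Lf : Set ℂ → (ℂ → ℂ) → (ℂ → ℂ) → Prop} (h : LS Q Lf) {S S' : Set ℂ}
    {H G H' G' : ℂ → ℂ} (hG : Lf S H G) (hG' : Lf S' H' G') {u u' w w' : ℂ} (hu : u ∈ S) (hu' : u' ∈ S')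
    (he : G u = G' u') (hw : w ∈ S) (hw' : w' ∈ S') (hww : H w = H' w') :
    ∃ g ∈ LO Lf S H G, G w = ac g (G' w') ∧
      ∃ ε : ℝ, 0 < ε ∧ ∀ v ∈ S, ∀ v' ∈ S', ‖v - w‖ < ε → ‖v' - w'‖ < ε → H v = H' v' → G v = ac g (G' v') := by
  have hGM : GM Lf S H G = GM Lf S' H' G' := trans h hG hG' hu hu' he
  obtain ⟨G1, h1, h2⟩ := h.ext hG' S H w' w (h.op hG).1 (h.op hG).2 (h.dH hG).1 (h.dH hG).2 hw' hw hww
  obtain ⟨a, b, ha, hab⟩ := h.gal hG h1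
  obtain ⟨-, ε, hε, h3⟩ := h.dis hG' h1 w' hw' w hw h2.symm
  -- `m = (a, b)`: `G' v' = ac m (G v)`
  have hm0 : ((a, b) : ℝ × ℂ).1 ≠ 0 := ha
  have key : ∀ v ∈ S, ∀ v' ∈ S', ‖v - w‖ < ε → ‖v' - w'‖ < ε → H v = H' v' → G' v' = ac (a, b) (G v) := by
    intro v hv v' hv' f1 f2 f3
    rw [h3 v' hv' v hv f2 f1 f3.symm, hab v hv]
    rfl
  have key2 : ∀ v ∈ S, ∀ v' ∈ S', ‖v - w‖ < ε → ‖v' - w'‖ < ε → H v = H' v' →
      G v = ac (iv (a, b)) (G' v') := by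
    intro v hv v' hv' f1 f2 f3
    rw [key v hv v' hv' f1 f2 f3, (ac_iv hm0 _).1]
  have c1 : ∀ k ∈ GM Lf S H G, mu k (a, b) ∈ GM Lf S H G := by
    intro k hk
    have hk' : k ∈ GM Lf S' H' G' := hGM ▸ hk
    obtain ⟨G2, g1, g2⟩ := h.ext hk'.2 S H w' w (h.op hG).1 (h.op hG).2 (h.dH hG).1 (h.dH hG).2 hw' hw hww
    obtain ⟨c, d, hc, hcd⟩ := h.gal hG g1
    obtain ⟨-, δ, hδ, g3⟩ := h.dis hk'.2 g1 w' hw' w hw g2.symm
    have h7 : ((c, d) : ℝ × ℂ) = mu k (a, b) := by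
      refine aff_id (h.op hG).1 (h.dG hG).1 hw ((h.dG hG).2 w hw) ?_
      filter_upwards [near_pair h hG' hG hw' hw hww.symm (lt_min hε hδ)] with v hv
      obtain ⟨v', v1, v2, v3, v4, v5⟩ := hv
      have f5 := key v v4 v' v1 (v3.trans_le (min_le_left _ _)) (v2.trans_le (min_le_left _ _)) v5.symm
      have f6 := g3 v' v1 v v4 (v2.trans_le (min_le_right _ _)) (v3.trans_le (min_le_right _ _)) v5
      rw [ac_mu, ← f5, f6, hcd v v4]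
      rfl
    refine ⟨mul_ne_zero hk.1 ha, lf_congr h g1 fun v hv => ?_⟩
    rw [hcd v hv, ← h7]
    rfl
  have c2 : ∀ k ∈ GM Lf S H G, mu k (iv (a, b)) ∈ GM Lf S H G := by
    intro k hk
    obtain ⟨G3, g1, g2⟩ := h.ext hk.2 S' H' w w' (h.op hG').1 (h.op hG').2 (h.dH hG').1 (h.dH hG').2 hw hw'
      hww.symm
    obtain ⟨c, d, hc, hcd⟩ := h.gal hG' g1
    obtain ⟨-, δ, hδ, g3⟩ := h.dis hk.2 g1 w hw w' hw' g2.symm
    have h7 : ((c, d) : ℝ × ℂ) = mu k (iv (a, b)) := by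
      refine aff_id (h.op hG').1 (h.dG hG').1 hw' ((h.dG hG').2 w' hw') ?_
      filter_upwards [near_pair h hG hG' hw hw' hww (lt_min hε hδ)] with v' hv'
      obtain ⟨v, v1, v2, v3, v4, v5⟩ := hv'
      have f5 := key2 v v1 v' v4 (v2.trans_le (min_le_left _ _)) (v3.trans_le (min_le_left _ _)) v5
      have f6 := g3 v v1 v' v4 (v2.trans_le (min_le_right _ _)) (v3.trans_le (min_le_right _ _)) v5
      rw [ac_mu, ← f5, f6, hcd v' v4]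
      rfl
    rw [hGM]
    refine ⟨mul_ne_zero hk.1 (inv_ne_zero ha), lf_congr h g1 fun v hv => ?_⟩
    rw [hcd v hv, ← h7]
    rfl
  have hm : ((a, b) : ℝ × ℂ) ∈ LO Lf S H G := ⟨ha, fun k hk => ⟨c1 k hk, c2 k hk⟩⟩
  refine ⟨iv (a, b), lo_inv hm, key2 w hw w' hw' ?_ ?_ hww, ε, hε, key2⟩
  · rw [sub_self, norm_zero]
    exact hε
  · rw [sub_self, norm_zero]
    exact hε

/-- loops -/
theorem loop {Q : Set ℂ} {Lf : Set ℂ → (ℂ → ℂ) → (ℂ → ℂ) → Prop} (h : LS Q Lf) {S : Set ℂ} {H G : ℂ → ℂ}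
    (hG : Lf S H G) {u u' : ℂ} (hu : u ∈ S) (hu' : u' ∈ S) (he : H u = H u') :
    ∃ g ∈ LO Lf S H G, G u' = ac g (G u) ∧
      ∃ ε : ℝ, 0 < ε ∧ ∀ v ∈ S, ∀ v' ∈ S, ‖v - u‖ < ε → ‖v' - u'‖ < ε → H v = H v' → G v' = ac g (G v) := by
  obtain ⟨g, h1, h2, ε, h3, h4⟩ := loop_aux h hG hG hu hu rfl hu' hu he.symm
  exact ⟨g, h1, h2, ε, h3, fun v hv v' hv' f1 f2 f3 => h4 v' hv' v hv f2 f1 f3.symm⟩

/-- loops between two linked lifts: `G` on `S`, `G'` on `S'`, linked at `(u, u')`; at another pair `(w, w')` with `H w = H' w'` the germs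
differ by an affine map in `LO` -/
theorem loop2 {Q : Set ℂ} {Lf : Set ℂ → (ℂ → ℂ) → (ℂ → ℂ) → Prop} (h : LS Q Lf) {S S' : Set ℂ} {H G H' G' : ℂ → ℂ}
    (hG : Lf S H G) (hG' : Lf S' H' G') {u u' w w' : ℂ} (hu : u ∈ S) (hu' : u' ∈ S') (he : G u = G' u')
    (hw : w ∈ S) (hw' : w' ∈ S') (hww : H w = H' w') :
    ∃ g ∈ LO Lf S H G, G w = ac g (G' w') ∧
      ∃ ε : ℝ, 0 < ε ∧ ∀ v ∈ S, ∀ v' ∈ S', ‖v - w‖ < ε → ‖v' - w'‖ < ε → H v = H' v' → G v = ac g (G' v') :=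
  loop_aux h hG hG' hu hu' he hw hw' hww

end Pool.Agent.H66.GEO
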