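import Pool.Agent.H39.TP.XR

/-!
# GEO, module YS: the domains `X_s^r`

`Ys = φ s '' {x | ‖x‖ < 1, ‖BB s x‖ < r}` is the set `XR` of H39/TP/XR. `full_img`: compact sets in the disc whose complement
in the disc is connected are full; images of full sets under injective holomorphic functions are full (H81/RW); compact full
sets have connected complement. `ys_compl`: bounded open full sets have connected complement.
-/

set_option autoImplicit false

open Filter Topology Metric Set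

namespace Pool.Agent.H66.GEO

open Pool.Agent.H56.TH (Full)
open Pool.Agent.H39.TP

variable {Q : Set ℂ} {Lf : Set ℂ → (ℂ → ℂ) → (ℂ → ℂ) → Prop} {th r : ℝ} {φ F : ℕ → ℂ → ℂ} {ω α : ℕ → ℂ} {ψ : ℕ → ℂ → ℂ}

/-- the domain `X_s^r` -/
def Ys (φ : ℕ → ℂ → ℂ) (ω α : ℕ → ℂ) (r : ℝ) (s : ℕ) : Set ℂ := φ s '' {x | ‖x‖ < 1 ∧ ‖BB ω α s x‖ < r}

/-- full images -/
theorem full_img {Φ : ℂ → ℂ} (hd : DifferentiableOn ℂ Φ (ball 0 1)) (hi : InjOn Φ (ball 0 1)) {T : Set ℂ} (hT : IsCompact T)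
    (hTb : T ⊆ ball 0 1) (hc : IsPreconnected (ball 0 1 \ T)) : IsPreconnected (Φ '' T)ᶜ := by
  refine compl_of_full_compact (hT.image_of_continuousOn (hd.continuousOn.mono hTb)) ?_
  refine Pool.Agent.H81.RW.img_full hd hi hTb ?_
  intro O hO hb hfr
  have hOb : O ⊆ ball 0 1 := Pool.Agent.H56.TH.full_ball 0 1 O hO hb (hfr.trans hTb)
  have hcl : closure O ⊆ ball (0 : ℂ) 1 := by
    rw [closure_eq_self_union_frontier]
    exact union_subset hOb (hfr.trans hTb)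
  intro o ho
  by_contra hoT
  have hck : IsCompact (closure O) := Metric.isCompact_of_isClosed_isBounded isClosed_closure hb.closure
  obtain ⟨p, hp, hpcl⟩ : ∃ p ∈ ball (0 : ℂ) 1, p ∉ closure O ∪ T := by
    have hKc : IsCompact (closure O ∪ T) := hck.union hT
    have hne : (closure O ∪ T).Nonempty := ⟨o, Or.inl (subset_closure ho)⟩
    obtain ⟨x, hx, hmax⟩ := hKc.exists_isMaxOn hne continuous_norm.continuousOn
    have hx1 : ‖x‖ < 1 := mem_ball_zero_iff.1 (union_subset hcl hTb hx)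
    obtain ⟨c, hc1, hc2⟩ := exists_between hx1
    have hc0 : 0 ≤ c := (norm_nonneg x).trans hc1.le
    refine ⟨(c : ℂ), ?_, ?_⟩
    · rw [mem_ball_zero_iff, Complex.norm_real, Real.norm_of_nonneg hc0]
      exact hc2
    · intro h1
      have h2 : ‖(c : ℂ)‖ ≤ ‖x‖ := hmax h1
      rw [Complex.norm_real, Real.norm_of_nonneg hc0] at h2
      linarith
  have hsub : ball (0 : ℂ) 1 \ T ⊆ O ∪ (closure O)ᶜ := by
    rintro x ⟨-, hxT⟩
    by_cases h1 : x ∈ closure O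
    · left
      by_contra h2
      exact hxT (hfr (by rw [hO.frontier_eq]; exact ⟨h1, h2⟩))
    · exact Or.inr h1
  obtain ⟨y, -, hy1, hy2⟩ := hc O (closure O)ᶜ hO isClosed_closure.isOpen_compl hsub ⟨o, ⟨hOb ho, hoT⟩, ho⟩
    ⟨p, ⟨hp, fun h => hpcl (Or.inr h)⟩, fun h => hpcl (Or.inl h)⟩
  exact hy2 (subset_closure hy1)

theorem ys_eq (s : ℕ) : Ys φ ω α r s = XR φ ω α r s := by
  unfold Ys XR DR
  congr 1
  ext x
  rw [mem_setOf_eq, mem_setOf_eq, mem_ball_zero_iff]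

theorem ys_open (hX : XS Q Lf th r φ F ω α) (s : ℕ) : IsOpen (Ys φ ω α r s) := ys_eq s ▸ xr_open hX s

theorem ys_full (hX : XS Q Lf th r φ F ω α) (s : ℕ) : Full (Ys φ ω α r s) := ys_eq s ▸ xr_full hX s

theorem ys_bdd (hX : XS Q Lf th r φ F ω α) (s : ℕ) : Bornology.IsBounded (Ys φ ω α r s) := ys_eq s ▸ xr_bd hX s

theorem ys_zero (hX : XS Q Lf th r φ F ω α) (s : ℕ) : (0 : ℂ) ∈ Ys φ ω α r s := by
  refine ⟨0, ⟨by rw [norm_zero]; exact one_pos, ?_⟩, phi_zero hX s⟩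
  have hr := r_pos hX
  cases s with
  | zero =>
    show ‖(0 : ℂ)‖ < r
    rw [norm_zero]
    exact hr
  | succ s =>
    have h1 : Bl (ω s) (α s) 0 = ω s * α s := by
      unfold Bl
      rw [zero_pow two_ne_zero, zero_add, mul_zero, add_zero, div_one]
    show ‖BB ω α s (Bl (ω s) (α s) 0)‖ < r
    rw [h1]
    exact lt_of_le_of_lt (hX.cv s) hX.thr

theorem ys_sub (s : ℕ) : Ys φ ω α r s ⊆ φ s '' ball 0 1 := image_mono fun _ hx => mem_ball_zero_iff.2 hx.1

theorem ys_mem (hX : XS Q Lf th r φ F ω α) (hP : PS th φ F ω α ψ) {s : ℕ} {t : ℂ} (ht : t ∈ Ss th s) :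
    ψ s t ∈ Ys φ ω α r s ↔ t.re < Real.log r / 2 ^ s := by
  rw [ys_eq]
  exact mem_xr hX hP ht

theorem ys_in (hX : XS Q Lf th r φ F ω α) (hP : PS th φ F ω α ψ) (s : ℕ) {t : ℂ} (h1 : Real.log th / 2 ^ s < t.re)
    (h2 : t.re < Real.log r / 2 ^ s) : ψ s t ∈ Ys φ ω α r s := by
  have hr := r_pos hX
  have h3 : Real.log r / 2 ^ s < 0 := div_neg_of_neg_of_pos (Real.log_neg hr hX.r1) (by positivity)
  exact (ys_mem hX hP (ss_mem.2 ⟨h1, h2.trans h3⟩)).2 h2

theorem ys_out (hX : XS Q Lf th r φ F ω α) (hP : PS th φ F ω α ψ) (s : ℕ) {t : ℂ} (h1 : Real.log r / 2 ^ s ≤ t.re)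
    (h2 : t.re < 0) : ψ s t ∉ Ys φ ω α r s := by
  have h3 : Real.log th / 2 ^ s < Real.log r / 2 ^ s :=
    div_lt_div_of_pos_right (Real.log_lt_log hX.th0 hX.thr) (by positivity)
  intro h
  exact absurd ((ys_mem hX hP (ss_mem.2 ⟨h3.trans_le h1, h2⟩)).1 h) (not_lt.2 h1)

/-- frontier points of `Ys s` are on the curve -/
theorem ys_bd_pt (hX : XS Q Lf th r φ F ω α) (hP : PS th φ F ω α ψ) {s : ℕ} {w : ℂ}
    (hw : w ∈ closure (Ys φ ω α r s)) (hw' : w ∉ Ys φ ω α r s) :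
    w ∉ Q ∧ ∃ t ∈ Ss th s, t.re = Real.log r / 2 ^ s ∧ ψ s t = w := by
  rw [ys_eq] at hw hw'
  exact fr_xr hX hP hw hw'

theorem ys_fr (hX : XS Q Lf th r φ F ω α) (hP : PS th φ F ω α ψ) (s : ℕ) :
    frontier (Ys φ ω α r s) = ψ s '' {t | t.re = Real.log r / 2 ^ s} := by
  have hr := r_pos hX
  have h3 : Real.log r / 2 ^ s < 0 := div_neg_of_neg_of_pos (Real.log_neg hr hX.r1) (by positivity)
  have h4 : Real.log th / 2 ^ s < Real.log r / 2 ^ s :=
    div_lt_div_of_pos_right (Real.log_lt_log hX.th0 hX.thr) (by positivity)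
  refine Subset.antisymm ?_ ?_
  · intro w hw
    rw [(ys_open hX s).frontier_eq] at hw
    obtain ⟨-, t, -, htr, rfl⟩ := ys_bd_pt hX hP hw.1 hw.2
    exact ⟨t, htr, rfl⟩
  · rintro _ ⟨t, ht, rfl⟩
    have ht' : t.re = Real.log r / 2 ^ s := ht
    have htS : t ∈ Ss th s := ss_mem.2 ⟨by rw [ht']; exact h4, by rw [ht']; exact h3⟩
    rw [(ys_open hX s).frontier_eq]
    refine ⟨?_, ys_out hX hP s ht'.ge (by rw [ht']; exact h3)⟩
    have hc : ContinuousAt (ψ s) t := (hP.dif s).continuousOn.continuousAt ((st_open _ _).mem_nhds htS)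
    have h5 : Tendsto (fun e : ℝ => t - (e : ℂ)) (𝓝[>] 0) (𝓝 t) := by
      have h6 : Tendsto (fun e : ℝ => t - (e : ℂ)) (𝓝 0) (𝓝 (t - ((0 : ℝ) : ℂ))) :=
        (continuous_const.sub Complex.continuous_ofReal).tendsto 0
      rw [Complex.ofReal_zero, sub_zero] at h6
      exact h6.mono_left nhdsWithin_le_nhds
    refine mem_closure_of_tendsto (hc.tendsto.comp h5) ?_
    have h7 : ∀ᶠ e : ℝ in 𝓝[>] 0, e < Real.log r / 2 ^ s - Real.log th / 2 ^ s :=
      (eventually_lt_nhds (by linarith)).filter_mono nhdsWithin_le_nhds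
    filter_upwards [h7, self_mem_nhdsWithin] with e he1 he2
    have he2' : 0 < e := he2
    refine ys_in hX hP s ?_ ?_
    · rw [Complex.sub_re, Complex.ofReal_re, ht']
      linarith
    · rw [Complex.sub_re, Complex.ofReal_re, ht']
      linarith

theorem ys_compl (hX : XS Q Lf th r φ F ω α) (_hP : PS th φ F ω α ψ) (s : ℕ) : IsPreconnected (Ys φ ω α r s)ᶜ :=
  compl_of_full (ys_open hX s) (ys_bdd hX s) (ys_full hX s)

end Pool.Agent.H66.GEO
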